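import Pool.Agent.Y743.CL.Bl

/-! # The zeros in a dyadic block, continued -/

set_option autoImplicit false

open Filter Topology MeasureTheory Set

namespace Pool.Agent.Y743.CL

open SG (ord NZ)
open Pool.Agent.Y743.NC (dev dev_nonneg dev_int count_le var_le unit_count)

/-- conditions on the height -/
lemma big_ev (M C2 δ : ℝ) (hδ : 0 < δ) : ∃ T2 : ℝ, 10 ≤ T2 ∧ ∀ T : ℝ, T2 ≤ T →
    M * Real.log M ≤ Real.log T ∧ M * (2 * Real.pi / Real.log T) ≤ 1 ∧
    2 * (C2 * Real.log (2 * T)) ≤ δ * (T * Real.log T / (2 * Real.pi)) ∧ 1 ≤ Real.log T := by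
  have hpi := Real.pi_pos
  have hlog := Real.tendsto_log_atTop
  have h1 : Tendsto (fun T : ℝ => M * (2 * Real.pi / Real.log T)) atTop (𝓝 0) := by
    have := (tendsto_const_nhds (x := 2 * Real.pi)).div_atTop hlog |>.const_mul M
    rwa [mul_zero] at this
  obtain ⟨T2, hT2⟩ := (((hlog.eventually_ge_atTop (M * Real.log M)).and
    (h1.eventually_le_const (show (0 : ℝ) < 1 by norm_num))).and
    ((hlog.eventually_ge_atTop 1).and (eventually_ge_atTop (2 * (2 * |C2|) * (2 * Real.pi) / δ)))).exists_forall_of_atTop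
  refine ⟨max 10 T2, le_max_left _ _, fun T hT => ?_⟩
  obtain ⟨⟨g1, g2⟩, g3, g4⟩ := hT2 T ((le_max_right _ _).trans hT)
  have hT10 : 10 ≤ T := (le_max_left _ _).trans hT
  refine ⟨g1, g2, ?_, g3⟩
  have h5 : Real.log (2 * T) ≤ 2 * Real.log T := by
    rw [Real.log_mul (by norm_num) (by linarith)]
    have := Real.log_two_lt_d9
    linarith
  have h6 : 0 ≤ Real.log (2 * T) := Real.log_nonneg (by linarith)
  rw [div_le_iff₀ hδ] at g4
  have h7 : C2 * Real.log (2 * T) ≤ |C2| * (2 * Real.log T) := by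
    calc C2 * Real.log (2 * T) ≤ |C2| * Real.log (2 * T) := mul_le_mul_of_nonneg_right (le_abs_self _) h6
      _ ≤ _ := mul_le_mul_of_nonneg_left h5 (abs_nonneg _)
  have h8 : δ * (T * Real.log T / (2 * Real.pi)) = (T * δ) * Real.log T / (2 * Real.pi) := by ring
  rw [h8, le_div_iff₀ (by positivity)]
  have h9 : (2 * (2 * |C2|) * (2 * Real.pi)) * Real.log T ≤ (T * δ) * Real.log T :=
    mul_le_mul_of_nonneg_right g4 (by linarith)
  have h10 : 2 * (C2 * Real.log (2 * T)) * (2 * Real.pi) ≤ 2 * (|C2| * (2 * Real.log T)) * (2 * Real.pi) := by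
    gcongr
  linarith

lemma Zv_eq (a T t : ℝ) : Zv a T t = Real.pi * (a - ((NZ (t + a * (2 * Real.pi / Real.log T)) : ℝ) - NZ t)) /
    Real.sqrt (Real.log a) := by
  unfold Zv
  congr 6
  ring

theorem blockU (B : ℝ) (hB : 1 ≤ B) (x ε : ℝ) (hε : 0 < ε) : ∀ᶠ r : ℕ in atTop, ∀ T : ℝ, 1 ≤ T →
    r * Real.log r ≤ B * Real.log T →
    (((Finset.Ioc (NZ T) (NZ (2 * T))).filter
      (fun n => ord (n + r) ≤ ord n + (r + x * lm r) * (2 * Real.pi / Real.log T))).card : ℝ) ≤
      T * Real.log T / (2 * Real.pi) * (Ph x + ε) := by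
  have hpi := Real.pi_pos
  obtain ⟨δ, hδd⟩ : ∃ δ : ℝ, δ = ε / 8 := ⟨_, rfl⟩
  have hδ : 0 < δ := by rw [hδd]; positivity
  obtain ⟨C1, T1, hC1, hT1, hvar⟩ := var_le
  obtain ⟨M, hM1, hM⟩ := exM C1 δ hδ
  obtain ⟨C2, hC2, huc⟩ := unit_count
  obtain ⟨K, hK1, hK2⟩ := gs_right hδ (x + δ)
  obtain ⟨R, hR3, hR⟩ := stat_clt (2 * B) (by linarith) (x + δ) K δ hK1 hδ
  obtain ⟨T2, hT2, hbig⟩ := big_ev M C2 δ hδ
  filter_upwards [(as6 x M).eventually_ge_atTop R, as5 x M,
    (as4 x M).eventually_le_const (show x < x + δ by linarith), bigT B hB (max T1 T2),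
    (as6 x 0).eventually_ge_atTop 0] with r c1 c2 c3 c4 c5 T hT hrT
  have hTb := c4 T hT hrT
  have hTT1 : T1 ≤ T := (le_max_left _ _).trans hTb
  have hTT2 : T2 ≤ T := (le_max_right _ _).trans hTb
  obtain ⟨g1, g2, g3, g4⟩ := hbig T hTT2
  have hT10 : 10 ≤ T := hT2.trans hTT2
  have hM0 : 0 < M := by linarith
  set h : ℝ := 2 * Real.pi / Real.log T with hh
  have hL0 : 0 < Real.log T := by linarith
  have hh0 : 0 < h := by positivity
  set s : ℝ := Real.sqrt (C1 + Real.log (1 + M)) with hs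
  have hlM : 0 ≤ Real.log (1 + M) := Real.log_nonneg (by linarith)
  have hs0 : 0 < s := Real.sqrt_pos.2 (by linarith)
  have hs2 : s ^ 2 = C1 + Real.log (1 + M) := Real.sq_sqrt (by linarith)
  set a : ℝ := r + x * lm r with ha
  have haM : a + M = r + (x * lm r + M) := by rw [ha]; ring
  set W : Set ℝ := {t | ¬ (x + δ < Zv (a + M) T t ∧ Zv (a + M) T t < K)} with hW
  have hWv : volume.real (W ∩ Icc T (2 * T)) ≤ (Ph x + 3 * δ) * T := by
    have e : W ∩ Icc T (2 * T) = {t | t ∈ Icc T (2 * T) ∧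
        ¬ (x + δ < Zv (a + M) T t ∧ Zv (a + M) T t < K)} := by
      ext t
      simp only [hW, mem_inter_iff, mem_ofPred_eq]
      tauto
    rw [e]
    refine (hR (a + M) T (by rw [haM]; exact c1) hT (by rw [haM]; linarith)).trans ?_
    apply mul_le_mul_of_nonneg_right _ (by linarith)
    have := Ph_lip (show x ≤ x + δ by linarith)
    linarith
  -- the event
  set F := (Finset.Ioc (NZ T) (NZ (2 * T))).filter (fun n => ord (n + r) ≤ ord n + a * h) with hF
  set S := F.filter (fun n => T + M * h ≤ ord n) with hS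
  have hmem : ∀ n ∈ F, NZ T < n ∧ n ≤ NZ (2 * T) ∧ ord (n + r) ≤ ord n + a * h := by
    intro n hn
    rw [hF, Finset.mem_filter, Finset.mem_Ioc] at hn
    exact ⟨hn.1.1, hn.1.2, hn.2⟩
  have hpalm := palmU (T := T) (M := M) (a := a) (s := s) (by linarith) hM0 hs0 r S W (W_meas _ _ _ _)
    (fun n hn => by have := (hmem n (Finset.mem_filter.1 hn).1).1; omega)
    (fun n hn => (Finset.mem_filter.1 hn).2)
    (fun n hn => by
      obtain ⟨a1, a2, a3⟩ := hmem n (Finset.mem_filter.1 hn).1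
      exact (SG.ord_le_iff (by omega) _).mpr a2)
    (fun n hn => (hmem n (Finset.mem_filter.1 hn).1).2.2)
    (by
      intro t ht hlt
      rw [hW, mem_ofPred_eq]
      rintro ⟨hz, -⟩
      rw [Zv_eq, ← hh] at hz
      have hz2 : Real.pi * ((a + M) - ((NZ (t + (a + M) * h) : ℝ) - NZ t)) / Real.sqrt (Real.log (a + M)) ≤
          Real.pi * (x * lm r + M) / Real.sqrt (Real.log (r + (x * lm r + M))) := by
        rw [haM]
        rw [haM] at hlt
        apply div_le_div_of_nonneg_right _ (Real.sqrt_nonneg _)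
        apply mul_le_mul_of_nonneg_left _ hpi.le
        linarith
      linarith)
  have hdev := hvar T hTT1 M hM0 g1
  have hdev2 : (1 / s) * ∫ t in Icc T (2 * T), dev T M t ≤ s * T := by
    calc (1 / s) * ∫ t in Icc T (2 * T), dev T M t ≤ (1 / s) * (T * s ^ 2) := by
          rw [hs2]; exact mul_le_mul_of_nonneg_left hdev (by positivity)
      _ = s * T := by field_simp
  have hS1 : M * h * S.card ≤ M * ((Ph x + 3 * δ) * T) + δ * M * T := by
    have a1 : M * volume.real (W ∩ Icc T (2 * T)) ≤ M * ((Ph x + 3 * δ) * T) :=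
      mul_le_mul_of_nonneg_left hWv hM0.le
    have a2 : s * T ≤ δ * M * T := mul_le_mul_of_nonneg_right hM (by linarith)
    linarith
  have hS2 : (S.card : ℝ) ≤ T * Real.log T / (2 * Real.pi) * (Ph x + 4 * δ) := by
    have a1 : h * S.card ≤ (Ph x + 4 * δ) * T := by
      have : M * (h * S.card) ≤ M * ((Ph x + 4 * δ) * T) := by linarith
      exact le_of_mul_le_mul_left this hM0
    have a2 : T * Real.log T / (2 * Real.pi) * (Ph x + 4 * δ) = ((Ph x + 4 * δ) * T) / h := by
      rw [hh]; field_simp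
    rw [a2, le_div_iff₀ hh0]
    linarith
  have hrest : ((F.filter (fun n => ¬ (T + M * h ≤ ord n))).card : ℝ) ≤ C2 * Real.log T := by
    have hsub : F.filter (fun n => ¬ (T + M * h ≤ ord n)) ⊆ Finset.Ioc (NZ T) (NZ (T + 1)) := by
      intro n hn
      rw [Finset.mem_filter] at hn
      obtain ⟨b1, b2⟩ := hn
      obtain ⟨a1, a2, a3⟩ := hmem n b1
      rw [Finset.mem_Ioc]
      refine ⟨a1, (SG.ord_le_iff (by omega) _).mp ?_⟩
      push Not at b2
      linarith
    have h1 := Finset.card_le_card hsub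
    rw [Nat.card_Ioc] at h1
    have hmono : NZ T ≤ NZ (T + 1) := SG.NZ_mono (by linarith)
    have h2 : ((F.filter (fun n => ¬ (T + M * h ≤ ord n))).card : ℝ) ≤ ((NZ (T + 1) - NZ T : ℕ) : ℝ) := by
      exact_mod_cast h1
    rw [Nat.cast_sub hmono] at h2
    have h3 := huc T (by linarith)
    linarith
  have hsplit := Finset.card_filter_add_card_filter_not (s := F) (fun n => T + M * h ≤ ord n)
  have hsplit' : (F.card : ℝ) = S.card + ((F.filter (fun n => ¬ (T + M * h ≤ ord n))).card : ℝ) := by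
    exact_mod_cast hsplit.symm
  have hlog2 : C2 * Real.log T ≤ 2 * (C2 * Real.log (2 * T)) := by
    have a1 : Real.log T ≤ Real.log (2 * T) := Real.log_le_log (by linarith) (by linarith)
    have a2 : C2 * Real.log T ≤ C2 * Real.log (2 * T) := mul_le_mul_of_nonneg_left a1 hC2.le
    have a3 : 0 ≤ C2 * Real.log (2 * T) := mul_nonneg hC2.le (Real.log_nonneg (by linarith))
    linarith
  have hTL : 0 ≤ T * Real.log T / (2 * Real.pi) := by positivity
  rw [hsplit']
  have : T * Real.log T / (2 * Real.pi) * (Ph x + 4 * δ) + δ * (T * Real.log T / (2 * Real.pi)) ≤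
      T * Real.log T / (2 * Real.pi) * (Ph x + ε) := by
    have e : T * Real.log T / (2 * Real.pi) * (Ph x + 4 * δ) + δ * (T * Real.log T / (2 * Real.pi)) =
      T * Real.log T / (2 * Real.pi) * (Ph x + 5 * δ) := by ring
    rw [e]
    apply mul_le_mul_of_nonneg_left _ hTL
    rw [hδd]; linarith
  linarith

theorem blockL (B : ℝ) (hB : 1 ≤ B) (x ε : ℝ) (hε : 0 < ε) : ∀ᶠ r : ℕ in atTop, ∀ T : ℝ, 1 ≤ T →
    r * Real.log r ≤ B * Real.log T →
    (((Finset.Ioc (NZ T) (NZ (2 * T))).filter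
      (fun n => ord n + (r + x * lm r - 1) * (2 * Real.pi / Real.log T) < ord (n + r))).card : ℝ) ≤
      T * Real.log T / (2 * Real.pi) * (1 - Ph x + ε) := by
  have hpi := Real.pi_pos
  obtain ⟨δ, hδd⟩ : ∃ δ : ℝ, δ = ε / 8 := ⟨_, rfl⟩
  have hδ : 0 < δ := by rw [hδd]; positivity
  obtain ⟨C1, T1, hC1, hT1, hvar⟩ := var_le
  obtain ⟨M, hM1, hM⟩ := exM C1 δ hδ
  obtain ⟨C2, hC2, huc⟩ := unit_count
  obtain ⟨K, hK1, hK2⟩ := gs_left hδ (x - δ)
  obtain ⟨R, hR3, hR⟩ := stat_clt (2 * B) (by linarith) (-K) (x - δ) δ hK1 hδ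
  obtain ⟨T2, hT2, hbig⟩ := big_ev M C2 δ hδ
  filter_upwards [(as6 x (-1 - M)).eventually_ge_atTop R, as5 x (-1 - M),
    (as4 x (-1 - M)).eventually_const_le (show x - δ < x by linarith), bigT B hB (max T1 T2)]
    with r c1 c2 c3 c4 T hT hrT
  have hTb := c4 T hT hrT
  have hTT1 : T1 ≤ T := (le_max_left _ _).trans hTb
  have hTT2 : T2 ≤ T := (le_max_right _ _).trans hTb
  obtain ⟨g1, g2, g3, g4⟩ := hbig T hTT2
  have hT10 : 10 ≤ T := hT2.trans hTT2
  have hM0 : 0 < M := by linarith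
  set h : ℝ := 2 * Real.pi / Real.log T with hh
  have hL0 : 0 < Real.log T := by linarith
  have hh0 : 0 < h := by positivity
  set s : ℝ := Real.sqrt (C1 + Real.log (1 + M)) with hs
  have hlM : 0 ≤ Real.log (1 + M) := Real.log_nonneg (by linarith)
  have hs0 : 0 < s := Real.sqrt_pos.2 (by linarith)
  have hs2 : s ^ 2 = C1 + Real.log (1 + M) := Real.sq_sqrt (by linarith)
  set a : ℝ := r + x * lm r - 1 with ha
  have haM : a - M = r + (x * lm r + (-1 - M)) := by rw [ha]; ring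
  set W : Set ℝ := {t | ¬ (-K < Zv (a - M) T t ∧ Zv (a - M) T t < x - δ)} with hW
  have hWv : volume.real (W ∩ Icc T (2 * T)) ≤ (1 - Ph x + 3 * δ) * T := by
    have e : W ∩ Icc T (2 * T) = {t | t ∈ Icc T (2 * T) ∧
        ¬ (-K < Zv (a - M) T t ∧ Zv (a - M) T t < x - δ)} := by
      ext t
      simp only [hW, mem_inter_iff, mem_ofPred_eq]
      tauto
    rw [e]
    refine (hR (a - M) T (by rw [haM]; exact c1) hT (by rw [haM]; linarith)).trans ?_
    apply mul_le_mul_of_nonneg_right _ (by linarith)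
    have := Ph_lip (show x - δ ≤ x by linarith)
    linarith
  -- the event
  set F := (Finset.Ioc (NZ T) (NZ (2 * T))).filter (fun n => ord n + a * h < ord (n + r)) with hF
  set S := F.filter (fun n => T + M * h ≤ ord n ∧ ord n + M * h ≤ 2 * T) with hS
  have hmem : ∀ n ∈ F, NZ T < n ∧ n ≤ NZ (2 * T) ∧ ord n + a * h < ord (n + r) := by
    intro n hn
    rw [hF, Finset.mem_filter, Finset.mem_Ioc] at hn
    exact ⟨hn.1.1, hn.1.2, hn.2⟩
  have hpalm := palmL (T := T) (M := M) (a := a) (s := s) (by linarith) hM0 hs0 r S W (W_meas _ _ _ _)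
    (fun n hn => by have := (hmem n (Finset.mem_filter.1 hn).1).1; omega)
    (fun n hn => (Finset.mem_filter.1 hn).2.1)
    (fun n hn => (Finset.mem_filter.1 hn).2.2)
    (fun n hn => (hmem n (Finset.mem_filter.1 hn).1).2.2)
    (by
      intro t ht hlt
      rw [hW, mem_ofPred_eq]
      rintro ⟨-, hz⟩
      rw [Zv_eq, ← hh] at hz
      have hz2 : Real.pi * (x * lm r + (-1 - M)) / Real.sqrt (Real.log (r + (x * lm r + (-1 - M)))) ≤
          Real.pi * ((a - M) - ((NZ (t + (a - M) * h) : ℝ) - NZ t)) / Real.sqrt (Real.log (a - M)) := by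
        rw [haM]
        rw [haM] at hlt
        apply div_le_div_of_nonneg_right _ (Real.sqrt_nonneg _)
        apply mul_le_mul_of_nonneg_left _ hpi.le
        linarith
      linarith)
  have hdev := hvar T hTT1 M hM0 g1
  have hdev2 : (1 / s) * ∫ t in Icc T (2 * T), dev T M t ≤ s * T := by
    calc (1 / s) * ∫ t in Icc T (2 * T), dev T M t ≤ (1 / s) * (T * s ^ 2) := by
          rw [hs2]; exact mul_le_mul_of_nonneg_left hdev (by positivity)
      _ = s * T := by field_simp
  have hS1 : M * h * S.card ≤ M * ((1 - Ph x + 3 * δ) * T) + δ * M * T := by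
    have a1 : M * volume.real (W ∩ Icc T (2 * T)) ≤ M * ((1 - Ph x + 3 * δ) * T) :=
      mul_le_mul_of_nonneg_left hWv hM0.le
    have a2 : s * T ≤ δ * M * T := mul_le_mul_of_nonneg_right hM (by linarith)
    linarith
  have hS2 : (S.card : ℝ) ≤ T * Real.log T / (2 * Real.pi) * (1 - Ph x + 4 * δ) := by
    have a1 : h * S.card ≤ (1 - Ph x + 4 * δ) * T := by
      have : M * (h * S.card) ≤ M * ((1 - Ph x + 4 * δ) * T) := by linarith
      exact le_of_mul_le_mul_left this hM0
    have a2 : T * Real.log T / (2 * Real.pi) * (1 - Ph x + 4 * δ) = ((1 - Ph x + 4 * δ) * T) / h := by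
      rw [hh]; field_simp
    rw [a2, le_div_iff₀ hh0]
    linarith
  have hrest : ((F.filter (fun n => ¬ (T + M * h ≤ ord n ∧ ord n + M * h ≤ 2 * T))).card : ℝ) ≤
      2 * (C2 * Real.log (2 * T)) := by
    have hsub : F.filter (fun n => ¬ (T + M * h ≤ ord n ∧ ord n + M * h ≤ 2 * T)) ⊆
        Finset.Ioc (NZ T) (NZ (T + 1)) ∪ Finset.Ioc (NZ (2 * T - 1)) (NZ (2 * T - 1 + 1)) := by
      intro n hn
      rw [Finset.mem_filter] at hn
      obtain ⟨b1, b2⟩ := hn
      obtain ⟨a1, a2, a3⟩ := hmem n b1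
      rw [Finset.mem_union, Finset.mem_Ioc, Finset.mem_Ioc]
      by_cases b3 : T + M * h ≤ ord n
      · right
        have b4 : ¬ (ord n + M * h ≤ 2 * T) := fun hc => b2 ⟨b3, hc⟩
        push Not at b4
        have e : 2 * T - 1 + 1 = 2 * T := by ring
        rw [e]
        refine ⟨?_, a2⟩
        by_contra hcon
        push Not at hcon
        have := (SG.ord_le_iff (by omega) _).mpr hcon
        linarith
      · left
        push Not at b3
        refine ⟨a1, (SG.ord_le_iff (by omega) _).mp ?_⟩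
        linarith
    have h1 := (Finset.card_le_card hsub).trans (Finset.card_union_le _ _)
    rw [Nat.card_Ioc, Nat.card_Ioc] at h1
    have hmono : NZ T ≤ NZ (T + 1) := SG.NZ_mono (by linarith)
    have hmono2 : NZ (2 * T - 1) ≤ NZ (2 * T - 1 + 1) := SG.NZ_mono (by linarith)
    have h2 : ((F.filter (fun n => ¬ (T + M * h ≤ ord n ∧ ord n + M * h ≤ 2 * T))).card : ℝ) ≤
        ((NZ (T + 1) - NZ T : ℕ) : ℝ) + ((NZ (2 * T - 1 + 1) - NZ (2 * T - 1) : ℕ) : ℝ) := by
      exact_mod_cast h1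
    rw [Nat.cast_sub hmono, Nat.cast_sub hmono2] at h2
    have h3 := huc T (by linarith)
    have h4 := huc (2 * T - 1) (by linarith)
    have a1 : Real.log T ≤ Real.log (2 * T) := Real.log_le_log (by linarith) (by linarith)
    have a2 : C2 * Real.log T ≤ C2 * Real.log (2 * T) := mul_le_mul_of_nonneg_left a1 hC2.le
    have a3 : Real.log (2 * T - 1) ≤ Real.log (2 * T) := Real.log_le_log (by linarith) (by linarith)
    have a4 : C2 * Real.log (2 * T - 1) ≤ C2 * Real.log (2 * T) := mul_le_mul_of_nonneg_left a3 hC2.le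
    linarith
  have hsplit := Finset.card_filter_add_card_filter_not (s := F)
    (fun n => T + M * h ≤ ord n ∧ ord n + M * h ≤ 2 * T)
  have hsplit' : (F.card : ℝ) = S.card +
      ((F.filter (fun n => ¬ (T + M * h ≤ ord n ∧ ord n + M * h ≤ 2 * T))).card : ℝ) := by
    exact_mod_cast hsplit.symm
  have hTL : 0 ≤ T * Real.log T / (2 * Real.pi) := by positivity
  rw [hsplit']
  have : T * Real.log T / (2 * Real.pi) * (1 - Ph x + 4 * δ) + δ * (T * Real.log T / (2 * Real.pi)) ≤
      T * Real.log T / (2 * Real.pi) * (1 - Ph x + ε) := by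
    have e : T * Real.log T / (2 * Real.pi) * (1 - Ph x + 4 * δ) + δ * (T * Real.log T / (2 * Real.pi)) =
      T * Real.log T / (2 * Real.pi) * (1 - Ph x + 5 * δ) := by ring
    rw [e]
    apply mul_le_mul_of_nonneg_left _ hTL
    rw [hδd]; linarith
  linarith

end Pool.Agent.Y743.CL
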