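import Pool.Agent.Y743.CL.Pa
import Pool.Agent.Y743.NC.Block

/-! # The zeros in a dyadic block -/

set_option autoImplicit false

open Filter Topology MeasureTheory Set

namespace Pool.Agent.Y743.CL

open SG (ord NZ)
open Pool.Agent.Y743.NC (dev dev_nonneg dev_int count_le var_le unit_count)

/-- the scale of the fluctuations -/
noncomputable def lm (r : ℕ) : ℝ := Real.sqrt (Real.log r) / Real.pi

lemma lm_nonneg (r : ℕ) : 0 ≤ lm r := by unfold lm; positivity

lemma log_nat : Tendsto (fun r : ℕ => Real.log (r : ℝ)) atTop atTop :=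
  Real.tendsto_log_atTop.comp tendsto_natCast_atTop_atTop

lemma as1 (x M : ℝ) : Tendsto (fun r : ℕ => (x * lm r + M) / r) atTop (𝓝 0) := by
  have h1 : Tendsto (fun r : ℕ => Real.log (r : ℝ) / r) atTop (𝓝 0) :=
    Real.isLittleO_log_id_atTop.tendsto_div_nhds_zero.comp tendsto_natCast_atTop_atTop
  have h2 : Tendsto (fun r : ℕ => (|x| + |M|) * (Real.log (r : ℝ) / r)) atTop (𝓝 0) := by
    have := h1.const_mul (|x| + |M|)
    rwa [mul_zero] at this
  refine squeeze_zero_norm' ?_ h2
  filter_upwards [log_nat.eventually_ge_atTop 1, eventually_gt_atTop 0] with r hr hr0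
  have hr' : (0 : ℝ) < r := by exact_mod_cast hr0
  rw [Real.norm_eq_abs, abs_div, abs_of_pos hr', ← mul_div_assoc]
  apply div_le_div_of_nonneg_right _ hr'.le
  have h3 : lm r ≤ Real.log r := by
    unfold lm
    have a1 : Real.sqrt (Real.log r) ≤ Real.log r := by
      rw [Real.sqrt_le_left (by linarith)]
      nlinarith
    refine le_trans ?_ a1
    exact div_le_self (Real.sqrt_nonneg _) (by linarith [Real.pi_gt_three])
  have h4 := lm_nonneg r
  calc |x * lm r + M| ≤ |x * lm r| + |M| := abs_add_le _ _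
    _ = |x| * lm r + |M| * 1 := by rw [abs_mul, abs_of_nonneg h4, mul_one]
    _ ≤ |x| * Real.log r + |M| * Real.log r := by
        gcongr
    _ = _ := by ring

lemma as2 (x M : ℝ) : Tendsto (fun r : ℕ => Real.log (r + (x * lm r + M)) - Real.log r) atTop (𝓝 0) := by
  have h1 : Tendsto (fun r : ℕ => 1 + (x * lm r + M) / r) atTop (𝓝 (1 + 0)) :=
    tendsto_const_nhds.add (as1 x M)
  rw [add_zero] at h1
  have h2 := (Real.continuousAt_log (one_ne_zero)).tendsto.comp h1
  rw [Real.log_one] at h2
  refine h2.congr' ?_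
  filter_upwards [h1.eventually_const_lt (show (1 / 2 : ℝ) < 1 by norm_num), eventually_gt_atTop 0] with r hr hr0
  have hr' : (0 : ℝ) < r := by exact_mod_cast hr0
  simp only [Function.comp]
  have e : (r : ℝ) + (x * lm r + M) = r * (1 + (x * lm r + M) / r) := by
    field_simp
  rw [e, Real.log_mul hr'.ne' (by linarith)]
  ring

lemma as3 (x M : ℝ) : Tendsto (fun r : ℕ => Real.log (r + (x * lm r + M)) / Real.log r) atTop (𝓝 1) := by
  have h1 := (as2 x M).div_atTop log_nat
  have h2 := h1.add_const 1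
  rw [zero_add] at h2
  refine h2.congr' ?_
  filter_upwards [log_nat.eventually_ge_atTop 1] with r hr
  have : Real.log (r : ℝ) ≠ 0 := by linarith
  field_simp
  ring

lemma as4 (x M : ℝ) : Tendsto (fun r : ℕ => Real.pi * (x * lm r + M) /
    Real.sqrt (Real.log (r + (x * lm r + M)))) atTop (𝓝 x) := by
  have h1 : Tendsto (fun r : ℕ => x + Real.pi * M / Real.sqrt (Real.log r)) atTop (𝓝 (x + 0)) :=
    tendsto_const_nhds.add (tendsto_const_nhds.div_atTop (Real.tendsto_sqrt_atTop.comp log_nat))
  rw [add_zero] at h1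
  have h2 := (as3 x M).sqrt.inv₀ (by rw [Real.sqrt_one]; norm_num)
  rw [Real.sqrt_one, inv_one] at h2
  have h3 := h1.mul h2
  rw [mul_one] at h3
  refine h3.congr' ?_
  filter_upwards [log_nat.eventually_ge_atTop 1, (as3 x M).eventually_const_lt (show (0 : ℝ) < 1 by norm_num)]
    with r hr hr2
  have hl : 0 < Real.log (r : ℝ) := by linarith
  have hs : 0 < Real.sqrt (Real.log r) := Real.sqrt_pos.2 hl
  have hl2 : 0 < Real.log (r + (x * lm r + M)) := by
    by_contra hcon
    push Not at hcon
    have := div_nonpos_of_nonpos_of_nonneg hcon hl.le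
    linarith
  have hs2 : 0 < Real.sqrt (Real.log (r + (x * lm r + M))) := Real.sqrt_pos.2 hl2
  rw [Real.sqrt_div hl2.le]
  have e : Real.pi * (x * lm r + M) = x * Real.sqrt (Real.log r) + Real.pi * M := by
    unfold lm
    have := Real.pi_ne_zero
    field_simp
  rw [e]
  field_simp

lemma as5 (x M : ℝ) : ∀ᶠ r : ℕ in atTop, (r + (x * lm r + M)) * Real.log (r + (x * lm r + M)) ≤
    2 * (r * Real.log r) := by
  have h1 : Tendsto (fun r : ℕ => 1 + (x * lm r + M) / r) atTop (𝓝 (1 + 0)) :=
    tendsto_const_nhds.add (as1 x M)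
  have h2 := h1.mul (as3 x M)
  rw [add_zero, mul_one] at h2
  filter_upwards [h2.eventually_le_const (show (1 : ℝ) < 2 by norm_num),
    log_nat.eventually_ge_atTop 1, eventually_gt_atTop 0] with r h3 h4 h5
  have hr' : (0 : ℝ) < r := by exact_mod_cast h5
  have e : (1 + (x * lm r + M) / r) * (Real.log (r + (x * lm r + M)) / Real.log r) =
      ((r + (x * lm r + M)) * Real.log (r + (x * lm r + M))) / (r * Real.log r) := by
    field_simp
  rw [e, div_le_iff₀ (by positivity)] at h3
  exact h3

lemma as6 (x M : ℝ) : Tendsto (fun r : ℕ => (r : ℝ) + (x * lm r + M)) atTop atTop := by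
  have h1 : Tendsto (fun r : ℕ => 1 + (x * lm r + M) / r) atTop (𝓝 (1 + 0)) :=
    tendsto_const_nhds.add (as1 x M)
  rw [add_zero] at h1
  have h2 := h1.pos_mul_atTop one_pos (tendsto_natCast_atTop_atTop (R := ℝ))
  refine h2.congr' ?_
  filter_upwards [eventually_gt_atTop 0] with r hr
  have hr' : (0 : ℝ) < r := by exact_mod_cast hr
  field_simp

/-- large `r` forces large heights -/
lemma bigT (B : ℝ) (hB : 1 ≤ B) (T1 : ℝ) : ∀ᶠ r : ℕ in atTop, ∀ T : ℝ, 1 ≤ T →
    r * Real.log r ≤ B * Real.log T → T1 ≤ T := by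
  have h1 : Tendsto (fun r : ℕ => (r : ℝ) * Real.log r) atTop atTop :=
    (tendsto_natCast_atTop_atTop (R := ℝ)).atTop_mul_atTop₀ log_nat
  filter_upwards [h1.eventually_ge_atTop (B * Real.log (max T1 1))] with r hr T hT h
  have h2 : B * Real.log (max T1 1) ≤ B * Real.log T := hr.trans h
  have h3 := le_of_mul_le_mul_left h2 (by linarith : 0 < B)
  rw [Real.log_le_log_iff (by have := le_max_right T1 1; linarith) (by linarith)] at h3
  exact (le_max_left _ _).trans h3

lemma Zv_meas (a T : ℝ) : Measurable (Zv a T) := by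
  unfold Zv
  have h1 : Measurable fun t : ℝ => (NZ t : ℝ) := measurable_from_nat.comp (SG.NZ_mono.measurable)
  have h2 : Measurable fun t : ℝ => (NZ (t + 2 * Real.pi * a / Real.log T) : ℝ) :=
    h1.comp (measurable_id.add_const _)
  exact ((measurable_const.sub (h2.sub h1)).const_mul _).div_const _

lemma W_meas (a T u v : ℝ) : MeasurableSet {t | ¬ (u < Zv a T t ∧ Zv a T t < v)} :=
  ((measurableSet_lt measurable_const (Zv_meas a T)).inter
    (measurableSet_lt (Zv_meas a T) measurable_const)).compl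

/-- the window -/
lemma exM (C ε : ℝ) (hε : 0 < ε) : ∃ M : ℝ, 1 ≤ M ∧ Real.sqrt (C + Real.log (1 + M)) ≤ ε * M := by
  have h1 : Tendsto (fun x : ℝ => (C + Real.log (1 + x)) / x ^ 2) atTop (𝓝 0) := by
    have h2 : Tendsto (fun x : ℝ => C / x ^ 2) atTop (𝓝 0) :=
      tendsto_const_nhds.div_atTop (tendsto_pow_atTop (by norm_num))
    have h3 : Tendsto (fun x : ℝ => Real.log (1 + x) / x ^ 2) atTop (𝓝 0) := by
      have h4 : Tendsto (fun x : ℝ => 1 / x) atTop (𝓝 0) := tendsto_const_nhds.div_atTop tendsto_id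
      refine squeeze_zero' ?_ ?_ h4
      · filter_upwards [eventually_ge_atTop 0] with x hx
        have := Real.log_nonneg (by linarith : 1 ≤ 1 + x)
        positivity
      · filter_upwards [eventually_gt_atTop 0] with x hx
        have h5 := Real.log_le_sub_one_of_pos (by linarith : 0 < 1 + x)
        rw [div_le_div_iff₀ (by positivity) hx]
        nlinarith
    have := h2.add h3
    rw [add_zero] at this
    refine this.congr fun x => ?_
    rw [← add_div]
  obtain ⟨M, hM1, hM2⟩ := ((h1.eventually_le_const (show (0 : ℝ) < ε ^ 2 by positivity)).and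
    (eventually_ge_atTop 1)).exists
  refine ⟨M, hM2, ?_⟩
  rw [div_le_iff₀ (by positivity)] at hM1
  apply Real.sqrt_le_iff.2
  refine ⟨by positivity, ?_⟩
  rw [mul_pow]
  exact hM1

end Pool.Agent.Y743.CL
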