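import Mathlib

/-! # The standard normal law -/

set_option autoImplicit false

namespace Pool.Agent.Y743.CL

open Filter Topology MeasureTheory Set ProbabilityTheory

/-- the standard normal law -/
noncomputable abbrev gs : Measure ℝ := gaussianReal 0 1

lemma gs_le {S : Set ℝ} (hS : volume S ≠ ⊤) : gs.real S ≤ volume.real S := by
  have h : gs S ≤ volume S := by
    unfold gs
    rw [gaussianReal_of_var_ne_zero 0 one_ne_zero]
    have h1 : volume.withDensity (gaussianPDF 0 1) ≤ volume.withDensity (1 : ℝ → ENNReal) := by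
      refine withDensity_mono (Eventually.of_forall fun x => ?_)
      unfold gaussianPDF
      rw [Pi.one_apply, ← ENNReal.ofReal_one]
      apply ENNReal.ofReal_le_ofReal
      unfold gaussianPDFReal
      have a1 : Real.exp (-(x - 0) ^ 2 / (2 * ((1 : NNReal) : ℝ))) ≤ 1 := by
        apply Real.exp_le_one_iff.2
        have : 0 ≤ (x - 0) ^ 2 := sq_nonneg _
        have h2 : (0 : ℝ) < 2 * ((1 : NNReal) : ℝ) := by norm_num
        rw [neg_div]
        have := div_nonneg this h2.le
        linarith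
      have a2 : (Real.sqrt (2 * Real.pi * ((1 : NNReal) : ℝ)))⁻¹ ≤ 1 := by
        apply inv_le_one_of_one_le₀
        rw [Real.one_le_sqrt]
        have := Real.pi_gt_three
        norm_num
        linarith
      have a3 := Real.exp_pos (-(x - 0) ^ 2 / (2 * ((1 : NNReal) : ℝ)))
      have a4 : 0 ≤ (Real.sqrt (2 * Real.pi * ((1 : NNReal) : ℝ)))⁻¹ := by positivity
      nlinarith
    rw [withDensity_one] at h1
    exact h1 S
  exact ENNReal.toReal_mono hS h

/-- shrinking an interval -/
lemma gs_shrink (u v η : ℝ) (hη : 0 ≤ η) :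
    gs.real (Ioo u v) ≤ gs.real (Ioo (u + η) (v - η)) + 2 * η := by
  have h1 : Ioo u v ⊆ Ioo (u + η) (v - η) ∪ (Icc u (u + η) ∪ Icc (v - η) v) := by
    intro x hx
    simp only [mem_union, mem_Ioo, mem_Icc]
    rcases le_or_gt x (u + η) with h | h
    · right; left; exact ⟨hx.1.le, h⟩
    · rcases le_or_gt (v - η) x with h' | h'
      · right; right; exact ⟨h', hx.2.le⟩
      · left; exact ⟨h, h'⟩
  have h2 : gs.real (Ioo u v) ≤ gs.real (Ioo (u + η) (v - η)) +
      (gs.real (Icc u (u + η)) + gs.real (Icc (v - η) v)) := by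
    refine (measureReal_mono h1 (measure_ne_top _ _)).trans ?_
    refine (measureReal_union_le _ _).trans ?_
    gcongr
    exact measureReal_union_le _ _
  have h3 : gs.real (Icc u (u + η)) ≤ η := by
    refine (gs_le (by rw [Real.volume_Icc]; exact ENNReal.ofReal_ne_top)).trans ?_
    rw [Real.volume_real_Icc_of_le (by linarith)]
    linarith
  have h4 : gs.real (Icc (v - η) v) ≤ η := by
    refine (gs_le (by rw [Real.volume_Icc]; exact ENNReal.ofReal_ne_top)).trans ?_
    rw [Real.volume_real_Icc_of_le (by linarith)]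
    linarith
  linarith

/-- the distribution function -/
noncomputable def Ph (x : ℝ) : ℝ := gs.real (Iic x)

lemma Ph_mono {x y : ℝ} (h : x ≤ y) : Ph x ≤ Ph y :=
  measureReal_mono (Iic_subset_Iic.2 h) (measure_ne_top _ _)

lemma Ph_lip {x y : ℝ} (h : x ≤ y) : Ph y ≤ Ph x + (y - x) := by
  unfold Ph
  have h1 : Iic y ⊆ Iic x ∪ Icc x y := by
    intro z hz
    simp only [mem_union, mem_Iic, mem_Icc] at *
    rcases le_or_gt z x with h' | h'
    · left; exact h'
    · right; exact ⟨h'.le, hz⟩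
  refine (measureReal_mono h1 (measure_ne_top _ _)).trans ((measureReal_union_le _ _).trans ?_)
  have h3 : gs.real (Icc x y) ≤ y - x := by
    refine (gs_le (by rw [Real.volume_Icc]; exact ENNReal.ofReal_ne_top)).trans ?_
    rw [Real.volume_real_Icc_of_le h]
  linarith

lemma Ph_nonneg (x : ℝ) : 0 ≤ Ph x := measureReal_nonneg

lemma Ph_le_one (x : ℝ) : Ph x ≤ 1 := measureReal_le_one

lemma gs_compl (x : ℝ) : gs.real (Ioi x) = 1 - Ph x := by
  unfold Ph
  rw [← compl_Iic, measureReal_compl measurableSet_Iic, probReal_univ]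

/-- the lower tail -/
lemma gs_bot {ε : ℝ} (hε : 0 < ε) : ∃ K0 : ℝ, ∀ K : ℝ, K0 ≤ K → gs.real (Iic (-K)) ≤ ε := by
  have h : Tendsto (fun n : ℕ => gs (Iic (-(n : ℝ)))) atTop (𝓝 (gs (⋂ n : ℕ, Iic (-(n : ℝ))))) := by
    apply tendsto_measure_iInter_atTop
    · intro n; exact measurableSet_Iic.nullMeasurableSet
    · intro m n hmn
      apply Iic_subset_Iic.2
      have : (m : ℝ) ≤ n := by exact_mod_cast hmn
      linarith
    · exact ⟨0, measure_ne_top _ _⟩
  have he : (⋂ n : ℕ, Iic (-(n : ℝ))) = ∅ := by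
    ext x
    simp only [mem_iInter, mem_Iic, mem_empty_iff_false, iff_false, not_forall, not_le]
    obtain ⟨n, hn⟩ := exists_nat_gt (-x)
    exact ⟨n, by linarith⟩
  rw [he, measure_empty] at h
  have h2 := (ENNReal.tendsto_toReal ENNReal.zero_ne_top).comp h
  rw [ENNReal.toReal_zero] at h2
  obtain ⟨n, hn⟩ := (h2.eventually_le_const hε).exists
  refine ⟨n, fun K hK => ?_⟩
  refine (measureReal_mono (Iic_subset_Iic.2 (by linarith : -K ≤ -(n : ℝ))) (measure_ne_top _ _)).trans hn

/-- the upper tail -/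
lemma gs_top {ε : ℝ} (hε : 0 < ε) : ∃ K0 : ℝ, ∀ K : ℝ, K0 ≤ K → gs.real (Ici K) ≤ ε := by
  have h : Tendsto (fun n : ℕ => gs (Ici (n : ℝ))) atTop (𝓝 (gs (⋂ n : ℕ, Ici (n : ℝ)))) := by
    apply tendsto_measure_iInter_atTop
    · intro n; exact measurableSet_Ici.nullMeasurableSet
    · intro m n hmn
      apply Ici_subset_Ici.2
      exact_mod_cast hmn
    · exact ⟨0, measure_ne_top _ _⟩
  have he : (⋂ n : ℕ, Ici (n : ℝ)) = ∅ := by
    ext x
    simp only [mem_iInter, mem_Ici, mem_empty_iff_false, iff_false, not_forall, not_le]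
    obtain ⟨n, hn⟩ := exists_nat_gt x
    exact ⟨n, hn⟩
  rw [he, measure_empty] at h
  have h2 := (ENNReal.tendsto_toReal ENNReal.zero_ne_top).comp h
  rw [ENNReal.toReal_zero] at h2
  obtain ⟨n, hn⟩ := (h2.eventually_le_const hε).exists
  refine ⟨n, fun K hK => ?_⟩
  exact (measureReal_mono (Ici_subset_Ici.2 hK) (measure_ne_top _ _)).trans hn

/-- the complement of `(-K, x)` -/
lemma gs_left {ε : ℝ} (hε : 0 < ε) (x : ℝ) : ∃ K : ℝ, -K < x ∧ Ph x - ε ≤ gs.real (Ioo (-K) x) := by
  obtain ⟨K0, hK⟩ := gs_bot hε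
  refine ⟨max K0 (1 - x), by linarith [le_max_right K0 (1 - x)], ?_⟩
  set K := max K0 (1 - x)
  have h1 : Iic x ⊆ Iic (-K) ∪ (Ioo (-K) x ∪ {x}) := by
    intro z hz
    simp only [mem_union, mem_Iic, mem_Ioo, mem_singleton_iff] at *
    rcases le_or_gt z (-K) with h | h
    · left; exact h
    · rcases hz.eq_or_lt with h' | h'
      · right; right; exact h'
      · right; left; exact ⟨h, h'⟩
  have h2 : Ph x ≤ gs.real (Iic (-K)) + (gs.real (Ioo (-K) x) + gs.real {x}) := by
    refine (measureReal_mono h1 (measure_ne_top _ _)).trans ((measureReal_union_le _ _).trans ?_)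
    gcongr
    exact measureReal_union_le _ _
  have h3 : gs.real {x} = 0 := by
    have := gs_le (S := {x}) (by simp)
    have h0 : volume.real ({x} : Set ℝ) = 0 := by simp [Measure.real]
    rw [h0] at this
    exact le_antisymm this measureReal_nonneg
  have h4 := hK K (le_max_left _ _)
  linarith

/-- the complement of `(x, K)` -/
lemma gs_right {ε : ℝ} (hε : 0 < ε) (x : ℝ) : ∃ K : ℝ, x < K ∧ 1 - Ph x - ε ≤ gs.real (Ioo x K) := by
  obtain ⟨K0, hK⟩ := gs_top hε
  refine ⟨max K0 (1 + x), by linarith [le_max_right K0 (1 + x)], ?_⟩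
  set K := max K0 (1 + x)
  have h1 : Ioi x ⊆ Ici K ∪ Ioo x K := by
    intro z hz
    simp only [mem_union, mem_Ici, mem_Ioo, mem_Ioi] at *
    rcases le_or_gt K z with h | h
    · left; exact h
    · right; exact ⟨hz, h⟩
  have h2 : gs.real (Ioi x) ≤ gs.real (Ici K) + gs.real (Ioo x K) :=
    (measureReal_mono h1 (measure_ne_top _ _)).trans (measureReal_union_le _ _)
  rw [gs_compl] at h2
  have h4 := hK K (le_max_left _ _)
  linarith

end Pool.Agent.Y743.CL
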