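import Pool.Agent.Y743.CL.Cf
import Pool.Agent.Y743.CL.Ga
import Pool.Agent.Y743.LR.NT3

/-! # The number of ordinates in a window and a short prime polynomial -/

set_option autoImplicit false

namespace Pool.Agent.Y743.CL

open Complex Filter Topology MeasureTheory Set
open Pool.Agent.TH850.UV
open SG (NZ)
open H370 (Zf)

/-- the difference of the normalised count and the prime polynomial -/
noncomputable def er (lam κ T a t : ℝ) : ℝ :=
  ((NZ (t + 2 * Real.pi * a / Real.log T) : ℝ) - NZ t) - a +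
    (G (rc (Real.log T / lam) (2 * Real.pi * a / Real.log T)) (XK κ T)
      (t + 2 * Real.pi * a / Real.log T / 2)).re

lemma er_meas (lam κ T a : ℝ) : Measurable (er lam κ T a) := by
  unfold er
  have h1 : Measurable fun t : ℝ => (NZ t : ℝ) :=
    measurable_from_nat.comp (SG.NZ_mono.measurable)
  have h2 : Measurable fun t : ℝ => (NZ (t + 2 * Real.pi * a / Real.log T) : ℝ) :=
    h1.comp (measurable_id.add_const _)
  have h3 : Continuous fun t : ℝ => (G (rc (Real.log T / lam) (2 * Real.pi * a / Real.log T)) (XK κ T)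
      (t + 2 * Real.pi * a / Real.log T / 2)).re :=
    Complex.continuous_re.comp ((G_cont _ _).comp (by fun_prop))
  exact ((h2.sub h1).sub_const _).add h3.measurable

theorem comb (B : ℝ) (hB : 1 ≤ B) : ∃ lam C T0 : ℝ, 16 ≤ lam ∧ 0 < C ∧ 10 ≤ T0 ∧
    ∀ T : ℝ, T0 ≤ T → ∀ a : ℝ, lam ≤ a → a * Real.log a ≤ B * Real.log T →
    ∀ κ : ℝ, 0 < κ → κ ≤ 1 / 8 → 8 ≤ κ * Real.log T →
    IntervalIntegrable (fun t => er lam κ T a t ^ 2) volume (T + Real.log T) (2 * T - Real.log T - 7) ∧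
    ∫ t in (T + Real.log T)..(2 * T - Real.log T - 7), er lam κ T a t ^ 2 ≤
      C * (1 + Real.log (1 / κ)) * T ∧
    |VS (rc (Real.log T / lam) (2 * Real.pi * a / Real.log T)) (XK κ T) -
      2 / Real.pi ^ 2 * Real.log a| ≤ C * (1 + Real.log (1 / κ)) := by
  obtain ⟨lam, C1, T1, hlam, hC1, hT1, hA⟩ := apx B hB
  obtain ⟨C2, T2, hC2, hT2, hK⟩ := kap_sum hlam B hB
  obtain ⟨C3, hC3, hR⟩ := rest_sum
  have hpi := Real.pi_pos
  have hlam0 : 0 < lam := by linarith
  have hev : ∀ᶠ T : ℝ in atTop, 2 * Real.log T + 7 ≤ 1 * T / 2 := by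
    have h1 : (fun T : ℝ => 2 * Real.log T + 7) =o[atTop] fun T : ℝ => T :=
      (Real.isLittleO_log_id_atTop.const_mul_left 2).add (Asymptotics.isLittleO_const_id_atTop _)
    have h2 := h1.bound (c := 1 / 2) (by norm_num)
    filter_upwards [h2, eventually_ge_atTop 1] with T hT hT1
    rw [Real.norm_of_nonneg (by linarith : (0 : ℝ) ≤ T)] at hT
    have := (le_abs_self _).trans hT
    linarith
  obtain ⟨T3, hT3⟩ := (hev.and (Real.tendsto_log_atTop.eventually_ge_atTop
    (Real.exp B))).exists_forall_of_atTop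
  refine ⟨lam, 2 * C1 + 2 * C3 + C2 + 9, max (max T1 T2) T3, hlam, by linarith,
    hT1.trans ((le_max_left _ _).trans (le_max_left _ _)), fun T hT a ha haL κ hκ hκ8 hκT => ?_⟩
  have hTT1 : T1 ≤ T := ((le_max_left _ _).trans (le_max_left _ _)).trans hT
  have hTT2 : T2 ≤ T := ((le_max_right _ _).trans (le_max_left _ _)).trans hT
  obtain ⟨g4, g5⟩ := hT3 T ((le_max_right _ _).trans hT)
  have hT10 : 10 ≤ T := hT1.trans hTT1
  have hT1' : 1 ≤ T := by linarith
  have hT0 : 0 < T := by linarith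
  obtain ⟨U1, U2, hU1, hU1', hU2', hU2, hint⟩ := hA T hTT1 a ha haL
  have hkap := hK T hTT2 a ha haL
  have ha0 : 0 < a := by linarith
  set L := Real.log T with hL
  have hL0 : 0 < L := Real.log_pos (by linarith)
  have haL' : a ≤ L := range_le (by linarith) (by linarith) g5 haL
  set l := L / lam with hl
  have hl0 : 0 < l := by positivity
  set h := 2 * Real.pi * a / L with hh
  have hh0 : 0 < h := by positivity
  have hh7 : h ≤ 7 := by
    rw [hh, div_le_iff₀ hL0]
    nlinarith only [Real.pi_lt_d2, haL', hL0, ha0]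
  have hrest := hR κ T hκ hκ8 hT1' hκT l h hl0
  have hAB : T + L ≤ 2 * T - L - 7 := by linarith only [g4, hT0]
  have hL1 : 1 ≤ L := by
    have := Real.add_one_le_exp B
    linarith only [this, g5, hB]
  have hlogκ : 0 ≤ Real.log (1 / κ) := by
    apply Real.log_nonneg
    rw [le_div_iff₀ hκ]
    linarith
  -- the remaining part
  set Rt : ℝ → ℝ := fun t => (∑ n ∈ Finset.Icc 2 (XT T), (if n.Prime ∧ n ≤ XK κ T then 0 else kap l h n) *
        (n : ℂ) ^ (-(t : ℂ) * I)).re with hRt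
  have hRc : Continuous Rt := by
    simp only [hRt]
    refine Complex.continuous_re.comp (continuous_finsetSum _ fun n hn => ?_)
    have hn0 : (n : ℂ) ≠ 0 := by
      exact_mod_cast (by have := (Finset.mem_Icc.1 hn).1; omega : n ≠ 0)
    exact continuous_const.mul (Continuous.const_cpow (by fun_prop) (Or.inl hn0))
  have hsum : ∑ n ∈ Finset.Icc 2 (XT T), ‖(if n.Prime ∧ n ≤ XK κ T then 0 else kap l h n : ℂ)‖ ^ 2 =
      ∑ n ∈ (Finset.Icc 2 (XT T)).filter (fun n => ¬ (n.Prime ∧ n ≤ XK κ T)), ‖kap l h n‖ ^ 2 := by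
    rw [Finset.sum_filter]
    refine Finset.sum_congr rfl fun n _ => ?_
    by_cases hc : n.Prime ∧ n ≤ XK κ T
    · rw [if_pos hc, if_neg (not_not.2 hc)]; simp
    · rw [if_neg hc, if_pos hc]
  have hR2 : ∫ t in (T + L)..(2 * T - L - 7), Rt t ^ 2 ≤ (C3 + Real.log (1 / κ) + 4) * T := by
    have h1 := dpm (XT T) (fun n => if n.Prime ∧ n ≤ XK κ T then 0 else kap l h n) (T + L)
      (2 * T - L - 7) hAB
    have h2 := (abs_le.1 h1).2
    rw [hsum] at h2
    have h3 : (2 * T - L - 7 - (T + L)) / 2 *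
        ∑ n ∈ (Finset.Icc 2 (XT T)).filter (fun n => ¬ (n.Prime ∧ n ≤ XK κ T)), ‖kap l h n‖ ^ 2 ≤
        T * (C3 + Real.log (1 / κ)) := by
      apply mul_le_mul _ hrest (Finset.sum_nonneg fun _ _ => sq_nonneg _) hT0.le
      linarith
    have h4 : ∑ n ∈ Finset.Icc 2 (XT T), ‖(if n.Prime ∧ n ≤ XK κ T then 0 else kap l h n : ℂ)‖ ≤ XT T := by
      calc _ ≤ ∑ n ∈ Finset.Icc 2 (XT T), (1 : ℝ) := by
            refine Finset.sum_le_sum fun n hn => ?_
            split_ifs
            · simp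
            · exact kap_le hl0 h n (Finset.mem_Icc.1 hn).1
        _ ≤ _ := by
            rw [Finset.sum_const, nsmul_eq_mul, mul_one, Nat.card_Icc]
            exact_mod_cast (by omega : XT T + 1 - 2 ≤ XT T)
    have h5 : (XT T : ℝ) ≤ T ^ (1 / 8 : ℝ) := Nat.floor_le (by positivity)
    have h6 : 4 * (XT T : ℝ) * (∑ n ∈ Finset.Icc 2 (XT T),
        ‖(if n.Prime ∧ n ≤ XK κ T then 0 else kap l h n : ℂ)‖) ^ 2 ≤ 4 * T := by
      have a1 : (0 : ℝ) ≤ XT T := Nat.cast_nonneg _
      have a2 : 0 ≤ ∑ n ∈ Finset.Icc 2 (XT T),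
        ‖(if n.Prime ∧ n ≤ XK κ T then 0 else kap l h n : ℂ)‖ := Finset.sum_nonneg fun _ _ => norm_nonneg _
      calc _ ≤ 4 * T ^ (1 / 8 : ℝ) * (T ^ (1 / 8 : ℝ)) ^ 2 := by
            gcongr
            exact h4.trans h5
        _ = 4 * T ^ (3 / 8 : ℝ) := by
            rw [← Real.rpow_natCast (T ^ (1 / 8 : ℝ)) 2, ← Real.rpow_mul hT0.le, mul_assoc,
              ← Real.rpow_add hT0]
            norm_num
        _ ≤ 4 * T ^ (1 : ℝ) := by
            apply mul_le_mul_of_nonneg_left _ (by norm_num)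
            exact Real.rpow_le_rpow_of_exponent_le hT1' (by norm_num)
        _ = 4 * T := by rw [Real.rpow_one]
    have h7 : ∫ t in (T + L)..(2 * T - L - 7), Rt t ^ 2 =
        ∫ t in (T + L)..(2 * T - L - 7), ((∑ n ∈ Finset.Icc 2 (XT T),
          (fun n => if n.Prime ∧ n ≤ XK κ T then 0 else kap l h n) n * (n : ℂ) ^ (-(t : ℂ) * I)).re) ^ 2 := rfl
    rw [h7]
    linarith
  -- the identity
  set Q : ℝ → ℝ := fun t => NS (Zf riemannZeta U1 U2) h t - a + Db l h (XT T) t with hQ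
  have hQm : Measurable Q := by
    simp only [hQ]
    exact ((NS_meas _ _).sub_const _).add (Db_cont l h (XT T)).measurable
  have hQi : IntervalIntegrable (fun t => Q t ^ 2) volume (T + L) (2 * T - L - 7) := by
    have hDc := Db_cont l h (XT T)
    have hN : IntervalIntegrable (fun t => (NS (Zf riemannZeta U1 U2) h t - a) ^ 2) volume
      (T + L) (2 * T - L - 7) := sq_int _ _ _ _ _
    have hN1 : IntervalIntegrable (fun t => NS (Zf riemannZeta U1 U2) h t - a) volume
      (T + L) (2 * T - L - 7) := by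
      refine bdd_int ((NS_meas _ _).sub_const a) (M := (∑ s ∈ Zf riemannZeta U1 U2, mS s) + |a|)
        (fun t => ?_) _ _
      have b1 := NS_nonneg (Zf riemannZeta U1 U2) h t
      have b2 := NS_le (Zf riemannZeta U1 U2) h t
      have b3 := abs_nonneg a
      rw [abs_le]
      constructor <;> linarith [le_abs_self a, neg_abs_le a]
    have e : (fun t => Q t ^ 2) = fun t => ((NS (Zf riemannZeta U1 U2) h t - a) ^ 2 +
        (NS (Zf riemannZeta U1 U2) h t - a) * (2 * Db l h (XT T) t)) + Db l h (XT T) t ^ 2 := by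
      funext t; simp only [hQ]; ring
    rw [e]
    exact (hN.add (hN1.mul_continuousOn (by fun_prop))).add
      (Continuous.intervalIntegrable (by fun_prop) _ _)
  have her : ∀ t ∈ Set.Icc (T + L) (2 * T - L - 7), er lam κ T a t = Q t - Rt t := by
    intro t ht
    have b1 : ((NZ (t + h) : ℝ) - NZ t) = NS (Zf riemannZeta U1 U2) h t := by
      rw [← Pool.Agent.Y743.LR.cnt_NZ (by linarith [ht.1]) hh0.le]
      exact cnt_eq (by linarith) (by linarith [ht.1]) (by linarith [ht.2])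
    unfold er
    rw [← hL, ← hh, b1, ← hl]
    simp only [hQ, hRt]
    rw [Db_G κ T l h hκ8 hT1' t]
    ring
  have hRi : IntervalIntegrable (fun t => Rt t ^ 2) volume (T + L) (2 * T - L - 7) :=
    Continuous.intervalIntegrable (by fun_prop) _ _
  have heq : EqOn (fun t => er lam κ T a t ^ 2) (fun t => (Q t - Rt t) ^ 2)
      (uIcc (T + L) (2 * T - L - 7)) := by
    intro t ht
    rw [uIcc_of_le hAB] at ht
    simp only
    rw [her t ht]
  have hi0 : IntervalIntegrable (fun t => (Q t - Rt t) ^ 2) volume (T + L) (2 * T - L - 7) := by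
    have hQ1 : IntervalIntegrable Q volume (T + L) (2 * T - L - 7) := by
      refine (hQi.add (continuous_const (y := (1 : ℝ)).intervalIntegrable _ _)).mono_fun'
        hQm.aestronglyMeasurable (Eventually.of_forall fun t => ?_)
      show ‖Q t‖ ≤ Q t ^ 2 + 1
      rw [Real.norm_eq_abs]
      nlinarith [sq_abs (Q t), sq_nonneg (|Q t| - 1)]
    have e : (fun t => (Q t - Rt t) ^ 2) = fun t => (Q t ^ 2 + Q t * (-2 * Rt t)) + Rt t ^ 2 := by
      funext t; ring
    rw [e]
    exact (hQi.add (hQ1.mul_continuousOn (by fun_prop))).add hRi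
  have hi : IntervalIntegrable (fun t => er lam κ T a t ^ 2) volume (T + L) (2 * T - L - 7) :=
    hi0.congr fun t ht => (heq (uIoc_subset_uIcc ht)).symm
  refine ⟨hi, ?_, ?_⟩
  · rw [intervalIntegral.integral_congr heq]
    have h1 : ∫ t in (T + L)..(2 * T - L - 7), (Q t - Rt t) ^ 2 ≤
        ∫ t in (T + L)..(2 * T - L - 7), (2 * Q t ^ 2 + 2 * Rt t ^ 2) := by
      refine intervalIntegral.integral_mono_on hAB hi0 ((hQi.const_mul 2).add (hRi.const_mul 2))
        fun x _ => ?_
      nlinarith only [sq_nonneg (Q x + Rt x)]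
    refine h1.trans ?_
    rw [intervalIntegral.integral_add (hQi.const_mul 2) (hRi.const_mul 2),
      intervalIntegral.integral_const_mul, intervalIntegral.integral_const_mul]
    have h2 : ∫ t in (T + L)..(2 * T - L - 7), Q t ^ 2 ≤ C1 * T := hint
    have h3 : 2 * (C1 * T) + 2 * ((C3 + Real.log (1 / κ) + 4) * T) ≤
        (2 * C1 + 2 * C3 + C2 + 9) * (1 + Real.log (1 / κ)) * T := by
      have : 2 * C1 + 2 * (C3 + Real.log (1 / κ) + 4) ≤
        (2 * C1 + 2 * C3 + C2 + 9) * (1 + Real.log (1 / κ)) := by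
        nlinarith [mul_nonneg hC3 hlogκ, mul_nonneg hC1.le hlogκ, mul_nonneg hC2.le hlogκ]
      nlinarith
    linarith
  · have h1 := VS_eq κ T l h hκ8 hT1'
    have h2 : 0 ≤ ∑ n ∈ (Finset.Icc 2 (XT T)).filter (fun n => ¬ (n.Prime ∧ n ≤ XK κ T)),
      ‖kap l h n‖ ^ 2 := Finset.sum_nonneg fun _ _ => sq_nonneg _
    have h3 := abs_le.1 hkap
    have h4 : C2 + (C3 + Real.log (1 / κ)) ≤ (2 * C1 + 2 * C3 + C2 + 9) * (1 + Real.log (1 / κ)) := by
      nlinarith [mul_nonneg hC3 hlogκ, mul_nonneg hC1.le hlogκ, mul_nonneg hC2.le hlogκ]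
    rw [abs_le]
    constructor <;> linarith [h3.1, h3.2]

end Pool.Agent.Y743.CL
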