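import Pool.Agent.Y743.CL.Mc
import Pool.Agent.Y41.SW.FM
import Pool.Agent.Y586.SW.GM
import Pool.Agent.Y840.SW.MVB

/-! # The central limit theorem for prime polynomials -/

set_option autoImplicit false

namespace Pool.Agent.Y743.CL

open Filter Topology MeasureTheory Complex
open Pool.Agent.Y41.SW (DP DP_extend supp_pow DP_pow)

noncomputable section

/-- the prime polynomial -/
def G (c : ℕ → ℝ) (X : ℕ) (t : ℝ) : ℂ := DP (pr c X) X t

lemma pr_supp (c : ℕ → ℝ) (X : ℕ) : ∀ n : ℕ, X < n → pr c X n = 0 := by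
  intro n hn
  rw [pr_apply, if_neg]
  rintro ⟨_, h⟩
  omega

lemma G_pow (c : ℕ → ℝ) (X : ℕ) (t : ℝ) (k N : ℕ) (hN : X ^ k ≤ N) :
    G c X t ^ k = DP ⇑(pr c X ^ k) N t := by
  unfold G
  rw [DP_pow _ _ (pr_supp c X)]
  exact DP_extend _ _ _ hN (supp_pow _ _ (pr_supp c X) k) t

lemma DP_cont (f : ℕ → ℝ) (X : ℕ) : Continuous (DP f X) := by
  unfold DP
  refine continuous_finsetSum _ fun n hn => ?_
  have hn0 : (n : ℂ) ≠ 0 := by
    exact_mod_cast (by have := (Finset.mem_Icc.1 hn).1; omega : n ≠ 0)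
  exact continuous_const.mul (Continuous.const_cpow (by fun_prop) (Or.inl hn0))

lemma G_cont (c : ℕ → ℝ) (X : ℕ) : Continuous (G c X) := DP_cont _ _

/-- the moments at one height -/
lemma mom_bd (c : ℕ → ℝ) (X : ℕ) (hX : 1 ≤ X) (T A B : ℝ) (hT : 1 ≤ T) (hAB : A ≤ B) (k l : ℕ)
    (hXT : ((X ^ (k + l) : ℕ) : ℝ) ≤ Real.sqrt T) :
    ‖(∫ t in A..B, G c X t ^ k * (starRingEnd ℂ) (G c X t) ^ l) -
      ((B - A : ℝ) : ℂ) * (if k = l then (SS c X k : ℂ) else 0)‖ ≤
      8 * (Real.sqrt T * (1 + Real.log T)) *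
        (Real.sqrt (k.factorial * VS c X ^ k) * Real.sqrt (l.factorial * VS c X ^ l)) := by
  set N : ℕ := X ^ (k + l) with hNdef
  have hN1 : 1 ≤ N := Nat.one_le_pow _ _ hX
  have hkN : X ^ k ≤ N := Nat.pow_le_pow_right hX (by omega)
  have hlN : X ^ l ≤ N := Nat.pow_le_pow_right hX (by omega)
  have hint : ∀ t : ℝ, G c X t ^ k * (starRingEnd ℂ) (G c X t) ^ l =
      (∑ n ∈ Finset.Icc 1 N, (((pr c X ^ k) n : ℝ) : ℂ) * (n : ℂ) ^ (-(t : ℂ) * I)) *
      (starRingEnd ℂ) (∑ n ∈ Finset.Icc 1 N, (((pr c X ^ l) n : ℝ) : ℂ) * (n : ℂ) ^ (-(t : ℂ) * I)) := by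
    intro t
    rw [← map_pow, G_pow c X t k N hkN, G_pow c X t l N hlN]
    rfl
  have hMV := Pool.Agent.Y840.SW.t_MVB N A B hAB
    (fun n => (((pr c X ^ k) n : ℝ) : ℂ)) (fun n => (((pr c X ^ l) n : ℝ) : ℂ))
  simp only [← hint] at hMV
  have hA : (∑ n ∈ Finset.Icc 1 N, (((pr c X ^ k) n : ℝ) : ℂ) *
      (starRingEnd ℂ) (((pr c X ^ l) n : ℝ) : ℂ)) = (if k = l then (SS c X k : ℂ) else 0) := by
    split_ifs with h
    · subst h
      rw [← SS_eq k N hkN]
      push_cast
      refine Finset.sum_congr rfl fun n _ => ?_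
      rw [Complex.conj_ofReal, sq]
    · refine Finset.sum_eq_zero fun n _ => ?_
      rw [Complex.conj_ofReal, ← Complex.ofReal_mul, pr_orth h n, Complex.ofReal_zero]
  rw [hA] at hMV
  have hS : ∀ i : ℕ, X ^ i ≤ N → (∑ n ∈ Finset.Icc 1 N, ‖(((pr c X ^ i) n : ℝ) : ℂ)‖ ^ 2) ≤
      i.factorial * VS c X ^ i := by
    intro i hi
    refine le_trans (le_of_eq ?_) (SS_le c X i)
    rw [← SS_eq i N hi]
    refine Finset.sum_congr rfl fun n _ => ?_
    rw [Complex.norm_real, Real.norm_eq_abs, sq_abs]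
  refine hMV.trans ?_
  have hlogN : Real.log N ≤ Real.log T := by
    apply Real.log_le_log (by exact_mod_cast hN1)
    refine hXT.trans ?_
    rw [Real.sqrt_le_left (by linarith)]
    nlinarith
  have hlogN0 : 0 ≤ Real.log N := Real.log_natCast_nonneg N
  have hlogT0 : 0 ≤ Real.log T := Real.log_nonneg hT
  have hNb : (N:ℝ) * (1 + Real.log N) ≤ Real.sqrt T * (1 + Real.log T) := by
    apply mul_le_mul hXT (by linarith) (by linarith) (Real.sqrt_nonneg _)
  have h1 := Real.sqrt_le_sqrt (hS k hkN)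
  have h2 := Real.sqrt_le_sqrt (hS l hlN)
  have h3 := mul_le_mul h1 h2 (Real.sqrt_nonneg _) (Real.sqrt_nonneg _)
  have h4 : 8 * (N : ℝ) * (1 + Real.log N) ≤ 8 * (Real.sqrt T * (1 + Real.log T)) := by
    have e : 8 * (N : ℝ) * (1 + Real.log N) = 8 * (N * (1 + Real.log N)) := by ring
    rw [e]
    linarith
  exact mul_le_mul h4 h3 (by positivity) (by positivity)

/-- the moments along a sequence -/
theorem mom_lim (T A B : ℕ → ℝ) (X : ℕ → ℕ) (c : ℕ → ℕ → ℝ) {M : ℝ} (hM : ∀ j p, c j p ^ 2 ≤ M)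
    (hT : Tendsto T atTop atTop) (hAB : ∀ j, A j ≤ B j)
    (hlen : Tendsto (fun j => (B j - A j) / T j) atTop (𝓝 1)) (hX1 : ∀ j, 1 ≤ X j)
    (hX : ∀ m : ℕ, ∀ᶠ j in atTop, ((X j ^ m : ℕ) : ℝ) ≤ Real.sqrt (T j))
    (hV : Tendsto (fun j => VS (c j) (X j)) atTop atTop) (k l : ℕ) :
    Tendsto (fun j => (((1 / T j) * (1 / Real.sqrt (VS (c j) (X j)) ^ (k + l)) : ℝ) : ℂ) *
      ∫ t in (A j)..(B j), G (c j) (X j) t ^ k * (starRingEnd ℂ) (G (c j) (X j) t) ^ l) atTop
      (𝓝 (if k = l then (k.factorial : ℂ) else 0)) := by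
  -- the main term
  have hmain : Tendsto (fun j => (((1 / T j) * (1 / Real.sqrt (VS (c j) (X j)) ^ (k + l)) : ℝ) : ℂ) *
      (((B j - A j : ℝ) : ℂ) * (if k = l then (SS (c j) (X j) k : ℂ) else 0))) atTop
      (𝓝 (if k = l then (k.factorial : ℂ) else 0)) := by
    by_cases h : k = l
    · subst h
      simp only [if_true]
      have h1 := (hlen.mul (SS_lim c X hM hV k))
      rw [one_mul] at h1
      have h2 := (Complex.continuous_ofReal.tendsto _).comp h1
      have e : ((k.factorial : ℝ) : ℂ) = (k.factorial : ℂ) := by push_cast; rfl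
      rw [e] at h2
      refine h2.congr' ?_
      filter_upwards [hV.eventually_gt_atTop 0, hT.eventually_gt_atTop 0] with j hj hTj
      simp only [Function.comp]
      have e1 : Real.sqrt (VS (c j) (X j)) ^ (k + k) = VS (c j) (X j) ^ k := by
        rw [← two_mul, pow_mul, Real.sq_sqrt hj.le]
      rw [e1]
      push_cast
      have e2 : ((VS (c j) (X j) : ℝ) : ℂ) ≠ 0 := by exact_mod_cast hj.ne'
      have e3 : ((T j : ℝ) : ℂ) ≠ 0 := by exact_mod_cast hTj.ne'
      field_simp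
    · simp only [if_neg h, mul_zero]
      exact tendsto_const_nhds
  have herr : Tendsto (fun j => (((1 / T j) * (1 / Real.sqrt (VS (c j) (X j)) ^ (k + l)) : ℝ) : ℂ) *
      (∫ t in (A j)..(B j), G (c j) (X j) t ^ k * (starRingEnd ℂ) (G (c j) (X j) t) ^ l) -
      (((1 / T j) * (1 / Real.sqrt (VS (c j) (X j)) ^ (k + l)) : ℝ) : ℂ) *
      (((B j - A j : ℝ) : ℂ) * (if k = l then (SS (c j) (X j) k : ℂ) else 0))) atTop (𝓝 0) := by
    have hb : Tendsto (fun j => 8 * (Real.sqrt k.factorial * Real.sqrt l.factorial) *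
        (Real.sqrt (T j) * (1 + Real.log (T j)) / T j)) atTop (𝓝 0) := by
      have := (Pool.Agent.Y41.SW.err_tendsto.comp hT).const_mul
        (8 * (Real.sqrt k.factorial * Real.sqrt l.factorial))
      rwa [mul_zero] at this
    refine squeeze_zero_norm' ?_ hb
    filter_upwards [hX (k + l), hV.eventually_gt_atTop 0, hT.eventually_ge_atTop 1] with j hXj hVj hTj
    have hT0 : 0 < T j := by linarith
    have h1 := mom_bd (c j) (X j) (hX1 j) (T j) (A j) (B j) hTj (hAB j) k l hXj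
    set V := VS (c j) (X j) with hVd
    have hs : 0 < Real.sqrt V := Real.sqrt_pos.2 hVj
    rw [← mul_sub, norm_mul, Complex.norm_real, Real.norm_eq_abs, abs_of_pos (by positivity)]
    refine (mul_le_mul_of_nonneg_left h1 (by positivity)).trans (le_of_eq ?_)
    have e1 : ∀ i : ℕ, Real.sqrt ((i.factorial : ℝ) * V ^ i) =
        Real.sqrt i.factorial * Real.sqrt V ^ i := by
      intro i
      rw [Real.sqrt_mul (by positivity)]
      congr 1
      rw [Real.sqrt_eq_iff_mul_self_eq (by positivity) (by positivity), ← pow_add, ← two_mul,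
        pow_mul, Real.sq_sqrt hVj.le]
    rw [e1, e1, pow_add]
    field_simp
  have := herr.add hmain
  rw [zero_add] at this
  refine this.congr fun j => ?_
  ring

/-- the central limit theorem for prime polynomials -/
theorem clt_poly (T A B : ℕ → ℝ) (X : ℕ → ℕ) (c : ℕ → ℕ → ℝ) {M : ℝ} (hM : ∀ j p, c j p ^ 2 ≤ M)
    (hT : Tendsto T atTop atTop) (hT0 : ∀ j, 0 < T j) (hAB : ∀ j, A j ≤ B j)
    (hlen : Tendsto (fun j => (B j - A j) / T j) atTop (𝓝 1)) (hX1 : ∀ j, 1 ≤ X j)
    (hX : ∀ m : ℕ, ∀ᶠ j in atTop, ((X j ^ m : ℕ) : ℝ) ≤ Real.sqrt (T j))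
    (hV : Tendsto (fun j => VS (c j) (X j)) atTop atTop) (a b : ℝ) (hab : a < b) :
    Tendsto (fun j => (volume.real {t ∈ Set.Ioc (A j) (B j) |
      a < Real.sqrt 2 * ((G (c j) (X j) t).re / Real.sqrt (VS (c j) (X j))) ∧
      Real.sqrt 2 * ((G (c j) (X j) t).re / Real.sqrt (VS (c j) (X j))) < b}) / T j) atTop
      (𝓝 ((ProbabilityTheory.gaussianReal 0 1).real (Set.Ioo a b))) := by
  set μ : ℕ → Measure ℝ := fun j => ENNReal.ofReal (1 / T j) • volume.restrict (Set.Ioc (A j) (B j)) with hμ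
  set f : ℕ → ℝ → ℂ := fun j t => G (c j) (X j) t / (Real.sqrt (VS (c j) (X j)) : ℂ) with hf
  have hfc : ∀ j, Continuous (f j) := fun j => by
    simp only [hf]
    exact (G_cont _ _).div_const _
  have hfin : ∀ j, IsFiniteMeasure (μ j) := fun j => by
    simp only [hμ]
    refine ⟨?_⟩
    rw [Measure.smul_apply, smul_eq_mul, Measure.restrict_apply_univ, Real.volume_Ioc]
    exact ENNReal.mul_lt_top ENNReal.ofReal_lt_top ENNReal.ofReal_lt_top
  have hint : ∀ (j : ℕ) (g : ℝ → ℂ), ∫ x, g x ∂(μ j) = ((1 / T j : ℝ) : ℂ) * ∫ t in (A j)..(B j), g t := by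
    intro j g
    simp only [hμ]
    rw [integral_smul_measure, ENNReal.toReal_ofReal (by have := hT0 j; positivity),
      intervalIntegral.integral_of_le (hAB j)]
    simp
  have h := Pool.Agent.Y586.SW.t_GM μ f 1 zero_le_one hfin (fun j => (hfc j).measurable)
    (fun j k => by
      have h1 : IntegrableOn (fun x => ‖f j x‖ ^ k) (Set.Ioc (A j) (B j)) volume :=
        (((hfc j).norm.pow k).integrableOn_Icc).mono_set Set.Ioc_subset_Icc_self
      simp only [hμ]
      exact h1.smul_measure ENNReal.ofReal_ne_top)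
    (fun k l => by
      have h1 := mom_lim T A B X c hM hT hAB hlen hX1 hX hV k l
      have e : (if k = l then (k.factorial : ℂ) * ((1 : ℝ) : ℂ) else 0) =
          (if k = l then (k.factorial : ℂ) else 0) := by simp
      rw [e]
      refine h1.congr fun j => ?_
      rw [hint]
      have e2 : ∀ t, f j t ^ k * (starRingEnd ℂ) (f j t) ^ l =
          ((1 / Real.sqrt (VS (c j) (X j)) ^ (k + l) : ℝ) : ℂ) *
          (G (c j) (X j) t ^ k * (starRingEnd ℂ) (G (c j) (X j) t) ^ l) := by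
        intro t
        simp only [hf]
        rw [map_div₀, Complex.conj_ofReal, div_pow, div_pow, pow_add]
        push_cast
        ring
      simp only [e2]
      rw [intervalIntegral.integral_const_mul]
      push_cast
      ring) a b hab
  rw [one_mul] at h
  refine h.congr fun j => ?_
  have e3 : ∀ x, (f j x).re = (G (c j) (X j) x).re / Real.sqrt (VS (c j) (X j)) := by
    intro x
    simp only [hf]
    rw [Complex.div_ofReal_re]
  simp only [e3]
  simp only [hμ]
  rw [Measure.real, Measure.smul_apply, smul_eq_mul, ENNReal.toReal_mul,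
    ENNReal.toReal_ofReal (by have := hT0 j; positivity)]
  rw [Measure.restrict_apply']
  · rw [Measure.real, one_div, div_eq_inv_mul]
    congr 3
    ext x
    simp only [Set.mem_inter_iff, Set.mem_setOf_eq, Set.mem_Ioc]
    tauto
  · exact measurableSet_Ioc

end

end Pool.Agent.Y743.CL
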