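import Mathlib
import Pool.Agent.Helper256.KM.Mertens

/-! # Sums over proper prime powers and over long ranges of primes -/

set_option autoImplicit false

namespace Pool.Agent.Y743.CL

open Filter Topology Finset

/-- the sum of the reciprocals of the proper prime powers -/
lemma pp_sum : ∃ C : ℝ, 0 ≤ C ∧ ∀ N : ℕ,
    ∑ n ∈ (Finset.Icc 2 N).filter (fun n => IsPrimePow n ∧ ¬ n.Prime), (1 : ℝ) / n ≤ C := by
  classical
  have hs : Summable (fun n : ℕ => 2 / (n : ℝ) ^ 2) := by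
    have := (Real.summable_one_div_nat_pow (p := 2)).2 (by norm_num)
    refine (this.mul_left 2).congr fun n => ?_
    ring
  refine ⟨∑' n : ℕ, 2 / (n : ℝ) ^ 2, tsum_nonneg fun n => by positivity, fun N => ?_⟩
  set A := (Finset.Icc 2 N).filter (fun n => IsPrimePow n ∧ ¬ n.Prime) with hA
  have hch : ∀ n ∈ A, ∃ x : ℕ × ℕ, x ∈ Finset.Icc 2 N ×ˢ Finset.Icc 2 N ∧ x.1 ^ x.2 = n := by
    intro n hn
    rw [hA, Finset.mem_filter, Finset.mem_Icc] at hn
    obtain ⟨⟨h1, h2⟩, h3, h4⟩ := hn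
    rw [isPrimePow_nat_iff] at h3
    obtain ⟨p, k, hp, hk, rfl⟩ := h3
    have hk2 : 2 ≤ k := by
      by_contra h
      have : k = 1 := by omega
      subst this
      rw [pow_one] at h4
      exact h4 hp
    refine ⟨(p, k), ?_, rfl⟩
    rw [Finset.mem_product, Finset.mem_Icc, Finset.mem_Icc]
    refine ⟨⟨hp.two_le, ?_⟩, hk2, ?_⟩
    · exact (Nat.le_self_pow (by omega) p).trans h2
    · exact (Nat.lt_pow_self hp.one_lt).le.trans h2
  choose! f hf using hch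
  have h1 : ∑ n ∈ A, (1 : ℝ) / n = ∑ x ∈ A.image f, (1 : ℝ) / ((x.1 : ℝ) ^ x.2) := by
    rw [Finset.sum_image]
    · refine Finset.sum_congr rfl fun n hn => ?_
      rw [← Nat.cast_pow, (hf n hn).2]
    · intro a ha b hb h
      rw [← (hf a ha).2, ← (hf b hb).2, h]
  rw [h1]
  have h2 : ∑ x ∈ A.image f, (1 : ℝ) / ((x.1 : ℝ) ^ x.2) ≤
      ∑ x ∈ Finset.Icc 2 N ×ˢ Finset.Icc 2 N, (1 : ℝ) / ((x.1 : ℝ) ^ x.2) := by
    refine Finset.sum_le_sum_of_subset_of_nonneg ?_ fun _ _ _ => by positivity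
    intro x hx
    rw [Finset.mem_image] at hx
    obtain ⟨n, hn, rfl⟩ := hx
    exact (hf n hn).1
  refine h2.trans ?_
  rw [Finset.sum_product]
  refine le_trans ?_ (hs.sum_le_tsum (Finset.Icc 2 N) fun n _ => by positivity)
  refine Finset.sum_le_sum fun p hp => ?_
  rw [Finset.mem_Icc] at hp
  have hp2 : (2 : ℝ) ≤ p := by exact_mod_cast hp.1
  have key : ∀ K : ℕ, 1 ≤ K → ∑ m ∈ Finset.Icc 2 K, (1 : ℝ) / (p : ℝ) ^ m ≤
      2 / (p : ℝ) ^ 2 - 1 / (p : ℝ) ^ K / 1 * (1 / 1) * 0 - 0 := by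
    intro K hK
    have hgen : ∀ K : ℕ, 1 ≤ K → ∑ m ∈ Finset.Icc 2 K, (1 : ℝ) / (p : ℝ) ^ m ≤
        2 / (p : ℝ) ^ 2 - 2 / (p : ℝ) ^ (K + 1) := by
      intro K hK
      induction K, hK using Nat.le_induction with
      | base => simp
      | succ K hK ih =>
        rw [Finset.sum_Icc_succ_top (by omega)]
        have h3 : 1 / (p : ℝ) ^ (K + 1) ≤ 2 / (p : ℝ) ^ (K + 1) - 2 / (p : ℝ) ^ (K + 1 + 1) := by
          have e : 2 / (p : ℝ) ^ (K + 1 + 1) = (2 / p) * (1 / (p : ℝ) ^ (K + 1)) := by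
            rw [pow_succ (p : ℝ) (K + 1)]
            field_simp
          have e2 : 2 / (p : ℝ) ≤ 1 := by rw [div_le_one (by linarith)]; exact hp2
          have e3 : 0 < 1 / (p : ℝ) ^ (K + 1) := by positivity
          have e4 : 2 / (p : ℝ) ^ (K + 1) = 2 * (1 / (p : ℝ) ^ (K + 1)) := by ring
          rw [e, e4]
          nlinarith
        linarith
    have := hgen K hK
    have h4 : 0 ≤ 2 / (p : ℝ) ^ (K + 1) := by positivity
    linarith
  have := key N (by omega)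
  simpa using this

/-- the reciprocals of the primes in a long range -/
lemma prime_range : ∃ C : ℝ, 0 ≤ C ∧ ∀ X N : ℕ, 3 ≤ X → X ≤ N →
    ∑ p ∈ (Finset.Ioc X N).filter Nat.Prime, (1 : ℝ) / p ≤
      Real.log (Real.log N) - Real.log (Real.log X) + C := by
  obtain ⟨C, hC⟩ := Pool.Agent.Helper256.KM.mertens_inv
  have hC0 : 0 ≤ C := (abs_nonneg _).trans (hC 3 le_rfl)
  refine ⟨2 * C, by positivity, fun X N hX hXN => ?_⟩
  have h1 := (abs_le.1 (hC X hX)).1
  have h2 := (abs_le.1 (hC N (hX.trans hXN))).2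
  have h3 : ∑ p ∈ (Finset.Icc 1 N).filter Nat.Prime, (1 : ℝ) / p =
      ∑ p ∈ (Finset.Icc 1 X).filter Nat.Prime, (1 : ℝ) / p +
      ∑ p ∈ (Finset.Ioc X N).filter Nat.Prime, (1 : ℝ) / p := by
    rw [← Finset.sum_union]
    · congr 1
      ext p
      simp only [Finset.mem_union, Finset.mem_filter, Finset.mem_Icc, Finset.mem_Ioc]
      constructor
      · rintro ⟨⟨a1, a2⟩, a3⟩
        rcases Nat.lt_or_ge X p with h | h
        · right; exact ⟨⟨h, a2⟩, a3⟩
        · left; exact ⟨⟨a1, h⟩, a3⟩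
      · rintro (⟨⟨a1, a2⟩, a3⟩ | ⟨⟨a1, a2⟩, a3⟩)
        · exact ⟨⟨a1, a2.trans hXN⟩, a3⟩
        · exact ⟨⟨by omega, a2⟩, a3⟩
    · rw [Finset.disjoint_left]
      intro p hp hp2
      simp only [Finset.mem_filter, Finset.mem_Icc, Finset.mem_Ioc] at hp hp2
      omega
  linarith

end Pool.Agent.Y743.CL
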