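import Pool.Agent.Y743.CL.Apx
import Pool.Agent.Y743.CL.Fm
import Pool.Agent.Y743.CL.Pp

/-! # Replacing the prime sum by a short prime polynomial with real coefficients -/

set_option autoImplicit false

namespace Pool.Agent.Y743.CL

open Complex Filter Topology MeasureTheory Set
open Pool.Agent.TH850.UV
open ArithmeticFunction (vonMangoldt)
open H370.A2 (lamC)
open Pool.Agent.Y41.SW (DP)

/-- the real coefficients -/
noncomputable def rc (l h : ℝ) (n : ℕ) : ℝ :=
  2 * (1 / Real.sqrt (2 * Real.pi)) * (vonMangoldt n * (Real.sqrt n)⁻¹ * ggo l n) *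
    (l / (2 * Real.pi) * (2 * Real.sin (h / 2 * Real.log n) / Real.log n))

lemma kap_rc (l h : ℝ) (n : ℕ) (hn : 2 ≤ n) (t : ℝ) :
    kap l h n * (n : ℂ) ^ (-(t : ℂ) * I) = (rc l h n : ℂ) * (n : ℂ) ^ (-((t + h / 2 : ℝ) : ℂ) * I) := by
  have hn0 : (n : ℂ) ≠ 0 := by exact_mod_cast (by omega : n ≠ 0)
  have hlog : Real.log n ≠ 0 := by
    apply (Real.log_pos _).ne'
    exact_mod_cast (by omega : 1 < n)
  have hlogC : (Real.log n : ℂ) ≠ 0 := by exact_mod_cast hlog
  rw [cpow_add n (by omega) t (h / 2)]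
  have e1 : (1 - (n : ℂ) ^ (-(h : ℂ) * I)) / (I * Real.log n) =
      (n : ℂ) ^ (-((h / 2 : ℝ) : ℂ) * I) *
        ((2 * Real.sin (h / 2 * Real.log n) / Real.log n : ℝ) : ℂ) := by
    have h1 : (n : ℂ) ^ (-(h : ℂ) * I) = cexp (-(((h / 2 * Real.log n : ℝ) : ℂ) * I)) *
        cexp (-(((h / 2 * Real.log n : ℝ) : ℂ) * I)) := by
      rw [Complex.cpow_def_of_ne_zero hn0, ← Complex.natCast_log, ← Complex.exp_add]
      congr 1
      push_cast
      ring
    have h2 : (n : ℂ) ^ (-((h / 2 : ℝ) : ℂ) * I) = cexp (-(((h / 2 * Real.log n : ℝ) : ℂ) * I)) := by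
      rw [Complex.cpow_def_of_ne_zero hn0, ← Complex.natCast_log]
      congr 1
      push_cast
      ring
    have h3 : (Real.sin (h / 2 * Real.log n) : ℂ) =
        (cexp (-(((h / 2 * Real.log n : ℝ) : ℂ) * I)) - cexp (((h / 2 * Real.log n : ℝ) : ℂ) * I)) * I / 2 := by
      rw [Complex.ofReal_sin, Complex.sin]
      congr 4
      ring
    have h4 : cexp (-(((h / 2 * Real.log n : ℝ) : ℂ) * I)) * cexp (((h / 2 * Real.log n : ℝ) : ℂ) * I) = 1 := by
      rw [← Complex.exp_add, neg_add_cancel, Complex.exp_zero]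
    rw [h1, h2]
    generalize cexp (-(((h / 2 * Real.log n : ℝ) : ℂ) * I)) = E at h3 h4 ⊢
    generalize cexp (((h / 2 * Real.log n : ℝ) : ℂ) * I) = E' at h3 h4 ⊢
    generalize Real.sin (h / 2 * Real.log n) = s at h3 ⊢
    generalize Real.log n = ℓ at hlogC ⊢
    rw [div_eq_iff (mul_ne_zero Complex.I_ne_zero hlogC)]
    have : E * ((2 * s / ℓ : ℝ) : ℂ) * (I * (ℓ : ℂ)) = E * (2 * (s : ℂ)) * I := by
      push_cast
      field_simp
    rw [this, h3]
    have e5 : E * (2 * ((E - E') * I / 2)) * I = E * (E - E') * (I * I) := by ring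
    rw [e5, Complex.I_mul_I]
    linear_combination -h4
  unfold kap rc
  rw [e1]
  unfold H370.A2.lamC
  push_cast
  ring

lemma rc_sq (l h : ℝ) (n : ℕ) (hn : 2 ≤ n) : rc l h n ^ 2 = ‖kap l h n‖ ^ 2 := by
  have h1 := congrArg norm (kap_rc l h n hn 0)
  rw [norm_mul, norm_mul, Complex.norm_real] at h1
  have h2 : ∀ s : ℝ, ‖(n : ℂ) ^ (-(s : ℂ) * I)‖ = 1 := by
    intro s
    have hn0 : (0 : ℝ) < n := by exact_mod_cast (by omega : 0 < n)
    have : ((n : ℕ) : ℂ) = ((n : ℝ) : ℂ) := by push_cast; rfl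
    rw [this, Complex.norm_cpow_eq_rpow_re_of_pos hn0]
    simp
  rw [h2, h2, mul_one, mul_one] at h1
  rw [h1, Real.norm_eq_abs, sq_abs]

lemma kap_bd {l : ℝ} (hl : 0 < l) (h : ℝ) (n : ℕ) (hn : 2 ≤ n) :
    ‖kap l h n‖ ^ 2 ≤ if IsPrimePow n then (1 : ℝ) / n else 0 := by
  have hpi := Real.pi_pos
  have hn0 : (0 : ℝ) < n := by exact_mod_cast (by omega : 0 < n)
  have h1 := kap_sq hl h n hn
  have h4 : (l * ggo l n) ^ 2 ≤ 2 * Real.pi := by
    have h5 := ggo_le hl n
    rw [le_div_iff₀ hl] at h5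
    have h6 : 0 ≤ l * ggo l n := mul_nonneg hl.le (ggo_nonneg l n)
    calc (l * ggo l n) ^ 2 ≤ Real.sqrt (2 * Real.pi) ^ 2 :=
          pow_le_pow_left₀ h6 (by linarith) 2
      _ = 2 * Real.pi := Real.sq_sqrt (by positivity)
  have hw0 := wn_nonneg h n
  have hw2 := wn_le2 h n hn
  rw [h1]
  change 1 / Real.pi ^ 3 * wn h n * (l * ggo l n) ^ 2 ≤ _
  split_ifs with hp
  · calc 1 / Real.pi ^ 3 * wn h n * (l * ggo l n) ^ 2 ≤ 1 / Real.pi ^ 3 * (2 / n) * (2 * Real.pi) := by
          gcongr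
      _ = (4 / Real.pi ^ 2) * (1 / n) := by field_simp; ring
      _ ≤ 1 * (1 / n) := by
          apply mul_le_mul_of_nonneg_right _ (by positivity)
          rw [div_le_one (by positivity)]
          nlinarith [Real.pi_gt_three]
      _ = _ := one_mul _
  · have : wn h n = 0 := by
      unfold wn
      rw [ArithmeticFunction.vonMangoldt_eq_zero_iff.2 hp]
      simp
    rw [this]
    simp

/-- the integer part of `T ^ κ` -/
noncomputable def XK (κ T : ℝ) : ℕ := ⌊T ^ κ⌋₊

/-- the remaining coefficients -/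
lemma rest_sum : ∃ C : ℝ, 0 ≤ C ∧ ∀ (κ T : ℝ), 0 < κ → κ ≤ 1 / 8 → 1 ≤ T → 8 ≤ κ * Real.log T →
    ∀ (l h : ℝ), 0 < l → ∑ n ∈ (Finset.Icc 2 (XT T)).filter (fun n => ¬ (n.Prime ∧ n ≤ XK κ T)),
      ‖kap l h n‖ ^ 2 ≤ C + Real.log (1 / κ) := by
  obtain ⟨C1, hC1, h1⟩ := pp_sum
  obtain ⟨C2, hC2, h2⟩ := prime_range
  refine ⟨C1 + C2, by positivity, fun κ T hκ hκ8 hT hκT l h hl => ?_⟩
  have hT0 : 0 < T := by linarith
  have hL0 : 0 < Real.log T := by
    by_contra hcon
    push Not at hcon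
    nlinarith
  have hXle : XK κ T ≤ XT T := by
    unfold XK XT
    exact Nat.floor_le_floor (Real.rpow_le_rpow_of_exponent_le hT hκ8)
  have hTk : Real.exp 8 ≤ T ^ κ := by
    rw [Real.rpow_def_of_pos hT0]
    apply Real.exp_le_exp.2
    linarith
  have he8 : (8 : ℝ) + 1 ≤ Real.exp 8 := Real.add_one_le_exp 8
  have hX3 : 3 ≤ XK κ T := by
    unfold XK
    apply Nat.le_floor
    push_cast
    linarith
  have hXr : T ^ κ / 2 ≤ (XK κ T : ℝ) := by
    have := Nat.lt_floor_add_one (T ^ κ)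
    unfold XK
    linarith
  have hXpos : (0 : ℝ) < XK κ T := by
    have : (3 : ℝ) ≤ XK κ T := by exact_mod_cast hX3
    linarith
  have hlogX : κ * Real.log T / 2 ≤ Real.log (XK κ T) := by
    have a1 : Real.log (T ^ κ / 2) ≤ Real.log (XK κ T) := Real.log_le_log (by positivity) hXr
    rw [Real.log_div (by positivity) (by norm_num), Real.log_rpow hT0] at a1
    have := Real.log_two_lt_d9
    linarith
  have hXTle : (XT T : ℝ) ≤ T ^ (1 / 8 : ℝ) := Nat.floor_le (by positivity)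
  have hXT3 : 3 ≤ XT T := hX3.trans hXle
  have hlogN : Real.log (XT T) ≤ 1 / 8 * Real.log T := by
    rw [← Real.log_rpow hT0]
    apply Real.log_le_log _ hXTle
    exact_mod_cast (by omega : 0 < XT T)
  have hlogNpos : 0 < Real.log (XT T) := Real.log_pos (by exact_mod_cast (by omega : 1 < XT T))
  have hr := h2 (XK κ T) (XT T) hX3 hXle
  have hll : Real.log (Real.log (XT T)) - Real.log (Real.log (XK κ T)) ≤ Real.log (1 / κ) := by
    have b1 : Real.log (Real.log (XT T)) ≤ Real.log (1 / 8 * Real.log T) :=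
      Real.log_le_log hlogNpos hlogN
    have b2 : Real.log (κ * Real.log T / 2) ≤ Real.log (Real.log (XK κ T)) :=
      Real.log_le_log (by positivity) hlogX
    have b3 : Real.log (1 / 8 * Real.log T) - Real.log (κ * Real.log T / 2) = Real.log (1 / 4 * (1 / κ)) := by
      rw [← Real.log_div (by positivity) (by positivity)]
      congr 1
      field_simp
      norm_num
    have b4 : Real.log (1 / 4 * (1 / κ)) ≤ Real.log (1 / κ) := by
      apply Real.log_le_log (by positivity)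
      have : 0 < 1 / κ := by positivity
      linarith
    linarith
  calc ∑ n ∈ (Finset.Icc 2 (XT T)).filter (fun n => ¬ (n.Prime ∧ n ≤ XK κ T)), ‖kap l h n‖ ^ 2
      ≤ ∑ n ∈ (Finset.Icc 2 (XT T)).filter (fun n => ¬ (n.Prime ∧ n ≤ XK κ T)),
        ((if IsPrimePow n ∧ ¬ n.Prime then (1 : ℝ) / n else 0) +
          (if XK κ T < n ∧ n.Prime then (1 : ℝ) / n else 0)) := by
        refine Finset.sum_le_sum fun n hn => ?_
        rw [Finset.mem_filter, Finset.mem_Icc] at hn
        refine (kap_bd hl h n hn.1.1).trans ?_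
        have hnn : (0 : ℝ) ≤ 1 / (n : ℝ) := by positivity
        by_cases hpp : IsPrimePow n
        · rw [if_pos hpp]
          by_cases hp : n.Prime
          · have : XK κ T < n := by
              by_contra hcon
              exact hn.2 ⟨hp, by omega⟩
            rw [if_neg (by tauto), if_pos ⟨this, hp⟩]
            linarith
          · rw [if_pos ⟨hpp, hp⟩]
            split_ifs <;> linarith
        · rw [if_neg hpp]
          split_ifs <;> linarith
    _ ≤ ∑ n ∈ Finset.Icc 2 (XT T),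
        ((if IsPrimePow n ∧ ¬ n.Prime then (1 : ℝ) / n else 0) +
          (if XK κ T < n ∧ n.Prime then (1 : ℝ) / n else 0)) := by
        refine Finset.sum_le_sum_of_subset_of_nonneg (Finset.filter_subset _ _) fun n _ _ => ?_
        split_ifs <;> positivity
    _ = ∑ n ∈ (Finset.Icc 2 (XT T)).filter (fun n => IsPrimePow n ∧ ¬ n.Prime), (1 : ℝ) / n +
        ∑ n ∈ (Finset.Icc 2 (XT T)).filter (fun n => XK κ T < n ∧ n.Prime), (1 : ℝ) / n := by
        rw [Finset.sum_add_distrib, Finset.sum_filter, Finset.sum_filter]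
    _ ≤ C1 + ∑ n ∈ (Finset.Ioc (XK κ T) (XT T)).filter Nat.Prime, (1 : ℝ) / n := by
        refine add_le_add (h1 _) (le_of_eq ?_)
        congr 1
        ext n
        simp only [Finset.mem_filter, Finset.mem_Icc, Finset.mem_Ioc]
        constructor
        · rintro ⟨⟨a1, a2⟩, a3, a4⟩; exact ⟨⟨a3, a2⟩, a4⟩
        · rintro ⟨⟨a1, a2⟩, a3⟩; exact ⟨⟨a3.two_le, a2⟩, a1, a3⟩
    _ ≤ _ := by linarith

/-- the size of the coefficients -/
lemma rc_bd {l : ℝ} (hl : 0 < l) (h : ℝ) (n : ℕ) : rc l h n ^ 2 ≤ 1 := by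
  rcases Nat.lt_or_ge n 2 with hn | hn
  · have : rc l h n = 0 := by
      unfold rc
      have h0 : vonMangoldt n = 0 := by
        rw [ArithmeticFunction.vonMangoldt_eq_zero_iff]
        intro h
        have := h.one_lt
        omega
      rw [h0]
      ring
    rw [this]
    norm_num
  · rw [rc_sq l h n hn]
    have := kap_le hl h n hn
    have h0 := norm_nonneg (kap l h n)
    nlinarith

/-- the variance of the short polynomial -/
lemma VS_eq (κ T l h : ℝ) (hκ8 : κ ≤ 1 / 8) (hT : 1 ≤ T) :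
    VS (rc l h) (XK κ T) + ∑ n ∈ (Finset.Icc 2 (XT T)).filter (fun n => ¬ (n.Prime ∧ n ≤ XK κ T)),
      ‖kap l h n‖ ^ 2 = ∑ n ∈ Finset.Icc 2 (XT T), ‖kap l h n‖ ^ 2 := by
  have hXle : XK κ T ≤ XT T := by
    unfold XK XT
    exact Nat.floor_le_floor (Real.rpow_le_rpow_of_exponent_le hT hκ8)
  rw [← Finset.sum_filter_add_sum_filter_not (Finset.Icc 2 (XT T)) (fun n => n.Prime ∧ n ≤ XK κ T)]
  congr 1
  unfold VS
  have e : Pr (XK κ T) = (Finset.Icc 2 (XT T)).filter (fun n => n.Prime ∧ n ≤ XK κ T) := by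
    ext n
    rw [mem_Pr, Finset.mem_filter, Finset.mem_Icc]
    constructor
    · rintro ⟨a1, a2⟩; exact ⟨⟨a1.two_le, a2.trans hXle⟩, a1, a2⟩
    · rintro ⟨_, a⟩; exact a
  rw [e]
  refine Finset.sum_congr rfl fun n hn => ?_
  rw [Finset.mem_filter, Finset.mem_Icc] at hn
  exact rc_sq l h n hn.1.1

/-- the difference of the prime sum and the short polynomial -/
lemma Db_G (κ T l h : ℝ) (hκ8 : κ ≤ 1 / 8) (hT : 1 ≤ T) (t : ℝ) :
    Db l h (XT T) t = (G (rc l h) (XK κ T) (t + h / 2)).re +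
      (∑ n ∈ Finset.Icc 2 (XT T), (if n.Prime ∧ n ≤ XK κ T then 0 else kap l h n) *
        (n : ℂ) ^ (-(t : ℂ) * I)).re := by
  have hXle : XK κ T ≤ XT T := by
    unfold XK XT
    exact Nat.floor_le_floor (Real.rpow_le_rpow_of_exponent_le hT hκ8)
  unfold Db
  rw [← Complex.add_re]
  congr 1
  have e1 : G (rc l h) (XK κ T) (t + h / 2) = ∑ n ∈ Finset.Icc 2 (XT T),
      (if n.Prime ∧ n ≤ XK κ T then kap l h n else 0) * (n : ℂ) ^ (-(t : ℂ) * I) := by
    unfold G DP
    have e2 : ∑ n ∈ Finset.Icc 1 (XK κ T), ((pr (rc l h) (XK κ T) n : ℝ) : ℂ) *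
        (n : ℂ) ^ (-((t + h / 2 : ℝ) : ℂ) * I) = ∑ n ∈ (Finset.Icc 2 (XT T)).filter
        (fun n => n.Prime ∧ n ≤ XK κ T), ((pr (rc l h) (XK κ T) n : ℝ) : ℂ) *
        (n : ℂ) ^ (-((t + h / 2 : ℝ) : ℂ) * I) := by
      symm
      refine Finset.sum_subset ?_ ?_
      · intro n hn
        rw [Finset.mem_filter] at hn
        rw [Finset.mem_Icc]
        exact ⟨hn.2.1.one_le, hn.2.2⟩
      · intro n hn hn2
        have : pr (rc l h) (XK κ T) n = 0 := by
          rw [pr_apply, if_neg]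
          intro hh
          apply hn2
          rw [Finset.mem_filter, Finset.mem_Icc]
          exact ⟨⟨hh.1.two_le, hh.2.trans hXle⟩, hh⟩
        rw [this]
        simp
    rw [e2, Finset.sum_filter]
    refine Finset.sum_congr rfl fun n hn => ?_
    rw [Finset.mem_Icc] at hn
    split_ifs with hh
    · rw [pr_apply, if_pos hh]
      exact (kap_rc l h n hn.1 t).symm
    · simp
  rw [e1, ← Finset.sum_add_distrib]
  refine Finset.sum_congr rfl fun n _ => ?_
  split_ifs <;> ring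

end Pool.Agent.Y743.CL
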