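import Pool.Agent.Y743.CL.Bk
import Pool.Agent.W200.HW

/-! # From the dyadic blocks to all zeros -/

set_option autoImplicit false

open Filter Topology MeasureTheory Set

namespace Pool.Agent.Y743.CL

open SG (ord NZ)

/-- many zeros in `(2 T, 4 T]` -/
lemma grow4 : ∃ A0 : ℝ, 10 ≤ A0 ∧ ∀ T : ℝ, A0 ≤ T → (NZ (2 * T) : ℝ) + 2 * T ≤ NZ (4 * T) := by
  obtain ⟨C, T0, hC, hT0, h⟩ := H370.nn_asymp H370.good_zeta
  have hpi3 := Real.pi_gt_three
  have hpi4 := Real.pi_lt_four
  obtain ⟨T2, hT2⟩ := (tendsto_atTop.mp Real.tendsto_log_atTop (8 * (C + 1))).exists_forall_of_atTop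
  refine ⟨max T0 T2, by linarith [le_max_left T0 T2], fun T hT => ?_⟩
  have ha1 : T0 ≤ T := (le_max_left _ _).trans hT
  have ha2 : T2 ≤ T := (le_max_right _ _).trans hT
  have hl := hT2 (2 * T) (by linarith)
  have h1 := (abs_le.mp (h (2 * T) (by linarith) (2 * T) (4 * T) le_rfl (by linarith) (by linarith)
    (by linarith))).1
  have hfin : (H370.zset riemannZeta (2 * T) (4 * T)).Finite :=
    H370.zset_finite H370.good_zeta (2 * T) (4 * T) (by linarith)
  have h3 : NZ (2 * T) + H370.NN riemannZeta (2 * T) (4 * T) ≤ NZ (4 * T) := by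
    have h4 := SG.NZ_add_le (2 * T) (4 * T) (by linarith) hfin.toFinset (by
      intro s hs
      rw [Set.Finite.mem_toFinset] at hs
      obtain ⟨s1, s2, s3, s4, s5⟩ := hs
      exact ⟨⟨s5, s1, s2, by linarith, s4⟩, s3⟩)
    have h5 : H370.NN riemannZeta (2 * T) (4 * T) = ∑ s ∈ hfin.toFinset, SG.zmult s := by
      unfold H370.NN
      rw [finsum_mem_eq_finite_toFinset_sum _ hfin]
      rfl
    rw [h5]
    exact h4
  have h3r : (NZ (2 * T) : ℝ) + (H370.NN riemannZeta (2 * T) (4 * T) : ℝ) ≤ NZ (4 * T) := by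
    exact_mod_cast h3
  have h6 : (C + 1) * (2 * T) ≤ 2 * T * Real.log (2 * T) / (2 * Real.pi) := by
    rw [le_div_iff₀ (by positivity)]
    have a1 : 2 * T * (8 * (C + 1)) ≤ 2 * T * Real.log (2 * T) :=
      mul_le_mul_of_nonneg_left hl (by linarith)
    have a2 : (C + 1) * (2 * T) * (2 * Real.pi) ≤ (C + 1) * (2 * T) * 8 :=
      mul_le_mul_of_nonneg_left (by linarith) (by nlinarith)
    linarith
  linarith

/-- the unfolding, lower bound -/
lemma unf_lo {u v : ℝ} (hu : 0 < u) (huv : u ≤ v) :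
    (v - u) * Real.log v ≤ v * Real.log v - u * Real.log u := by
  have : u * Real.log u ≤ u * Real.log v :=
    mul_le_mul_of_nonneg_left (Real.log_le_log hu huv) hu.le
  linarith

/-- the unfolding, upper bound -/
lemma unf_hi {u v : ℝ} (hu : 0 < u) (huv : u ≤ v) :
    v * Real.log v - u * Real.log u ≤ (v - u) * (Real.log v + 1) := by
  have h1 : Real.log v - Real.log u = Real.log (v / u) := (Real.log_div (by linarith) hu.ne').symm
  have h2 : Real.log (v / u) ≤ v / u - 1 :=
    Real.log_le_sub_one_of_pos (div_pos (by linarith) hu)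
  have h3 : u * (Real.log v - Real.log u) ≤ u * (v / u - 1) := by
    rw [h1]; exact mul_le_mul_of_nonneg_left h2 hu.le
  have h4 : u * (v / u - 1) = v - u := by field_simp
  linarith

/-- the event: the unfolded distance to the `r`-th neighbour is at most `r + x lm r` -/
def Ev (x : ℝ) (r n : ℕ) : Prop :=
  ord (n + r) * Real.log (ord (n + r)) / (2 * Real.pi) - ord n * Real.log (ord n) / (2 * Real.pi) ≤
    r + x * lm r

noncomputable instance (x : ℝ) (r : ℕ) : DecidablePred (Ev x r) := fun _ => Classical.dec _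

lemma as7 : ∀ᶠ r : ℕ in atTop, (12 : ℝ) ≤ Real.log r := log_nat.eventually_ge_atTop 12

theorem bU (x ε : ℝ) (hε : 0 < ε) : ∀ᶠ r : ℕ in atTop, ∀ T : ℝ, 1 ≤ T →
    r * Real.log r ≤ 2 * Real.log T →
    (((Finset.Ioc (NZ T) (NZ (2 * T))).filter (fun n => Ev x r n)).card : ℝ) ≤
      T * Real.log T / (2 * Real.pi) * (Ph x + ε) := by
  have hpi := Real.pi_pos
  filter_upwards [blockU 2 (by norm_num) x ε hε, bigT 2 (by norm_num) 10,
    (as6 x 0).eventually_ge_atTop 0] with r h1 h2 h3 T hT hrT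
  have hT10 := h2 T hT hrT
  refine le_trans ?_ (h1 T hT hrT)
  have hsub : (Finset.Ioc (NZ T) (NZ (2 * T))).filter (fun n => Ev x r n) ⊆
      (Finset.Ioc (NZ T) (NZ (2 * T))).filter
      (fun n => ord (n + r) ≤ ord n + (r + x * lm r) * (2 * Real.pi / Real.log T)) := by
    intro n hn
    rw [Finset.mem_filter] at hn ⊢
    refine ⟨hn.1, ?_⟩
    obtain ⟨hn1, hn2⟩ := hn
    rw [Finset.mem_Ioc] at hn1
    have hn0 : 1 ≤ n := by omega
    have hu : T < ord n := by
      by_contra hcon
      push Not at hcon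
      have := (SG.ord_le_iff hn0 _).mp hcon
      omega
    have huv : ord n ≤ ord (n + r) := SG.ord_mono hn0 (by omega)
    have h4 := unf_lo (by linarith) huv
    have hLT : 0 < Real.log T := Real.log_pos (by linarith)
    have h5 : Real.log T ≤ Real.log (ord (n + r)) := Real.log_le_log (by linarith) (by linarith)
    have h6 : (ord (n + r) - ord n) * Real.log T ≤ (ord (n + r) - ord n) * Real.log (ord (n + r)) :=
      mul_le_mul_of_nonneg_left h5 (by linarith)
    unfold Ev at hn2
    rw [← sub_div, div_le_iff₀ (by positivity)] at hn2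
    have h7 : ord (n + r) - ord n ≤ (r + x * lm r) * (2 * Real.pi / Real.log T) := by
      rw [← mul_div_assoc, le_div_iff₀ hLT]
      linarith
    linarith
  exact_mod_cast Finset.card_le_card hsub

theorem bL (x ε : ℝ) (hε : 0 < ε) : ∀ᶠ r : ℕ in atTop, ∀ T : ℝ, 1 ≤ T →
    r * Real.log r ≤ 2 * Real.log T →
    (((Finset.Ioc (NZ T) (NZ (2 * T))).filter (fun n => ¬ Ev x r n)).card : ℝ) ≤
      T * Real.log T / (2 * Real.pi) * (1 - Ph x + ε) := by
  have hpi := Real.pi_pos
  obtain ⟨A0, hA0, hgrow⟩ := grow4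
  filter_upwards [blockL 2 (by norm_num) x ε hε, bigT 2 (by norm_num) A0,
    (as6 x 0).eventually_ge_atTop 0, as7,
    (as1 x 0).eventually_le_const (show (0 : ℝ) < 1 by norm_num)] with r h1 h2 h3 h4 h5 T hT hrT
  have hTA := h2 T hT hrT
  refine le_trans ?_ (h1 T hT hrT)
  have hr0 : (0 : ℝ) < r := by
    rcases Nat.eq_zero_or_pos r with h | h
    · rw [h] at h4; simp at h4; linarith
    · exact_mod_cast h
  rw [add_zero] at h3 h5
  rw [div_le_iff₀ hr0, one_mul] at h5
  obtain ⟨a, ha⟩ : ∃ a : ℝ, a = r + x * lm r := ⟨_, rfl⟩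
  obtain ⟨L, hL⟩ : ∃ L : ℝ, L = Real.log T := ⟨_, rfl⟩
  have ha0 : 0 ≤ a := by rw [ha]; exact h3
  have ha2 : a ≤ 2 * r := by rw [ha]; linarith
  rw [← hL] at hrT
  have h6 : (r : ℝ) * 12 ≤ r * Real.log r := mul_le_mul_of_nonneg_left h4 hr0.le
  have h7 : 3 * a ≤ L := by linarith
  have hL0 : 0 < L := by linarith
  have hLT : L ≤ T := by
    rw [hL]
    have := Real.log_le_sub_one_of_pos (show 0 < T by linarith)
    linarith
  have hrT2 : (r : ℝ) ≤ 2 * T := by linarith
  have hsub : (Finset.Ioc (NZ T) (NZ (2 * T))).filter (fun n => ¬ Ev x r n) ⊆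
      (Finset.Ioc (NZ T) (NZ (2 * T))).filter
      (fun n => ord n + (r + x * lm r - 1) * (2 * Real.pi / Real.log T) < ord (n + r)) := by
    intro n hn
    rw [Finset.mem_filter] at hn ⊢
    refine ⟨hn.1, ?_⟩
    obtain ⟨hn1, hn2⟩ := hn
    rw [Finset.mem_Ioc] at hn1
    have hn0 : 1 ≤ n := by omega
    have hu : T < ord n := by
      by_contra hcon
      push Not at hcon
      have := (SG.ord_le_iff hn0 _).mp hcon
      omega
    have huv : ord n ≤ ord (n + r) := SG.ord_mono hn0 (by omega)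
    have h8 := unf_hi (by linarith) huv
    have h9 : n + r ≤ NZ (4 * T) := by
      have g1 := hgrow T hTA
      have g2 : (n : ℝ) ≤ NZ (2 * T) := by exact_mod_cast hn1.2
      have g3 : ((n + r : ℕ) : ℝ) ≤ NZ (4 * T) := by push_cast; linarith
      exact_mod_cast g3
    have h10 : ord (n + r) ≤ 4 * T := (SG.ord_le_iff (by omega) _).mpr h9
    have h11 : Real.log (ord (n + r)) ≤ L + 2 := by
      have g1 : Real.log (ord (n + r)) ≤ Real.log (4 * T) := Real.log_le_log (by linarith) h10
      have g2 : Real.log (4 * T) = 2 * Real.log 2 + L := by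
        rw [Real.log_mul (by norm_num) (by linarith), ← hL,
          show (4 : ℝ) = 2 ^ 2 by norm_num, Real.log_pow]
        norm_num
      have g3 := Real.log_two_lt_d9
      linarith
    have h12 : (ord (n + r) - ord n) * (Real.log (ord (n + r)) + 1) ≤ (ord (n + r) - ord n) * (L + 3) :=
      mul_le_mul_of_nonneg_left (by linarith) (by linarith)
    unfold Ev at hn2
    rw [← sub_div, not_le, lt_div_iff₀ (by positivity), ← ha] at hn2
    rw [← hL, ← ha]
    have h13 : a * (2 * Real.pi) < (ord (n + r) - ord n) * (L + 3) := by linarith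
    by_contra hcon
    push Not at hcon
    have h14 : ord (n + r) - ord n ≤ (a - 1) * (2 * Real.pi / L) := by linarith
    have h15 : (ord (n + r) - ord n) * (L + 3) ≤ (a - 1) * (2 * Real.pi / L) * (L + 3) :=
      mul_le_mul_of_nonneg_right h14 (by linarith)
    have h16 : (a - 1) * (2 * Real.pi / L) * (L + 3) = (2 * Real.pi) * ((a - 1) * (L + 3) / L) := by
      ring
    have h17 : (a - 1) * (L + 3) / L ≤ a := by
      rw [div_le_iff₀ hL0]
      nlinarith
    have h18 : (2 * Real.pi) * ((a - 1) * (L + 3) / L) ≤ (2 * Real.pi) * a :=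
      mul_le_mul_of_nonneg_left h17 (by positivity)
    linarith
  exact_mod_cast Finset.card_le_card hsub

end Pool.Agent.Y743.CL
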