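import Pool.Agent.Y743.CL.Fa

/-! # From the dyadic blocks to all zeros, continued -/

set_option autoImplicit false

open Filter Topology MeasureTheory Set

namespace Pool.Agent.Y743.CL

open SG (ord NZ)

/-- dyadic induction -/
lemma dy (P : ℕ → Prop) [DecidablePred P] {q H : ℝ} (I : ℕ) (hH : 1 ≤ H)
    (hb : ∀ i < I, (((Finset.Ioc (NZ (H / 2 ^ (i + 1))) (NZ (H / 2 ^ i))).filter P).card : ℝ) ≤
      (H / 2 ^ (i + 1)) * Real.log H / (2 * Real.pi) * q) :
    (((Finset.Ioc 0 (NZ H)).filter P).card : ℝ) ≤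
      NZ (H / 2 ^ I) + (1 - 1 / 2 ^ I) * (H * Real.log H / (2 * Real.pi) * q) := by
  have key : ∀ k ≤ I, (((Finset.Ioc 0 (NZ H)).filter P).card : ℝ) ≤
      (((Finset.Ioc 0 (NZ (H / 2 ^ k))).filter P).card : ℝ) +
        (1 - 1 / 2 ^ k) * (H * Real.log H / (2 * Real.pi) * q) := by
    intro k
    induction k with
    | zero => intro _; simp
    | succ k ih =>
      intro hk
      have h1 := ih (by omega)
      have h2 := hb k (by omega)
      have h3 : NZ (H / 2 ^ (k + 1)) ≤ NZ (H / 2 ^ k) := by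
        apply SG.NZ_mono
        apply div_le_div_of_nonneg_left (by linarith) (by positivity)
        exact pow_le_pow_right₀ (by norm_num) (by omega)
      have h4 : (Finset.Ioc 0 (NZ (H / 2 ^ k))).filter P ⊆
          (Finset.Ioc 0 (NZ (H / 2 ^ (k + 1)))).filter P ∪
            (Finset.Ioc (NZ (H / 2 ^ (k + 1))) (NZ (H / 2 ^ k))).filter P := by
        intro n hn
        rw [Finset.mem_union, Finset.mem_filter, Finset.mem_filter, Finset.mem_Ioc, Finset.mem_Ioc]
        rw [Finset.mem_filter, Finset.mem_Ioc] at hn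
        by_cases h5 : n ≤ NZ (H / 2 ^ (k + 1))
        · exact Or.inl ⟨⟨hn.1.1, h5⟩, hn.2⟩
        · exact Or.inr ⟨⟨by omega, hn.1.2⟩, hn.2⟩
      have h5 := (Finset.card_le_card h4).trans (Finset.card_union_le _ _)
      have h6 : (((Finset.Ioc 0 (NZ (H / 2 ^ k))).filter P).card : ℝ) ≤
          (((Finset.Ioc 0 (NZ (H / 2 ^ (k + 1)))).filter P).card : ℝ) +
            (((Finset.Ioc (NZ (H / 2 ^ (k + 1))) (NZ (H / 2 ^ k))).filter P).card : ℝ) := by
        exact_mod_cast h5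
      have h7 : (1 - 1 / 2 ^ k) * (H * Real.log H / (2 * Real.pi) * q) +
          (H / 2 ^ (k + 1)) * Real.log H / (2 * Real.pi) * q =
          (1 - 1 / 2 ^ (k + 1)) * (H * Real.log H / (2 * Real.pi) * q) := by
        rw [pow_succ]
        field_simp
        ring
      linarith
  have h1 := key I le_rfl
  have h2 : ((Finset.Ioc 0 (NZ (H / 2 ^ I))).filter P).card ≤ NZ (H / 2 ^ I) := by
    refine (Finset.card_filter_le _ _).trans ?_
    rw [Nat.card_Ioc]
    omega
  have h3 : (((Finset.Ioc 0 (NZ (H / 2 ^ I))).filter P).card : ℝ) ≤ NZ (H / 2 ^ I) := by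
    exact_mod_cast h2
  linarith

/-- constants -/
lemma consts {p ε : ℝ} (hp0 : 0 ≤ p) (hp1 : p ≤ 1) (hε : 0 < ε) : ∃ η : ℝ, 0 < η ∧ η < 1 ∧
    p + 2 * η ≤ (p + ε) * (1 - η) ^ 3 := by
  refine ⟨ε / (8 * (1 + ε)), by positivity, ?_, ?_⟩
  · rw [div_lt_one (by positivity)]; linarith
  · set η : ℝ := ε / (8 * (1 + ε)) with hη
    have h1 : 8 * η * (1 + ε) = ε := by rw [hη]; field_simp
    have h0 : 0 < η := by rw [hη]; positivity
    have h2 : 1 - 3 * η ≤ (1 - η) ^ 3 := by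
      have hη1 : η < 1 := by
        rw [hη, div_lt_one (by positivity)]; linarith
      nlinarith [mul_pos h0 h0]
    have h3 : (p + ε) * (1 - 3 * η) ≤ (p + ε) * (1 - η) ^ 3 :=
      mul_le_mul_of_nonneg_left h2 (by linarith)
    have h4 : 0 ≤ η * ε := by positivity
    have h5 : η * p ≤ η * 1 := mul_le_mul_of_nonneg_left hp1 h0.le
    nlinarith

/-- the heights -/
lemma heights (η : ℝ) (hη0 : 0 < η) (hη1 : η < 1) (I : ℕ) : ∃ H0 : ℝ, 10 ≤ H0 ∧ ∀ H : ℝ, H0 ≤ H →
    (1 - η) ^ 3 * (H * Real.log H / (2 * Real.pi)) ≤ NZ ((1 - η) * H) ∧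
    Real.log (NZ H) ≤ 2 * Real.log (H / 2 ^ I) ∧ 2 ^ I ≤ H := by
  have hpi := Real.pi_pos
  obtain ⟨T0, hT0⟩ := W200.HW.NZ_lower η hη0
  obtain ⟨C, T1, hC, hT1, hup⟩ := SP.PosProp.NZ_up
  have hlog := Real.tendsto_log_atTop
  have ho : Tendsto (fun x : ℝ => Real.log x / x) atTop (𝓝 0) :=
    Real.isLittleO_log_id_atTop.tendsto_div_nhds_zero
  have hc4 : (0 : ℝ) < 1 / (C * 4 ^ I + 1) := by positivity
  obtain ⟨H1, hH1⟩ := (((hlog.eventually_ge_atTop (-Real.log (1 - η) / η)).and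
    (ho.eventually_le_const hc4)).and
    ((eventually_ge_atTop (T0 / (1 - η))).and (eventually_ge_atTop (2 * T1 + 2 ^ I)))).exists_forall_of_atTop
  refine ⟨max 10 H1, le_max_left _ _, fun H hH => ?_⟩
  obtain ⟨⟨g1, g2⟩, g3, g4⟩ := hH1 H ((le_max_right _ _).trans hH)
  have hH10 : 10 ≤ H := (le_max_left _ _).trans hH
  have hH0 : 0 < H := by linarith
  have hη2 : 0 < 1 - η := by linarith
  have hI : (0 : ℝ) < 2 ^ I := by positivity
  have hI1 : (1 : ℝ) ≤ 2 ^ I := one_le_pow₀ (by norm_num)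
  have hL0 : 0 < Real.log H := Real.log_pos (by linarith)
  refine ⟨?_, ?_, by linarith⟩
  · rw [div_le_iff₀ hη2] at g3
    have h1 := hT0 ((1 - η) * H) (by linarith)
    rw [div_le_iff₀ hη0] at g1
    have h2 : (1 - η) * Real.log H ≤ Real.log ((1 - η) * H) := by
      rw [Real.log_mul hη2.ne' hH0.ne']
      linarith
    have h3 : (1 - η) * ((1 - η) * H / (2 * Real.pi) * ((1 - η) * Real.log H)) ≤
        (1 - η) * ((1 - η) * H / (2 * Real.pi) * Real.log ((1 - η) * H)) := by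
      apply mul_le_mul_of_nonneg_left _ hη2.le
      exact mul_le_mul_of_nonneg_left h2 (by positivity)
    refine le_trans (le_of_eq ?_) (h3.trans h1)
    field_simp
  · have h1 := hup (H / 2) (by linarith)
    have e1 : 2 * (H / 2) = H := by ring
    rw [e1] at h1
    have h2 : Real.log (H / 2) ≤ Real.log H := Real.log_le_log (by linarith) (by linarith)
    have h3 : (NZ H : ℝ) ≤ C * (H / 2 * Real.log H) :=
      h1.trans (mul_le_mul_of_nonneg_left (mul_le_mul_of_nonneg_left h2 (by linarith)) hC.le)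
    rw [div_le_iff₀ hH0, one_div_mul_eq_div, le_div_iff₀ (by positivity)] at g2
    have h4 : (NZ H : ℝ) ≤ (H / 2 ^ I) ^ 2 := by
      rw [div_pow, ← pow_mul, mul_comm I 2, pow_mul, show (2 : ℝ) ^ 2 = 4 by norm_num,
        le_div_iff₀ (by positivity)]
      have h5 : (NZ H : ℝ) * 4 ^ I ≤ C * (H / 2 * Real.log H) * 4 ^ I :=
        mul_le_mul_of_nonneg_right h3 (by positivity)
      have h6 : H * (Real.log H * (C * 4 ^ I + 1)) ≤ H * H := mul_le_mul_of_nonneg_left g2 hH0.le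
      have h7 : 0 ≤ H * Real.log H := by positivity
      have h8 : 0 ≤ C * (H / 2 * Real.log H) * 4 ^ I := by positivity
      nlinarith
    rcases Nat.eq_zero_or_pos (NZ H) with h5 | h5
    · rw [h5]
      simp only [Nat.cast_zero, Real.log_zero]
      have : 0 ≤ Real.log (H / 2 ^ I) := Real.log_nonneg (by
        rw [le_div_iff₀ hI]; linarith)
      linarith
    · have h6 : (0 : ℝ) < NZ H := by exact_mod_cast h5
      have h7 := Real.log_le_log h6 h4
      rw [Real.log_pow] at h7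
      exact_mod_cast h7

theorem glob (P : ℕ → ℕ → Prop) [∀ r, DecidablePred (P r)] (p : ℝ) (hp0 : 0 ≤ p) (hp1 : p ≤ 1)
    (h : ∀ ε : ℝ, 0 < ε → ∀ᶠ r : ℕ in atTop, ∀ T : ℝ, 1 ≤ T → r * Real.log r ≤ 2 * Real.log T →
      (((Finset.Ioc (NZ T) (NZ (2 * T))).filter (P r)).card : ℝ) ≤
        T * Real.log T / (2 * Real.pi) * (p + ε)) (ε : ℝ) (hε : 0 < ε) :
    ∀ᶠ r : ℕ in atTop, ∀ N : ℕ, r * Real.log r ≤ Real.log N →
      (((Finset.Icc 1 N).filter (P r)).card : ℝ) ≤ (p + ε) * N := by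
  have hpi := Real.pi_pos
  obtain ⟨η, hη0, hη1, hη⟩ := consts hp0 hp1 hε
  obtain ⟨C, T1, hC, hT1, hup⟩ := SP.PosProp.NZ_up
  obtain ⟨I, hI⟩ := exists_pow_lt_of_lt_one (show 0 < η / (C * (2 * Real.pi)) by positivity)
    (by norm_num : (1 / 2 : ℝ) < 1)
  obtain ⟨H0, hH0, hH⟩ := heights η hη0 hη1 (I + 1)
  obtain ⟨H2, hH2⟩ : ∃ H2 : ℝ, H2 = max H0 (T1 * 2 ^ (I + 1)) := ⟨_, rfl⟩
  have hN0 : ∀ᶠ N : ℕ in atTop, H2 ≤ ord N := SG.ord_tendsto.eventually_ge_atTop H2
  obtain ⟨N0, hN0⟩ := hN0.exists_forall_of_atTop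
  filter_upwards [h η hη0, (log_nat).eventually_ge_atTop (Real.log (N0 + 2)),
    eventually_ge_atTop 1] with r h1 h2 h3 N hN
  have hr1 : (1 : ℝ) ≤ r := by exact_mod_cast h3
  have hN1 : 1 ≤ N := by
    by_contra hcon
    have : N = 0 := by omega
    rw [this, Nat.cast_zero, Real.log_zero] at hN
    have h5 : 0 < Real.log (N0 + 2 : ℝ) := Real.log_pos (by
      have : (0 : ℝ) ≤ N0 := Nat.cast_nonneg _
      linarith)
    nlinarith
  have hNr : (0 : ℝ) < N := by exact_mod_cast hN1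
  have hNN0 : N0 ≤ N := by
    have h4 : 0 ≤ Real.log r := Real.log_nonneg hr1
    have h5 : Real.log (N0 + 2 : ℝ) ≤ Real.log N := by nlinarith
    have h6 := (Real.log_le_log_iff (by positivity) hNr).mp h5
    have h7 : (N0 : ℝ) ≤ N := by linarith
    exact_mod_cast h7
  have hHN := hN0 N hNN0
  obtain ⟨H, hHdef⟩ : ∃ H : ℝ, H = ord N := ⟨_, rfl⟩
  rw [← hHdef, hH2] at hHN
  have hHH0 : H0 ≤ H := (le_max_left _ _).trans hHN
  have hHT1 : T1 * 2 ^ (I + 1) ≤ H := (le_max_right _ _).trans hHN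
  obtain ⟨a1, a2, a3⟩ := hH H hHH0
  have hH10 : 10 ≤ H := hH0.trans hHH0
  have hHpos : 0 < H := by linarith
  have hLpos : 0 < Real.log H := Real.log_pos (by linarith)
  have hNZ : N ≤ NZ H := by rw [hHdef]; exact SG.le_NZ_ord hN1
  have hlogN : Real.log N ≤ 2 * Real.log (H / 2 ^ (I + 1)) := by
    have : (N : ℝ) ≤ NZ H := by exact_mod_cast hNZ
    exact (Real.log_le_log hNr this).trans a2
  obtain ⟨X, hX⟩ : ∃ X : ℝ, X = H * Real.log H / (2 * Real.pi) := ⟨_, rfl⟩
  have hX0 : 0 < X := by rw [hX]; positivity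
  -- the blocks
  have hdy := dy (P r) (q := p + η) (H := H) (I + 1) (by linarith) (by
    intro i hi
    have b0 : (0 : ℝ) < 2 ^ (i + 1) := by positivity
    have b1 : (1 : ℝ) ≤ H / 2 ^ (i + 1) := by
      rw [le_div_iff₀ b0, one_mul]
      refine le_trans ?_ a3
      exact pow_le_pow_right₀ (by norm_num) (by omega)
    have b2 : H / 2 ^ (I + 1) ≤ H / 2 ^ (i + 1) := by
      apply div_le_div_of_nonneg_left hHpos.le b0
      exact pow_le_pow_right₀ (by norm_num) (by omega)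
    have b3 : 0 < H / 2 ^ (I + 1) := by positivity
    have b4 : Real.log (H / 2 ^ (I + 1)) ≤ Real.log (H / 2 ^ (i + 1)) := Real.log_le_log b3 b2
    have b5 := h1 (H / 2 ^ (i + 1)) b1 (by linarith)
    have b6 : 2 * (H / 2 ^ (i + 1)) = H / 2 ^ i := by rw [pow_succ]; field_simp
    rw [b6] at b5
    refine b5.trans ?_
    apply mul_le_mul_of_nonneg_right _ (by linarith)
    apply div_le_div_of_nonneg_right _ (by positivity)
    apply mul_le_mul_of_nonneg_left _ (by linarith)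
    apply Real.log_le_log (by linarith)
    exact div_le_self hHpos.le (one_le_pow₀ (by norm_num)))
  -- the small zeros
  have hsm : (NZ (H / 2 ^ (I + 1)) : ℝ) ≤ η * X := by
    have c1 : 0 < H / 2 ^ (I + 1) := by positivity
    have c2 : (NZ (H / 2 ^ (I + 1)) : ℝ) ≤ NZ (2 * (H / 2 ^ (I + 1))) :=
      Nat.cast_le.mpr (SG.NZ_mono (by linarith))
    have c3 := hup (H / 2 ^ (I + 1)) (by rw [le_div_iff₀ (by positivity)]; exact hHT1)
    have c4 : Real.log (H / 2 ^ (I + 1)) ≤ Real.log H :=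
      Real.log_le_log (by positivity) (div_le_self hHpos.le (one_le_pow₀ (by norm_num)))
    have c5 : C * (H / 2 ^ (I + 1) * Real.log (H / 2 ^ (I + 1))) ≤ C * (H / 2 ^ (I + 1) * Real.log H) :=
      mul_le_mul_of_nonneg_left (mul_le_mul_of_nonneg_left c4 (by positivity)) hC.le
    have c6 : C * (H / 2 ^ (I + 1) * Real.log H) = (C * (2 * Real.pi)) * (1 / 2) ^ (I + 1) * X := by
      rw [hX, one_div, inv_pow]
      field_simp
    have c7 : (C * (2 * Real.pi)) * (1 / 2) ^ (I + 1) ≤ η := by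
      have d1 : (1 / 2 : ℝ) ^ (I + 1) ≤ (1 / 2) ^ I :=
        pow_le_pow_of_le_one (by norm_num) (by norm_num) (by omega)
      have d2 : (1 / 2 : ℝ) ^ (I + 1) ≤ η / (C * (2 * Real.pi)) := d1.trans hI.le
      rw [le_div_iff₀ (by positivity)] at d2
      linarith
    have c8 : (C * (2 * Real.pi)) * (1 / 2) ^ (I + 1) * X ≤ η * X :=
      mul_le_mul_of_nonneg_right c7 hX0.le
    linarith
  have htot : (((Finset.Icc 1 N).filter (P r)).card : ℝ) ≤ (p + 2 * η) * X := by
    have hsub : (Finset.Icc 1 N).filter (P r) ⊆ (Finset.Ioc 0 (NZ H)).filter (P r) := by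
      apply Finset.filter_subset_filter
      intro n hn
      rw [Finset.mem_Icc] at hn
      rw [Finset.mem_Ioc]
      exact ⟨by omega, hn.2.trans hNZ⟩
    have h4 : (((Finset.Icc 1 N).filter (P r)).card : ℝ) ≤
        (((Finset.Ioc 0 (NZ H)).filter (P r)).card : ℝ) := by
      exact_mod_cast Finset.card_le_card hsub
    rw [← hX] at hdy
    have h5 : (1 - 1 / 2 ^ (I + 1)) * (X * (p + η)) ≤ 1 * (X * (p + η)) := by
      apply mul_le_mul_of_nonneg_right
      · have : (0 : ℝ) < 1 / 2 ^ (I + 1) := by positivity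
        linarith
      · have : 0 ≤ p + η := by linarith
        positivity
    linarith
  have hlow : (1 - η) ^ 3 * X ≤ N := by
    rw [hX]
    refine a1.trans ?_
    have h4 : NZ ((1 - η) * H) ≤ N := by
      by_contra hcon
      push Not at hcon
      have h5 := (SG.ord_le_iff hN1 _).mpr hcon.le
      rw [← hHdef] at h5
      nlinarith
    exact_mod_cast h4
  calc (((Finset.Icc 1 N).filter (P r)).card : ℝ) ≤ (p + 2 * η) * X := htot
    _ ≤ (p + ε) * (1 - η) ^ 3 * X := mul_le_mul_of_nonneg_right hη hX0.le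
    _ = (p + ε) * ((1 - η) ^ 3 * X) := by ring
    _ ≤ (p + ε) * N := mul_le_mul_of_nonneg_left hlow (by linarith)

end Pool.Agent.Y743.CL
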