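import Pool.Agent.Y743.CL.Fb

/-! # The central limit theorem for the `r`-th neighbour spacings -/

set_option autoImplicit false

open Filter Topology MeasureTheory Set

namespace Pool.Agent.Y743.CL

open SG (ord NZ)

/-- the proportion of the first `N` zeros with `r`-th neighbour spacing at most `r + x lm r` -/
noncomputable def Fr (N r : ℕ) (x : ℝ) : ℝ := (((Finset.Icc 1 N).filter (Ev x r)).card : ℝ) / N

lemma Ev_mono {x y : ℝ} (h : x ≤ y) {r n : ℕ} (hx : Ev x r n) : Ev y r n := by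
  unfold Ev at *
  have := mul_le_mul_of_nonneg_right h (lm_nonneg r)
  linarith

lemma Fr_mono (N r : ℕ) {x y : ℝ} (h : x ≤ y) : Fr N r x ≤ Fr N r y := by
  unfold Fr
  apply div_le_div_of_nonneg_right _ (Nat.cast_nonneg _)
  have : (Finset.Icc 1 N).filter (Ev x r) ⊆ (Finset.Icc 1 N).filter (Ev y r) := by
    intro n hn
    rw [Finset.mem_filter] at hn ⊢
    exact ⟨hn.1, Ev_mono h hn.2⟩
  exact_mod_cast Finset.card_le_card this

lemma Fr_nonneg (N r : ℕ) (x : ℝ) : 0 ≤ Fr N r x := by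
  unfold Fr; positivity

lemma Fr_le_one (N r : ℕ) (x : ℝ) : Fr N r x ≤ 1 := by
  unfold Fr
  apply div_le_one_of_le₀ _ (Nat.cast_nonneg _)
  have := Finset.card_filter_le (Finset.Icc 1 N) (Ev x r)
  rw [Nat.card_Icc, Nat.add_sub_cancel] at this
  exact_mod_cast this

/-- the central limit theorem at a point -/
theorem point (x ε : ℝ) (hε : 0 < ε) : ∀ᶠ r : ℕ in atTop, ∀ N : ℕ, r * Real.log r ≤ Real.log N →
    |Fr N r x - Ph x| ≤ ε := by
  have h0 := Ph_nonneg x
  have h1 := Ph_le_one x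
  have hU := glob (fun r n => Ev x r n) (Ph x) h0 h1 (fun ε' hε' => bU x ε' hε') ε hε
  have hL := glob (fun r n => ¬ Ev x r n) (1 - Ph x) (by linarith) (by linarith)
    (fun ε' hε' => bL x ε' hε') ε hε
  filter_upwards [hU, hL, as7] with r hU hL hr N hN
  have hN1 : 1 ≤ N := by
    by_contra hcon
    have : N = 0 := by omega
    rw [this, Nat.cast_zero, Real.log_zero] at hN
    have hr0 : (0 : ℝ) < r := by
      rcases Nat.eq_zero_or_pos r with h | h
      · rw [h] at hr; simp at hr; linarith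
      · exact_mod_cast h
    nlinarith
  have hNr : (0 : ℝ) < N := by exact_mod_cast hN1
  have h2 := hU N hN
  have h3 := hL N hN
  have h4 := Finset.card_filter_add_card_filter_not (s := Finset.Icc 1 N) (Ev x r)
  rw [Nat.card_Icc, Nat.add_sub_cancel] at h4
  have h5 : (((Finset.Icc 1 N).filter (Ev x r)).card : ℝ) +
      (((Finset.Icc 1 N).filter (fun n => ¬ Ev x r n)).card : ℝ) = N := by exact_mod_cast h4
  rw [abs_le]
  unfold Fr
  constructor
  · rw [neg_le_sub_iff_le_add, ← sub_le_iff_le_add, le_div_iff₀ hNr]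
    linarith
  · rw [sub_le_iff_le_add, div_le_iff₀ hNr]
    linarith

/-- **central limit theorem**, uniformly in `x` -/
theorem clt (ε : ℝ) (hε : 0 < ε) : ∃ R : ℕ, ∀ r : ℕ, R ≤ r → ∀ N : ℕ, r * Real.log r ≤ Real.log N →
    ∀ x : ℝ, |Fr N r x - Ph x| ≤ ε := by
  obtain ⟨δ, hδd⟩ : ∃ δ : ℝ, δ = ε / 2 := ⟨_, rfl⟩
  have hδ : 0 < δ := by rw [hδd]; positivity
  obtain ⟨K1, hK1⟩ := gs_bot hδ
  obtain ⟨K2, hK2⟩ := gs_top hδ
  obtain ⟨K, hK⟩ : ∃ K : ℝ, K = max (max K1 K2) 1 := ⟨_, rfl⟩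
  have hKK1 : K1 ≤ K := by rw [hK]; exact (le_max_left _ _).trans (le_max_left _ _)
  have hKK2 : K2 ≤ K := by rw [hK]; exact (le_max_right _ _).trans (le_max_left _ _)
  have hK0 : 1 ≤ K := by rw [hK]; exact le_max_right _ _
  have hbot : Ph (-K) ≤ δ := hK1 K hKK1
  have htop : 1 - Ph K ≤ δ := by
    rw [← gs_compl]
    exact (measureReal_mono Ioi_subset_Ici_self).trans (hK2 K hKK2)
  obtain ⟨M, hM⟩ := exists_nat_ge (2 * K / δ)
  rw [div_le_iff₀ hδ] at hM
  have hev : ∀ᶠ r : ℕ in atTop, ∀ i ∈ Finset.range (M + 2), ∀ N : ℕ, r * Real.log r ≤ Real.log N →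
      |Fr N r (-K + i * δ) - Ph (-K + i * δ)| ≤ δ :=
    (Finset.eventually_all _).mpr (fun i _ => point _ δ hδ)
  obtain ⟨R, hR⟩ := hev.exists_forall_of_atTop
  refine ⟨R, fun r hr N hN x => ?_⟩
  have hg := fun i hi => hR r hr i hi N hN
  have h0 := Ph_nonneg x
  have h1 := Ph_le_one x
  rcases lt_or_ge x (-K) with hx | hx
  · have h2 := hg 0 (by simp)
    rw [Nat.cast_zero, zero_mul, add_zero] at h2
    have h3 := Fr_mono N r hx.le
    have h4 := Ph_mono hx.le
    have h5 := Fr_nonneg N r x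
    rw [abs_le] at h2 ⊢
    constructor <;> linarith
  · obtain ⟨i, hi⟩ : ∃ i : ℕ, i = ⌊(x + K) / δ⌋₊ := ⟨_, rfl⟩
    have hi1 : (i : ℝ) * δ ≤ x + K := by
      rw [← le_div_iff₀ hδ, hi]
      exact Nat.floor_le (div_nonneg (by linarith) hδ.le)
    have hi2 : x + K ≤ ((i + 1 : ℕ) : ℝ) * δ := by
      rw [← div_le_iff₀ hδ, hi]
      push_cast
      exact (Nat.lt_floor_add_one _).le
    rcases lt_or_ge i (M + 1) with him | him
    · have h2 := hg i (by rw [Finset.mem_range]; omega)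
      have h3 := hg (i + 1) (by rw [Finset.mem_range]; omega)
      have h4 : -K + i * δ ≤ x := by linarith
      have h5 : x ≤ -K + ((i + 1 : ℕ) : ℝ) * δ := by linarith
      have h6 := Fr_mono N r h4
      have h7 := Fr_mono N r h5
      have h8 := Ph_lip h4
      have h9 := Ph_lip h5
      push_cast at hi2 h3 h5 h7 h9
      have h10 := Ph_mono h4
      have h11 := Ph_mono h5
      have h12 : -K + ((i : ℝ) + 1) * δ - x ≤ δ := by linarith
      have h13 : x - (-K + i * δ) ≤ δ := by linarith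
      rw [abs_le] at h2 h3 ⊢
      constructor <;> linarith [h2.1, h2.2, h3.1, h3.2]
    · have h2 := hg M (by rw [Finset.mem_range]; omega)
      have h3 : ((M : ℝ)) * δ ≤ i * δ := by
        have : (M : ℝ) ≤ i := by exact_mod_cast (by omega : M ≤ i)
        exact mul_le_mul_of_nonneg_right this hδ.le
      have h4 : -K + M * δ ≤ x := by linarith
      have h5 : K ≤ -K + M * δ := by linarith
      have h6 := Fr_mono N r h4
      have h7 := Ph_mono h5
      have h8 := Fr_le_one N r x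
      have h9 := Ph_mono h4
      rw [abs_le] at h2 ⊢
      constructor <;> linarith [h2.1, h2.2]

end Pool.Agent.Y743.CL
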