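import Mathlib

/-! # Mean squares of the powers of a prime polynomial with real coefficients -/

set_option autoImplicit false

namespace Pool.Agent.Y743.CL

open Filter Topology Finset

/-! ### derivations from additive functions -/

/-- the product of an arithmetic function with a weight -/
noncomputable def Dw (w : ℕ → ℝ) (f : ArithmeticFunction ℝ) : ArithmeticFunction ℝ :=
  ⟨fun n => w n * f n, by simp⟩

lemma Dw_apply (w : ℕ → ℝ) (f : ArithmeticFunction ℝ) (n : ℕ) : Dw w f n = w n * f n := rfl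

lemma nsmul_app (c : ℕ) (f : ArithmeticFunction ℝ) (n : ℕ) : (c • f) n = (c : ℝ) * f n := by
  induction c with
  | zero => simp
  | succ c ih =>
    rw [succ_nsmul, ArithmeticFunction.add_apply, ih]
    push_cast
    ring

lemma Dw_mul {w : ℕ → ℝ} (hw : ∀ a b : ℕ, a ≠ 0 → b ≠ 0 → w (a * b) = w a + w b)
    (f g : ArithmeticFunction ℝ) : Dw w (f * g) = Dw w f * g + f * Dw w g := by
  ext n
  rw [ArithmeticFunction.add_apply, Dw_apply, ArithmeticFunction.mul_apply,
    ArithmeticFunction.mul_apply, ArithmeticFunction.mul_apply, Finset.mul_sum,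
    ← Finset.sum_add_distrib]
  refine Finset.sum_congr rfl fun x hx => ?_
  rw [Nat.mem_divisorsAntidiagonal] at hx
  have h1 : x.1 ≠ 0 := by
    rintro h; apply hx.2; rw [← hx.1, h, zero_mul]
  have h2 : x.2 ≠ 0 := by
    rintro h; apply hx.2; rw [← hx.1, h, mul_zero]
  rw [← hx.1, hw _ _ h1 h2, Dw_apply, Dw_apply]
  ring

lemma Dw_pow {w : ℕ → ℝ} (hw : ∀ a b : ℕ, a ≠ 0 → b ≠ 0 → w (a * b) = w a + w b)
    (f : ArithmeticFunction ℝ) (k : ℕ) : Dw w (f ^ (k + 1)) = (k + 1) • (f ^ k * Dw w f) := by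
  induction k with
  | zero => simp
  | succ k ih =>
    rw [pow_succ, Dw_mul hw, ih]
    have e1 : ((k + 1) • (f ^ k * Dw w f)) * f = (k + 1) • (f ^ (k + 1) * Dw w f) := by
      rw [smul_mul_assoc, pow_succ]
      congr 1
      ring
    rw [e1, add_smul (k + 1) 1, one_smul]

/-! ### the support of the powers -/

/-- the primes up to `X` -/
noncomputable abbrev Pr (X : ℕ) : Finset ℕ := (Finset.Icc 1 X).filter Nat.Prime

lemma mem_Pr {X p : ℕ} : p ∈ Pr X ↔ p.Prime ∧ p ≤ X := by
  rw [Finset.mem_filter, Finset.mem_Icc]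
  constructor
  · rintro ⟨⟨_, h2⟩, h3⟩; exact ⟨h3, h2⟩
  · rintro ⟨h1, h2⟩; exact ⟨⟨h1.one_le, h2⟩, h1⟩

/-- the arithmetic function `p ↦ c p` on the primes `p ≤ X` -/
noncomputable def pr (c : ℕ → ℝ) (X : ℕ) : ArithmeticFunction ℝ :=
  ⟨fun n => if n.Prime ∧ n ≤ X then c n else 0, by simp [Nat.not_prime_zero]⟩

variable {c : ℕ → ℝ} {X : ℕ}

lemma pr_apply (c : ℕ → ℝ) (X n : ℕ) : pr c X n = if n.Prime ∧ n ≤ X then c n else 0 := rfl

lemma pr_pow_le (k : ℕ) : ∀ n : ℕ, (pr c X ^ k) n ≠ 0 → n ≤ X ^ k := by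
  induction k with
  | zero =>
    intro n hn
    rw [pow_zero, ArithmeticFunction.one_apply] at hn
    rw [pow_zero]
    by_contra h
    rw [if_neg (by omega)] at hn
    exact hn rfl
  | succ k ih =>
    intro n hn
    rw [pow_succ, ArithmeticFunction.mul_apply] at hn
    obtain ⟨x, hx, hx2⟩ := Finset.exists_ne_zero_of_sum_ne_zero hn
    rw [Nat.mem_divisorsAntidiagonal] at hx
    have h1 := ih x.1 (left_ne_zero_of_mul hx2)
    have h2 := right_ne_zero_of_mul hx2
    rw [pr_apply] at h2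
    have h3 : x.2.Prime ∧ x.2 ≤ X := by
      by_contra h; rw [if_neg h] at h2; exact h2 rfl
    rw [← hx.1, pow_succ]
    exact Nat.mul_le_mul h1 h3.2

/-- the number of prime factors up to `X` -/
noncomputable def wy (X : ℕ) (n : ℕ) : ℝ := ∑ p ∈ Pr X, (n.factorization p : ℝ)

lemma wy_mul (X : ℕ) (a b : ℕ) (ha : a ≠ 0) (hb : b ≠ 0) : wy X (a * b) = wy X a + wy X b := by
  unfold wy
  rw [← Finset.sum_add_distrib]
  refine Finset.sum_congr rfl fun p _ => ?_
  rw [Nat.factorization_mul ha hb, Finsupp.add_apply, Nat.cast_add]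

lemma Dw_pr : Dw (wy X) (pr c X) = pr c X := by
  ext n
  rw [Dw_apply, pr_apply]
  split_ifs with h
  · have : wy X n = 1 := by
      unfold wy
      rw [Finset.sum_eq_single n]
      · rw [h.1.factorization_self]; norm_num
      · intro p _ hp
        rw [h.1.factorization, Finsupp.single_apply, if_neg (fun e => hp e.symm)]
        norm_num
      · intro hn
        exact absurd (mem_Pr.2 h) hn
    rw [this, one_mul]
  · rw [mul_zero]

lemma wy_pow (k n : ℕ) : wy X n * (pr c X ^ k) n = k * (pr c X ^ k) n := by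
  cases k with
  | zero =>
    rw [pow_zero, ArithmeticFunction.one_apply]
    split_ifs with h
    · subst h
      simp [wy]
    · simp
  | succ k =>
    have h1 := Dw_pow (wy_mul X) (pr c X) k
    rw [Dw_pr, ← pow_succ] at h1
    have h2 := congrArg (fun f : ArithmeticFunction ℝ => f n) h1
    simp only [Dw_apply] at h2
    rw [h2, nsmul_app]

lemma pr_orth {k l : ℕ} (hkl : k ≠ l) (n : ℕ) :
    (pr c X ^ k) n * (pr c X ^ l) n = 0 := by
  have h1 := wy_pow (c := c) (X := X) k n
  have h2 := wy_pow (c := c) (X := X) l n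
  have h3 : ((k : ℝ) - l) * ((pr c X ^ k) n * (pr c X ^ l) n) = 0 := by
    linear_combination (-(pr c X ^ l) n) * h1 + ((pr c X ^ k) n) * h2
  rcases mul_eq_zero.1 h3 with h | h
  · exfalso
    apply hkl
    have : (k : ℝ) = l := by linarith
    exact_mod_cast this
  · exact h

/-! ### the recursion -/

lemma fac_mul (p : ℕ) (a b : ℕ) (ha : a ≠ 0) (hb : b ≠ 0) :
    ((a * b).factorization p : ℝ) = a.factorization p + b.factorization p := by
  rw [Nat.factorization_mul ha hb, Finsupp.add_apply, Nat.cast_add]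

lemma pr_rec {p : ℕ} (hp : p ∈ Pr X) (k m : ℕ) (hm : m ≠ 0) :
    ((m.factorization p : ℝ) + 1) * (pr c X ^ (k + 1)) (p * m) =
      (k + 1) * (c p * (pr c X ^ k) m) := by
  have hp' := mem_Pr.1 hp
  have h1 := Dw_pow (w := fun n => (n.factorization p : ℝ)) (fun a b => fac_mul p a b) (pr c X) k
  have h2 := congrArg (fun f : ArithmeticFunction ℝ => f (p * m)) h1
  simp only [Dw_apply] at h2
  rw [fac_mul p p m hp'.1.ne_zero hm, hp'.1.factorization_self] at h2
  have h3 : ((k + 1) • (pr c X ^ k * Dw (fun n => (n.factorization p : ℝ)) (pr c X))) (p * m) =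
      (k + 1) * ((pr c X ^ k * Dw (fun n => (n.factorization p : ℝ)) (pr c X)) (p * m)) := by
    rw [nsmul_app]
    push_cast
    rfl
  rw [h3] at h2
  have h4 : (pr c X ^ k * Dw (fun n => (n.factorization p : ℝ)) (pr c X)) (p * m) =
      c p * (pr c X ^ k) m := by
    rw [ArithmeticFunction.mul_apply, Finset.sum_eq_single (m, p)]
    · rw [Dw_apply, pr_apply, if_pos hp', hp'.1.factorization_self]
      push_cast
      ring
    · intro x hx hne
      rw [Nat.mem_divisorsAntidiagonal] at hx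
      rw [Dw_apply, pr_apply]
      split_ifs with h
      · by_cases e : x.2 = p
        · exfalso
          apply hne
          have : x.1 = m := by
            have h5 := hx.1
            rw [e, mul_comm] at h5
            exact Nat.eq_of_mul_eq_mul_left hp'.1.pos h5
          exact Prod.ext this e
        · rw [h.1.factorization, Finsupp.single_apply, if_neg e]
          simp
      · simp
    · intro h
      exfalso
      apply h
      rw [Nat.mem_divisorsAntidiagonal]
      exact ⟨mul_comm _ _, mul_ne_zero hp'.1.ne_zero hm⟩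
  rw [h4] at h2
  rw [← h2]
  push_cast
  ring

/-- the sum of the squares -/
noncomputable def SS (c : ℕ → ℝ) (X k : ℕ) : ℝ := ∑ n ∈ Finset.Icc 1 (X ^ k), (pr c X ^ k) n ^ 2

lemma SS_eq (k N : ℕ) (hN : X ^ k ≤ N) :
    ∑ n ∈ Finset.Icc 1 N, (pr c X ^ k) n ^ 2 = SS c X k := by
  unfold SS
  symm
  refine Finset.sum_subset (Finset.Icc_subset_Icc_right hN) fun n _ h2 => ?_
  by_contra h
  have h3 : (pr c X ^ k) n ≠ 0 := fun e => h (by rw [e]; norm_num)
  have h4 := pr_pow_le k n h3
  rw [Finset.mem_Icc] at h2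
  have h5 : n ≠ 0 := by rintro rfl; simp at h3
  exact h2 ⟨by omega, h4⟩

lemma SS_step_p {p : ℕ} (hp : p ∈ Pr X) (k : ℕ) :
    ∑ n ∈ Finset.Icc 1 (X ^ (k + 1)), (n.factorization p : ℝ) * (pr c X ^ (k + 1)) n ^ 2 =
      (k + 1) ^ 2 * ∑ m ∈ Finset.Icc 1 (X ^ k),
        (pr c X ^ k) m ^ 2 * (c p ^ 2 / ((m.factorization p : ℝ) + 1)) := by
  have hp' := mem_Pr.1 hp
  have hp0 : (0 : ℝ) < p := by exact_mod_cast hp'.1.pos
  have hpy : p ≤ X := hp'.2
  have h1 : ∑ n ∈ Finset.Icc 1 (X ^ (k + 1)), (n.factorization p : ℝ) * (pr c X ^ (k + 1)) n ^ 2 =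
      ∑ n ∈ (Finset.Icc 1 (X ^ k)).image (fun m => p * m),
        (n.factorization p : ℝ) * (pr c X ^ (k + 1)) n ^ 2 := by
    symm
    refine Finset.sum_subset ?_ ?_
    · intro n hn
      rw [Finset.mem_image] at hn
      obtain ⟨m, hm, rfl⟩ := hn
      rw [Finset.mem_Icc] at hm ⊢
      refine ⟨Nat.mul_pos hp'.1.pos hm.1, ?_⟩
      rw [pow_succ, mul_comm]
      exact Nat.mul_le_mul hm.2 hpy
    · intro n hn hn2
      rw [Finset.mem_Icc] at hn
      by_cases hd : p ∣ n
      · obtain ⟨m, rfl⟩ := hd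
        have hm0 : m ≠ 0 := by rintro rfl; simp at hn
        have hm1 : ¬ m ≤ X ^ k := by
          intro h
          apply hn2
          rw [Finset.mem_image]
          exact ⟨m, Finset.mem_Icc.2 ⟨Nat.one_le_iff_ne_zero.2 hm0, h⟩, rfl⟩
        have h2 : (pr c X ^ k) m = 0 := by
          by_contra h
          exact hm1 (pr_pow_le k m h)
        have h3 := pr_rec (c := c) hp k m hm0
        rw [h2, mul_zero, mul_zero] at h3
        have h4 : (pr c X ^ (k + 1)) (p * m) = 0 := by
          rcases mul_eq_zero.1 h3 with h | h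
          · exfalso
            have : (0 : ℝ) ≤ (m.factorization p : ℝ) := by positivity
            linarith
          · exact h
        rw [h4]
        norm_num
      · rw [Nat.factorization_eq_zero_of_not_dvd hd]
        norm_num
  rw [h1, Finset.sum_image (fun a _ b _ h => Nat.eq_of_mul_eq_mul_left hp'.1.pos h), Finset.mul_sum]
  refine Finset.sum_congr rfl fun m hm => ?_
  rw [Finset.mem_Icc] at hm
  have hm0 : m ≠ 0 := by omega
  have h3 := pr_rec (c := c) hp k m hm0
  have hv : (0 : ℝ) < (m.factorization p : ℝ) + 1 := by positivity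
  have h4 : (pr c X ^ (k + 1)) (p * m) =
      (k + 1) * (c p * (pr c X ^ k) m) / ((m.factorization p : ℝ) + 1) := by
    rw [← h3]
    field_simp
  rw [h4, fac_mul p p m hp'.1.ne_zero hm0, hp'.1.factorization_self]
  push_cast
  field_simp
  ring

lemma SS_succ (k : ℕ) : SS c X (k + 1) =
    (k + 1) * ∑ m ∈ Finset.Icc 1 (X ^ k),
        (pr c X ^ k) m ^ 2 * ∑ p ∈ Pr X, (c p ^ 2 / ((m.factorization p : ℝ) + 1)) := by
  have h1 : ((k : ℝ) + 1) * SS c X (k + 1) = ∑ n ∈ Finset.Icc 1 (X ^ (k + 1)),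
      ∑ p ∈ Pr X, (n.factorization p : ℝ) * (pr c X ^ (k + 1)) n ^ 2 := by
    unfold SS
    rw [Finset.mul_sum]
    refine Finset.sum_congr rfl fun n _ => ?_
    rw [← Finset.sum_mul]
    have h2 := wy_pow (c := c) (X := X) (k + 1) n
    unfold wy at h2
    push_cast at h2
    rw [sq, ← mul_assoc, ← mul_assoc, h2]
  rw [Finset.sum_comm, Finset.sum_congr rfl (fun p hp => SS_step_p hp k), ← Finset.mul_sum,
    Finset.sum_comm] at h1
  have h3 : (0 : ℝ) < (k : ℝ) + 1 := by positivity
  have h4 : SS c X (k + 1) = (k + 1) * ∑ m ∈ Finset.Icc 1 (X ^ k), ∑ p ∈ Pr X,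
        (pr c X ^ k) m ^ 2 * (c p ^ 2 / ((m.factorization p : ℝ) + 1)) := by
    have h5 := mul_left_cancel₀ h3.ne' (h1.trans (by rw [sq, mul_assoc]))
    exact h5
  rw [h4]
  congr 1
  refine Finset.sum_congr rfl fun m _ => ?_
  rw [Finset.mul_sum]

/-- the sum of the squares of the coefficients -/
noncomputable def VS (c : ℕ → ℝ) (X : ℕ) : ℝ := ∑ p ∈ Pr X, c p ^ 2

lemma VS_nonneg (c : ℕ → ℝ) (X : ℕ) : 0 ≤ VS c X := Finset.sum_nonneg fun _ _ => sq_nonneg _

lemma SS_nonneg (c : ℕ → ℝ) (X k : ℕ) : 0 ≤ SS c X k := Finset.sum_nonneg fun _ _ => sq_nonneg _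

lemma SS_zero (c : ℕ → ℝ) (X : ℕ) : SS c X 0 = 1 := by
  unfold SS
  simp

lemma SS_upper (c : ℕ → ℝ) (X k : ℕ) : SS c X (k + 1) ≤ (k + 1) * (VS c X * SS c X k) := by
  rw [SS_succ]
  refine mul_le_mul_of_nonneg_left ?_ (by positivity)
  unfold SS VS
  rw [Finset.mul_sum]
  refine Finset.sum_le_sum fun m _ => ?_
  rw [mul_comm]
  refine mul_le_mul_of_nonneg_right ?_ (sq_nonneg _)
  refine Finset.sum_le_sum fun p _ => ?_
  refine div_le_self (by positivity) ?_
  have : (0 : ℝ) ≤ (m.factorization p : ℝ) := by positivity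
  linarith

lemma SS_lower {M : ℝ} (hM : ∀ p, c p ^ 2 ≤ M) (k : ℕ) :
    (k + 1) * ((VS c X - k * M) * SS c X k) ≤ SS c X (k + 1) := by
  rw [SS_succ]
  refine mul_le_mul_of_nonneg_left ?_ (by positivity)
  unfold SS
  rw [Finset.mul_sum]
  refine Finset.sum_le_sum fun m _ => ?_
  by_cases h0 : (pr c X ^ k) m = 0
  · rw [h0]; simp
  have h1 := wy_pow (c := c) (X := X) k m
  have h2 : wy X m = k := mul_right_cancel₀ h0 h1
  rw [mul_comm]
  refine mul_le_mul_of_nonneg_left ?_ (sq_nonneg _)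
  rw [← h2]
  unfold VS wy
  rw [Finset.sum_mul, ← Finset.sum_sub_distrib]
  refine Finset.sum_le_sum fun p hp => ?_
  have hv : (0 : ℝ) ≤ (m.factorization p : ℝ) := by positivity
  rw [le_div_iff₀ (by linarith)]
  have h5 := hM p
  have h6 : 0 ≤ c p ^ 2 := sq_nonneg _
  nlinarith [mul_nonneg (sub_nonneg.2 h5) hv, mul_nonneg h6 hv, mul_nonneg (h6.trans h5) (mul_nonneg hv hv)]

lemma SS_le (c : ℕ → ℝ) (X k : ℕ) : SS c X k ≤ k.factorial * VS c X ^ k := by
  induction k with
  | zero => rw [SS_zero]; simp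
  | succ k ih =>
    refine (SS_upper c X k).trans ?_
    rw [Nat.factorial_succ, pow_succ]
    push_cast
    have h1 := mul_le_mul_of_nonneg_left ih (mul_nonneg (by positivity : (0 : ℝ) ≤ (k : ℝ) + 1) (VS_nonneg c X))
    nlinarith [h1]

/-- the moments of the coefficients along a sequence -/
lemma SS_lim (c : ℕ → ℕ → ℝ) (X : ℕ → ℕ) {M : ℝ} (hM : ∀ j p, c j p ^ 2 ≤ M)
    (hV : Tendsto (fun j => VS (c j) (X j)) atTop atTop) (k : ℕ) :
    Tendsto (fun j => SS (c j) (X j) k / VS (c j) (X j) ^ k) atTop (𝓝 (k.factorial : ℝ)) := by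
  induction k with
  | zero => simp [SS_zero]
  | succ k ih =>
    have h1 : Tendsto (fun j => ((k : ℝ) + 1) * (SS (c j) (X j) k / VS (c j) (X j) ^ k)) atTop
        (𝓝 (((k : ℝ) + 1) * k.factorial)) := ih.const_mul _
    have h2 : Tendsto (fun j => (1 - k * M / VS (c j) (X j))) atTop (𝓝 (1 - 0)) :=
      tendsto_const_nhds.sub (tendsto_const_nhds.div_atTop hV)
    have h3 := h2.mul h1
    rw [sub_zero, one_mul] at h3
    have e : (((k + 1).factorial : ℕ) : ℝ) = ((k : ℝ) + 1) * k.factorial := by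
      rw [Nat.factorial_succ]; push_cast; ring
    rw [e]
    refine tendsto_of_tendsto_of_tendsto_of_le_of_le' h3 h1 ?_ ?_
    · filter_upwards [hV.eventually_gt_atTop 0] with j hj
      have h4 := SS_lower (X := X j) (hM j) k
      rw [pow_succ, le_div_iff₀ (by positivity)]
      refine le_trans (le_of_eq ?_) h4
      field_simp
    · filter_upwards [hV.eventually_gt_atTop 0] with j hj
      have h4 := SS_upper (c j) (X j) k
      rw [pow_succ, div_le_iff₀ (by positivity)]
      refine h4.trans (le_of_eq ?_)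
      field_simp

end Pool.Agent.Y743.CL
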