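import Pool.Agent.Y743.CL.St
import Pool.Agent.Y743.NC.Tail

/-! # From heights to zeros -/

set_option autoImplicit false

open Filter Topology MeasureTheory Set

namespace Pool.Agent.Y743.CL

open SG (ord NZ)
open Pool.Agent.Y743.NC (dev dev_nonneg dev_int count_le)
open Pool.Agent.Y743.LR (shift_int step_int)

lemma dev_eq (T M t : ℝ) : dev T M t = ((NZ (t + M * (2 * Real.pi / Real.log T)) : ℝ) - NZ t - M) ^ 2 := by
  unfold dev
  congr 5
  ring

lemma split_int {I W : Set ℝ} (hI : volume I ≠ ⊤) (hW : MeasurableSet W) (M s : ℝ) {f : ℝ → ℝ}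
    (hf : IntegrableOn f I) :
    ∫ t in I, (M * W.indicator (fun _ : ℝ => (1 : ℝ)) t + (s + (1 / s) * f t) / 2) =
      M * volume.real (W ∩ I) + (s * volume.real I + (1 / s) * ∫ t in I, f t) / 2 := by
  have i2 : IntegrableOn (W.indicator fun _ : ℝ => (1 : ℝ)) I :=
    (integrableOn_const hI).indicator hW
  have i3 : IntegrableOn (fun _ : ℝ => s) I := integrableOn_const hI
  have i4 : IntegrableOn (fun t => (1 / s) * f t) I := hf.const_mul (1 / s)
  have i5 : IntegrableOn (fun t => s + (1 / s) * f t) I := i3.add i4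
  have i6 : IntegrableOn (fun t => (s + (1 / s) * f t) / 2) I := i5.div_const 2
  have i7 : IntegrableOn (fun t => M * W.indicator (fun _ : ℝ => (1 : ℝ)) t) I := i2.const_mul M
  have e1 : ∫ t in I, (M * W.indicator (fun _ : ℝ => (1 : ℝ)) t + (s + (1 / s) * f t) / 2) =
      (∫ t in I, M * W.indicator (fun _ : ℝ => (1 : ℝ)) t) + ∫ t in I, (s + (1 / s) * f t) / 2 :=
    integral_add i7 i6
  have e2 : ∫ t in I, (s + (1 / s) * f t) = (∫ t in I, s) + ∫ t in I, (1 / s) * f t :=
    integral_add i3 i4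
  rw [e1, integral_const_mul, integral_div, e2, integral_const_mul,
    integral_indicator hW, Measure.restrict_restrict hW, setIntegral_const, smul_eq_mul, mul_one,
    setIntegral_const, smul_eq_mul]
  ring

/-- few zeros whose `r`-th neighbour is near -/
lemma palmU {T M a s : ℝ} (hT : 1 < T) (hM : 0 < M) (hs : 0 < s) (r : ℕ) (S : Finset ℕ)
    (W : Set ℝ) (hWm : MeasurableSet W)
    (h1 : ∀ n ∈ S, 1 ≤ n) (h2 : ∀ n ∈ S, T + M * (2 * Real.pi / Real.log T) ≤ ord n)
    (h3 : ∀ n ∈ S, ord n ≤ 2 * T)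
    (h4 : ∀ n ∈ S, ord (n + r) ≤ ord n + a * (2 * Real.pi / Real.log T))
    (hW : ∀ t ∈ Icc T (2 * T), (r : ℝ) < (NZ (t + (a + M) * (2 * Real.pi / Real.log T)) : ℝ) - NZ t → t ∈ W) :
    M * (2 * Real.pi / Real.log T) * S.card ≤ M * volume.real (W ∩ Icc T (2 * T)) +
      (s * T + (1 / s) * ∫ t in Icc T (2 * T), dev T M t) / 2 := by
  have hpi := Real.pi_pos
  have hL : 0 < Real.log T := Real.log_pos hT
  set h : ℝ := 2 * Real.pi / Real.log T with hh
  have hh0 : 0 < h := by positivity
  set ℓ : ℝ := M * h with hℓ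
  have hℓ0 : 0 < ℓ := by positivity
  have i1 : IntegrableOn (dev T M) (Icc T (2 * T)) := dev_int _ _ _ _
  have i2 : IntegrableOn (W.indicator fun _ : ℝ => (1 : ℝ)) (Icc T (2 * T)) :=
    (integrableOn_const (by rw [Real.volume_Icc]; exact ENNReal.ofReal_ne_top)).indicator hWm
  have i3 : IntegrableOn (fun _ : ℝ => s) (Icc T (2 * T)) :=
    integrableOn_const (by rw [Real.volume_Icc]; exact ENNReal.ofReal_ne_top)
  have hmain := count_le (A := T) (B := 2 * T) hℓ0.le S (fun n => ord n - ℓ)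
    (g := fun t => M * W.indicator (fun _ : ℝ => (1 : ℝ)) t + (s + (1 / s) * dev T M t) / 2)
    ((i2.const_mul M).add ((i3.add (i1.const_mul (1 / s))).div_const 2))
    (fun n hn => ⟨by have := h2 n hn; linarith, by have := h3 n hn; linarith⟩) (by
      intro t ht
      have hd := dev_nonneg T M t
      rcases (S.filter fun n => ord n - ℓ ≤ t ∧ t < ord n - ℓ + ℓ).eq_empty_or_nonempty with he | he
      · rw [he, Finset.card_empty, Nat.cast_zero]
        have : 0 ≤ W.indicator (fun _ : ℝ => (1 : ℝ)) t := indicator_nonneg (fun _ _ => zero_le_one) _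
        positivity
      obtain ⟨n0, hn0⟩ := he
      rw [Finset.mem_filter] at hn0
      obtain ⟨hn0S, b1, b2⟩ := hn0
      -- the count
      have hsub : (S.filter fun n => ord n - ℓ ≤ t ∧ t < ord n - ℓ + ℓ) ⊆
          Finset.Ioc (NZ t) (NZ (t + ℓ)) := by
        intro n hn
        rw [Finset.mem_filter] at hn
        obtain ⟨c1, c2, c3⟩ := hn
        rw [Finset.mem_Ioc]
        refine ⟨?_, (SG.ord_le_iff (h1 n c1) _).mp (by linarith)⟩
        by_contra hcon
        push Not at hcon
        have := (SG.ord_le_iff (h1 n c1) _).mpr hcon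
        linarith
      have hcard := Finset.card_le_card hsub
      rw [Nat.card_Ioc] at hcard
      have hmono : NZ t ≤ NZ (t + ℓ) := SG.NZ_mono (by linarith)
      have hcard' : ((S.filter fun n => ord n - ℓ ≤ t ∧ t < ord n - ℓ + ℓ).card : ℝ) ≤
          (NZ (t + ℓ) : ℝ) - NZ t := by
        have : ((S.filter fun n => ord n - ℓ ≤ t ∧ t < ord n - ℓ + ℓ).card : ℝ) ≤
          ((NZ (t + ℓ) - NZ t : ℕ) : ℝ) := by exact_mod_cast hcard
        rwa [Nat.cast_sub hmono] at this
      refine hcard'.trans ?_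
      have htW : t ∈ W := by
        apply hW t ht
        have d1 : NZ t < n0 := by
          by_contra hcon
          push Not at hcon
          have := (SG.ord_le_iff (h1 n0 hn0S) _).mpr hcon
          linarith
        have d2 : n0 + r ≤ NZ (t + (a + M) * h) := by
          refine (SG.ord_le_iff (by have := h1 n0 hn0S; omega) _).mp ?_
          have := h4 n0 hn0S
          have e : (a + M) * h = a * h + ℓ := by rw [hℓ]; ring
          linarith
        have d3 : (NZ t : ℝ) < n0 := by exact_mod_cast d1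
        have d4 : (n0 : ℝ) + r ≤ NZ (t + (a + M) * h) := by exact_mod_cast d2
        linarith
      show _ ≤ M * W.indicator (fun _ : ℝ => (1 : ℝ)) t + (s + (1 / s) * dev T M t) / 2
      rw [indicator_of_mem htW, dev_eq, ← hh, ← hℓ, mul_one]
      set w : ℝ := (NZ (t + ℓ) : ℝ) - NZ t with hw
      have h5 : w - M ≤ (s + 1 / s * (w - M) ^ 2) / 2 := by
        have h6 : 0 ≤ (s - (w - M)) ^ 2 / s := by positivity
        have h7 : (s - (w - M)) ^ 2 / s = s - 2 * (w - M) + 1 / s * (w - M) ^ 2 := by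
          field_simp
          ring
        linarith
      linarith)
  refine hmain.trans (le_of_eq ?_)
  rw [split_int (by rw [Real.volume_Icc]; exact ENNReal.ofReal_ne_top) hWm M s i1,
    Real.volume_real_Icc_of_le (by linarith)]
  ring

/-- few zeros whose `r`-th neighbour is far -/
lemma palmL {T M a s : ℝ} (hT : 1 < T) (hM : 0 < M) (hs : 0 < s) (r : ℕ) (S : Finset ℕ)
    (W : Set ℝ) (hWm : MeasurableSet W)
    (h1 : ∀ n ∈ S, 1 ≤ n) (h2 : ∀ n ∈ S, T + M * (2 * Real.pi / Real.log T) ≤ ord n)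
    (h3 : ∀ n ∈ S, ord n + M * (2 * Real.pi / Real.log T) ≤ 2 * T)
    (h4 : ∀ n ∈ S, ord n + a * (2 * Real.pi / Real.log T) < ord (n + r))
    (hW : ∀ t ∈ Icc T (2 * T), (NZ (t + (a - M) * (2 * Real.pi / Real.log T)) : ℝ) - NZ t < r → t ∈ W) :
    M * (2 * Real.pi / Real.log T) * S.card ≤ M * volume.real (W ∩ Icc T (2 * T)) +
      (s * T + (1 / s) * ∫ t in Icc T (2 * T), dev T M t) / 2 := by
  have hpi := Real.pi_pos
  have hL : 0 < Real.log T := Real.log_pos hT
  set h : ℝ := 2 * Real.pi / Real.log T with hh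
  have hh0 : 0 < h := by positivity
  set ℓ : ℝ := M * h with hℓ
  have hℓ0 : 0 < ℓ := by positivity
  rcases S.eq_empty_or_nonempty with hS | ⟨n1, hn1⟩
  · subst hS
    have i0 : 0 ≤ ∫ t in Icc T (2 * T), dev T M t := setIntegral_nonneg measurableSet_Icc fun t _ => dev_nonneg _ _ _
    have i1 : 0 ≤ volume.real (W ∩ Icc T (2 * T)) := measureReal_nonneg
    rw [Finset.card_empty, Nat.cast_zero, mul_zero]
    positivity
  have hTℓ : T + ℓ ≤ 2 * T := by have := h2 n1 hn1; have := h3 n1 hn1; linarith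
  have i1 : IntegrableOn (fun t => dev T M (t - ℓ)) (Icc (T + ℓ) (2 * T)) := by
    have : IntegrableOn (fun t => (fun n m : ℕ => ((n : ℝ) - m - M) ^ 2) (NZ t)
        (NZ (t + (-ℓ)))) (Icc (T + ℓ) (2 * T)) :=
      step_int SG.NZ_mono (fun n m => ((n : ℝ) - m - M) ^ 2) (-ℓ) _ _
    refine this.congr_fun (fun t _ => ?_) measurableSet_Icc
    show _ = dev T M (t - ℓ)
    rw [dev_eq, ← hh, ← hℓ]
    have e1 : t - ℓ + ℓ = t := by ring
    rw [e1, sub_eq_add_neg t ℓ]
  have i2 : IntegrableOn (W.indicator fun _ : ℝ => (1 : ℝ)) (Icc (T + ℓ) (2 * T)) :=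
    (integrableOn_const (by rw [Real.volume_Icc]; exact ENNReal.ofReal_ne_top)).indicator hWm
  have i3 : IntegrableOn (fun _ : ℝ => s) (Icc (T + ℓ) (2 * T)) :=
    integrableOn_const (by rw [Real.volume_Icc]; exact ENNReal.ofReal_ne_top)
  have hmain := count_le (A := T + ℓ) (B := 2 * T) hℓ0.le S ord
    (g := fun t => M * W.indicator (fun _ : ℝ => (1 : ℝ)) t + (s + (1 / s) * dev T M (t - ℓ)) / 2)
    ((i2.const_mul M).add ((i3.add (i1.const_mul (1 / s))).div_const 2))
    (fun n hn => ⟨h2 n hn, h3 n hn⟩) (by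
      intro t ht
      have hd := dev_nonneg T M (t - ℓ)
      rcases (S.filter fun n => ord n ≤ t ∧ t < ord n + ℓ).eq_empty_or_nonempty with he | he
      · rw [he, Finset.card_empty, Nat.cast_zero]
        have : 0 ≤ W.indicator (fun _ : ℝ => (1 : ℝ)) t := indicator_nonneg (fun _ _ => zero_le_one) _
        positivity
      obtain ⟨n0, hn0⟩ := he
      rw [Finset.mem_filter] at hn0
      obtain ⟨hn0S, b1, b2⟩ := hn0
      -- the count
      have hsub : (S.filter fun n => ord n ≤ t ∧ t < ord n + ℓ) ⊆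
          Finset.Ioc (NZ (t - ℓ)) (NZ t) := by
        intro n hn
        rw [Finset.mem_filter] at hn
        obtain ⟨c1, c2, c3⟩ := hn
        rw [Finset.mem_Ioc]
        refine ⟨?_, (SG.ord_le_iff (h1 n c1) _).mp c2⟩
        by_contra hcon
        push Not at hcon
        have := (SG.ord_le_iff (h1 n c1) _).mpr hcon
        linarith
      have hcard := Finset.card_le_card hsub
      rw [Nat.card_Ioc] at hcard
      have hmono : NZ (t - ℓ) ≤ NZ t := SG.NZ_mono (by linarith)
      have hcard' : ((S.filter fun n => ord n ≤ t ∧ t < ord n + ℓ).card : ℝ) ≤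
          (NZ t : ℝ) - NZ (t - ℓ) := by
        have : ((S.filter fun n => ord n ≤ t ∧ t < ord n + ℓ).card : ℝ) ≤
          ((NZ t - NZ (t - ℓ) : ℕ) : ℝ) := by exact_mod_cast hcard
        rwa [Nat.cast_sub hmono] at this
      refine hcard'.trans ?_
      have htW : t ∈ W := by
        apply hW t ⟨by linarith [ht.1], ht.2⟩
        have d1 : NZ (t + (a - M) * h) < n0 + r := by
          by_contra hcon
          push Not at hcon
          have h5 := (SG.ord_le_iff (by have := h1 n0 hn0S; omega) _).mpr hcon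
          have h6 := h4 n0 hn0S
          have e : (a - M) * h = a * h - ℓ := by rw [hℓ]; ring
          linarith
        have d2 : n0 ≤ NZ t := (SG.ord_le_iff (h1 n0 hn0S) _).mp b1
        have d3 : (NZ (t + (a - M) * h) : ℝ) < n0 + r := by exact_mod_cast d1
        have d4 : (n0 : ℝ) ≤ NZ t := by exact_mod_cast d2
        linarith
      show _ ≤ M * W.indicator (fun _ : ℝ => (1 : ℝ)) t + (s + (1 / s) * dev T M (t - ℓ)) / 2
      have e1 : t - ℓ + ℓ = t := by ring
      rw [indicator_of_mem htW, dev_eq, ← hh, ← hℓ, mul_one, e1]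
      set w : ℝ := (NZ t : ℝ) - NZ (t - ℓ) with hw
      have h5 : w - M ≤ (s + 1 / s * (w - M) ^ 2) / 2 := by
        have h6 : 0 ≤ (s - (w - M)) ^ 2 / s := by positivity
        have h7 : (s - (w - M)) ^ 2 / s = s - 2 * (w - M) + 1 / s * (w - M) ^ 2 := by
          field_simp
          ring
        linarith
      linarith)
  refine hmain.trans ?_
  rw [split_int (by rw [Real.volume_Icc]; exact ENNReal.ofReal_ne_top) hWm M s i1,
    Real.volume_real_Icc_of_le (by linarith)]
  have h5 := shift_int (fun t => dev T M t) (T + ℓ) (2 * T) (-ℓ)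
  have h6 : ∫ t in Icc (T + ℓ) (2 * T), dev T M (t - ℓ) =
      ∫ t in Icc T (2 * T - ℓ), dev T M t := by
    have e1 : ∀ t, t - ℓ = t + -ℓ := fun t => sub_eq_add_neg t ℓ
    simp_rw [e1]
    rw [h5]
    congr 2
    ring_nf
  rw [h6]
  have h7 : ∫ t in Icc T (2 * T - ℓ), dev T M t ≤ ∫ t in Icc T (2 * T), dev T M t := by
    refine setIntegral_mono_set (dev_int _ _ _ _)
      (Filter.Eventually.of_forall fun t => dev_nonneg _ _ _) ?_
    exact (Icc_subset_Icc_right (by linarith)).eventuallyLE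
  have h8 : volume.real (W ∩ Icc (T + ℓ) (2 * T)) ≤ volume.real (W ∩ Icc T (2 * T)) := by
    apply measureReal_mono
    · exact inter_subset_inter_right _ (Icc_subset_Icc_left (by linarith))
    · exact ne_top_of_le_ne_top (by rw [Real.volume_Icc]; exact ENNReal.ofReal_ne_top)
        (measure_mono (inter_subset_right (t := Icc T (2 * T))))
  have h9 : (1 / s) * ∫ t in Icc T (2 * T - ℓ), dev T M t ≤ (1 / s) * ∫ t in Icc T (2 * T), dev T M t :=
    mul_le_mul_of_nonneg_left h7 (by positivity)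
  have h10 : M * volume.real (W ∩ Icc (T + ℓ) (2 * T)) ≤ M * volume.real (W ∩ Icc T (2 * T)) :=
    mul_le_mul_of_nonneg_left h8 hM.le
  have h11 : (2 * T - (T + ℓ)) * s ≤ T * s := mul_le_mul_of_nonneg_right (by linarith) hs.le
  linarith

end Pool.Agent.Y743.CL
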