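import Pool.Agent.Y743.CL.Cb

/-! # The central limit theorem for the number of ordinates in a window -/

set_option autoImplicit false

namespace Pool.Agent.Y743.CL

open Complex Filter Topology MeasureTheory Set
open SG (NZ)

/-- the normalised deviation -/
noncomputable def Zv (a T t : ℝ) : ℝ :=
  Real.pi * (a - ((NZ (t + 2 * Real.pi * a / Real.log T) : ℝ) - NZ t)) / Real.sqrt (Real.log a)

lemma small_log : Tendsto (fun x : ℝ => (1 + Real.log (8 + x)) / x) atTop (𝓝 0) := by
  have h1 : (fun x : ℝ => 1 + Real.log (8 + x)) =o[atTop] fun x : ℝ => 8 + x := by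
    have h8 : Tendsto (fun x : ℝ => 8 + x) atTop atTop := tendsto_atTop_add_const_left _ _ tendsto_id
    have h2 : (fun x : ℝ => Real.log (8 + x)) =o[atTop] fun x : ℝ => 8 + x :=
      Real.isLittleO_log_id_atTop.comp_tendsto h8
    have h3 : (fun _ : ℝ => (1 : ℝ)) =o[atTop] fun x : ℝ => 8 + x :=
      (Asymptotics.isLittleO_const_id_atTop (1 : ℝ)).comp_tendsto h8
    exact h3.add h2
  have h4 : (fun x : ℝ => 8 + x) =O[atTop] fun x : ℝ => x := by
    refine Asymptotics.IsBigO.of_bound 2 ?_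
    filter_upwards [eventually_ge_atTop 8] with x hx
    rw [Real.norm_of_nonneg (by linarith), Real.norm_of_nonneg (by linarith)]
    linarith
  exact (h1.trans_isBigO h4).tendsto_div_nhds_zero

theorem seq_clt (B : ℝ) (hB : 1 ≤ B) : ∃ A0 : ℝ, 3 ≤ A0 ∧ ∀ a T : ℕ → ℝ, (∀ j, A0 ≤ a j) →
    (∀ j, 1 ≤ T j) → Tendsto a atTop atTop →
    (∀ j, a j * Real.log (a j) ≤ B * Real.log (T j)) → ∀ u v ε : ℝ, u < v → 0 < ε →
    ∀ᶠ j in atTop, volume.real {t | t ∈ Icc (T j) (2 * T j) ∧
      ¬ (u < Zv (a j) (T j) t ∧ Zv (a j) (T j) t < v)} ≤ (1 - gs.real (Ioo u v) + ε) * T j := by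
  obtain ⟨lam, C, T0, hlam, hC, hT0, hcomb⟩ := comb B hB
  have hev : ∀ᶠ T : ℝ in atTop, 2 * Real.log T + 7 ≤ 1 * T / 2 := by
    have h1 : (fun T : ℝ => 2 * Real.log T + 7) =o[atTop] fun T : ℝ => T :=
      (Real.isLittleO_log_id_atTop.const_mul_left 2).add (Asymptotics.isLittleO_const_id_atTop _)
    have h2 := h1.bound (c := 1 / 2) (by norm_num)
    filter_upwards [h2, eventually_ge_atTop 1] with T hT hT1
    rw [Real.norm_of_nonneg (by linarith : (0 : ℝ) ≤ T)] at hT
    have := (le_abs_self _).trans hT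
    linarith
  obtain ⟨T3, hT3⟩ := hev.exists_forall_of_atTop
  have hpi := Real.pi_pos
  refine ⟨max (max lam 3) (max (B * Real.log (max T0 T3)) (72 * B)),
    (le_max_right _ _).trans (le_max_left _ _), fun a T ha hT1 hat haT u v ε huv hε => ?_⟩
  -- the basic facts
  have f1 : ∀ j, lam ≤ a j := fun j => ((le_max_left _ _).trans (le_max_left _ _)).trans (ha j)
  have f2 : ∀ j, 3 ≤ a j := fun j => ((le_max_right _ _).trans (le_max_left _ _)).trans (ha j)
  have f3 : ∀ j, B * Real.log (max T0 T3) ≤ a j := fun j =>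
    ((le_max_left _ _).trans (le_max_right _ _)).trans (ha j)
  have f4 : ∀ j, 72 * B ≤ a j := fun j =>
    ((le_max_right _ _).trans (le_max_right _ _)).trans (ha j)
  have f5 : ∀ j, 1 ≤ Real.log (a j) := fun j => by
    rw [Real.le_log_iff_exp_le (by linarith [f2 j])]
    linarith [Real.exp_one_lt_d9, f2 j]
  have f6 : ∀ j, a j / B ≤ Real.log (T j) := fun j => by
    rw [div_le_iff₀ (by linarith)]
    have := haT j
    have h1 : a j * 1 ≤ a j * Real.log (a j) :=
      mul_le_mul_of_nonneg_left (f5 j) (by linarith [f2 j])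
    linarith
  have f7 : ∀ j, max T0 T3 ≤ T j := fun j => by
    have h0 : 0 < max T0 T3 := lt_of_lt_of_le (by linarith) (le_max_left T0 T3)
    rw [← Real.log_le_log_iff h0 (by linarith [hT1 j])]
    refine le_trans ?_ (f6 j)
    rw [le_div_iff₀ (by linarith)]
    linarith [f3 j]
  have f8 : ∀ j, T0 ≤ T j := fun j => (le_max_left _ _).trans (f7 j)
  have f9 : ∀ j, 2 * Real.log (T j) + 7 ≤ T j / 2 := fun j => by
    have := hT3 (T j) ((le_max_right _ _).trans (f7 j))
    linarith
  have f10 : ∀ j, 0 < T j := fun j => by linarith [hT1 j]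
  have f11 : ∀ j, 0 < Real.log (T j) := fun j => Real.log_pos (by linarith [f8 j])
  have hTt : Tendsto T atTop atTop := by
    refine tendsto_atTop_mono (fun j => ?_) (hat.atTop_div_const (by linarith : 0 < B))
    have h1 := Real.log_le_sub_one_of_pos (f10 j)
    linarith [f6 j]
  have hLt : Tendsto (fun j => Real.log (a j)) atTop atTop := Real.tendsto_log_atTop.comp hat
  -- the parameters
  set κ : ℕ → ℝ := fun j => 1 / (8 + Real.log (a j)) with hκ
  have k1 : ∀ j, 0 < κ j := fun j => by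
    have := f5 j
    simp only [hκ]; positivity
  have k2 : ∀ j, κ j ≤ 1 / 8 := fun j => by
    have := f5 j
    simp only [hκ]
    exact one_div_le_one_div_of_le (by norm_num) (by linarith)
  have k3 : ∀ j, 8 ≤ κ j * Real.log (T j) := fun j => by
    have h1 := f5 j
    have h2 := haT j
    simp only [hκ]
    rw [div_mul_eq_mul_div, one_mul, le_div_iff₀ (by linarith)]
    have h3 : 8 * (8 + Real.log (a j)) ≤ 72 * Real.log (a j) := by linarith
    have h4 : 72 * B * Real.log (a j) ≤ a j * Real.log (a j) :=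
      mul_le_mul_of_nonneg_right (f4 j) (by linarith)
    have h5 : B * (72 * Real.log (a j)) ≤ B * Real.log (T j) := by linarith
    have h6 := le_of_mul_le_mul_left h5 (by linarith : 0 < B)
    linarith
  have k4 : ∀ j, Real.log (1 / κ j) = Real.log (8 + Real.log (a j)) := fun j => by
    simp only [hκ]; rw [one_div_one_div]
  set L : ℕ → ℝ := fun j => Real.log (T j) with hL
  set h : ℕ → ℝ := fun j => 2 * Real.pi * a j / Real.log (T j) with hh
  set X : ℕ → ℕ := fun j => XK (κ j) (T j) with hX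
  set c : ℕ → ℕ → ℝ := fun j => rc (Real.log (T j) / lam) (2 * Real.pi * a j / Real.log (T j)) with hc
  set V : ℕ → ℝ := fun j => VS (c j) (X j) with hV
  have hcb := fun j => hcomb (T j) (f8 j) (a j) (f1 j) (haT j) (κ j) (k1 j) (k2 j) (k3 j)
  -- q → 0
  set q : ℕ → ℝ := fun j => (1 + Real.log (8 + Real.log (a j))) / Real.log (a j) with hq
  have hq0 : Tendsto q atTop (𝓝 0) := small_log.comp hLt
  have hVq : ∀ j, |V j / Real.log (a j) - 2 / Real.pi ^ 2| ≤ C * q j := fun j => by
    have h1 := (hcb j).2.2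
    rw [k4] at h1
    have h2 : 0 < Real.log (a j) := by linarith [f5 j]
    have h3 : V j / Real.log (a j) - 2 / Real.pi ^ 2 =
        (V j - 2 / Real.pi ^ 2 * Real.log (a j)) / Real.log (a j) := by field_simp
    rw [h3, abs_div, abs_of_pos h2, hq, ← mul_div_assoc]
    exact div_le_div_of_nonneg_right h1 h2.le
  have hVl : Tendsto (fun j => V j / Real.log (a j)) atTop (𝓝 (2 / Real.pi ^ 2)) := by
    rw [tendsto_iff_norm_sub_tendsto_zero]
    have h1 := hq0.const_mul C
    rw [mul_zero] at h1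
    exact squeeze_zero (fun _ => norm_nonneg _) (fun j => hVq j) h1
  have hVt : Tendsto V atTop atTop := by
    have h1 := hVl.pos_mul_atTop (by positivity) hLt
    refine h1.congr fun j => ?_
    have : Real.log (a j) ≠ 0 := by have := f5 j; linarith
    field_simp
  set ρ : ℕ → ℝ := fun j => Real.sqrt (Real.pi ^ 2 / 2 * (V j / Real.log (a j))) with hρ
  have hρ1 : Tendsto ρ atTop (𝓝 1) := by
    have h1 := (hVl.const_mul (Real.pi ^ 2 / 2)).sqrt
    have e : Real.pi ^ 2 / 2 * (2 / Real.pi ^ 2) = 1 := by field_simp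
    rw [e, Real.sqrt_one] at h1
    exact h1
  -- the parameter η
  set η : ℝ := min (ε / 20) ((v - u) / 8) with hη
  have hη0 : 0 < η := lt_min (by positivity) (by linarith)
  have hη1 : η ≤ ε / 20 := min_le_left _ _
  have hη2 : η ≤ (v - u) / 8 := min_le_right _ _
  -- the central limit theorem
  have hclt := clt_poly T (fun j => T j + L j + h j / 2) (fun j => 2 * T j - L j - 7 + h j / 2) X c
    (M := 1) (fun j p => rc_bd (div_pos (f11 j) (by linarith)) _ p) hTt f10
    (fun j => by have := f9 j; simp only [hL]; linarith [f10 j])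
    (by
      have h1 : Tendsto (fun j => 1 - (2 * (Real.log (T j) / T j ^ (1:ℝ)) + 7 / T j)) atTop
          (𝓝 (1 - (2 * 0 + 0))) := by
        refine tendsto_const_nhds.sub ?_
        refine Tendsto.add ?_ (tendsto_const_nhds.div_atTop hTt)
        exact ((isLittleO_log_rpow_atTop (by norm_num : (0:ℝ) < 1)).tendsto_div_nhds_zero.comp hTt).const_mul 2
      rw [mul_zero, add_zero, sub_zero] at h1
      refine h1.congr fun j => ?_
      have := (f10 j).ne'
      rw [Real.rpow_one]
      simp only [hL]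
      field_simp
      ring)
    (fun j => by
      simp only [hX]
      unfold XK
      apply Nat.le_floor
      push_cast
      exact Real.one_le_rpow (hT1 j) (k1 j).le)
    (fun m => by
      filter_upwards [hLt.eventually_ge_atTop (2 * (m : ℝ))] with j hj
      have h1 : ((X j ^ m : ℕ) : ℝ) ≤ (T j ^ κ j) ^ m := by
        push_cast
        exact pow_le_pow_left₀ (Nat.cast_nonneg _) (Nat.floor_le (by have := f10 j; positivity)) m
      refine h1.trans ?_
      rw [← Real.rpow_natCast, ← Real.rpow_mul (f10 j).le, Real.sqrt_eq_rpow]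
      apply Real.rpow_le_rpow_of_exponent_le (hT1 j)
      simp only [hκ]
      rw [div_mul_eq_mul_div, one_mul, div_le_iff₀ (by linarith [f5 j])]
      linarith)
    hVt (u + 2 * η) (v - 2 * η) (by linarith)
  -- the eventual inequalities
  have e1 : ∀ᶠ j in atTop, gs.real (Ioo (u + 2 * η) (v - 2 * η)) - ε / 10 ≤
      volume.real {t ∈ Ioc (T j + L j + h j / 2) (2 * T j - L j - 7 + h j / 2) |
      u + 2 * η < Real.sqrt 2 * ((G (c j) (X j) t).re / Real.sqrt (V j)) ∧
      Real.sqrt 2 * ((G (c j) (X j) t).re / Real.sqrt (V j)) < v - 2 * η} / T j :=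
    hclt.eventually_const_le (by linarith)
  have e2 : ∀ᶠ j in atTop, u + η ≤ ρ j * (u + 2 * η) := by
    have h1 := hρ1.mul_const (u + 2 * η)
    rw [one_mul] at h1
    exact h1.eventually_const_le (by linarith)
  have e3 : ∀ᶠ j in atTop, ρ j * (v - 2 * η) ≤ v - η := by
    have h1 := hρ1.mul_const (v - 2 * η)
    rw [one_mul] at h1
    exact h1.eventually_le_const (by linarith)
  have e4 : ∀ᶠ j in atTop, Real.pi ^ 2 * C * q j / η ^ 2 ≤ ε / 10 := by
    have h1 := (hq0.const_mul (Real.pi ^ 2 * C)).div_const (η ^ 2)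
    rw [mul_zero, zero_div] at h1
    exact h1.eventually_le_const (by positivity)
  have e5 : ∀ᶠ j in atTop, (2 * L j + 7) / T j ≤ ε / 10 := by
    have h1 : Tendsto (fun j => 2 * (Real.log (T j) / T j ^ (1:ℝ)) + 7 / T j) atTop
        (𝓝 (2 * 0 + 0)) := by
      refine Tendsto.add ?_ (tendsto_const_nhds.div_atTop hTt)
      exact ((isLittleO_log_rpow_atTop (by norm_num : (0:ℝ) < 1)).tendsto_div_nhds_zero.comp hTt).const_mul 2
    rw [mul_zero, add_zero] at h1
    filter_upwards [h1.eventually_le_const (show (0 : ℝ) < ε / 10 by positivity)] with j hj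
    refine le_trans (le_of_eq ?_) hj
    have := (f10 j).ne'
    rw [Real.rpow_one]
    simp only [hL]
    field_simp
  filter_upwards [e1, e2, e3, e4, e5, hVt.eventually_gt_atTop 0, hρ1.eventually_const_lt (show (0 : ℝ) < 1 by norm_num)]
    with j g1 g2 g3 g4 g5 g6 g7
  obtain ⟨ci, cb, -⟩ := hcb j
  rw [k4] at cb
  have hTj := f10 j
  have hLj := f11 j
  have hla : 0 < Real.log (a j) := by linarith [f5 j]
  have hsla : 0 < Real.sqrt (Real.log (a j)) := Real.sqrt_pos.2 hla
  have hAB : T j + L j ≤ 2 * T j - L j - 7 := by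
    have := f9 j
    simp only [hL]; linarith
  have hLj' : 0 < L j := hLj
  set P : ℝ → Prop := fun t => u + 2 * η < Real.sqrt 2 * ((G (c j) (X j) t).re / Real.sqrt (V j)) ∧
      Real.sqrt 2 * ((G (c j) (X j) t).re / Real.sqrt (V j)) < v - 2 * η with hP
  have hPm : MeasurableSet {t : ℝ | P t} := by
    have hc1 : Continuous fun t : ℝ => Real.sqrt 2 * ((G (c j) (X j) t).re / Real.sqrt (V j)) :=
      continuous_const.mul ((Complex.continuous_re.comp (G_cont _ _)).div_const _)
    exact (isOpen_lt continuous_const hc1).measurableSet.inter (isOpen_lt hc1 continuous_const).measurableSet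
  set I0 : Set ℝ := Ioc (T j + L j) (2 * T j - L j - 7) with hI0
  have hI0v : volume I0 ≠ ⊤ := by rw [hI0, Real.volume_Ioc]; exact ENNReal.ofReal_ne_top
  set E : Set ℝ := {t | η ^ 2 * Real.log (a j) / Real.pi ^ 2 ≤ er lam (κ j) (T j) (a j) t ^ 2} with hE
  have hEm : MeasurableSet E := measurableSet_le measurable_const ((er_meas _ _ _ _).pow_const 2)
  -- Chebyshev
  have hcheb : volume.real (E ∩ I0) ≤ ε / 10 * T j := by
    have h1 := mul_meas_ge_le_integral_of_nonneg (μ := volume.restrict I0)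
      (f := fun t => er lam (κ j) (T j) (a j) t ^ 2) (Eventually.of_forall fun _ => sq_nonneg _)
      (by
        have := ci
        rw [intervalIntegrable_iff_integrableOn_Ioc_of_le hAB] at this
        exact this) (η ^ 2 * Real.log (a j) / Real.pi ^ 2)
    rw [measureReal_restrict_apply hEm] at h1
    have h2 : ∫ t in I0, er lam (κ j) (T j) (a j) t ^ 2 ≤
        C * (1 + Real.log (8 + Real.log (a j))) * T j := by
      rw [hI0, ← intervalIntegral.integral_of_le hAB]
      exact cb
    have h3 : volume.real (E ∩ I0) ≤ (C * (1 + Real.log (8 + Real.log (a j))) * T j) /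
        (η ^ 2 * Real.log (a j) / Real.pi ^ 2) := by
      rw [le_div_iff₀ (by positivity), mul_comm]
      exact h1.trans h2
    refine h3.trans ?_
    have h4 : (C * (1 + Real.log (8 + Real.log (a j))) * T j) /
        (η ^ 2 * Real.log (a j) / Real.pi ^ 2) = (Real.pi ^ 2 * C * q j / η ^ 2) * T j := by
      simp only [hq]
      field_simp
    rw [h4]
    exact mul_le_mul_of_nonneg_right g4 hTj.le
  -- the good set
  have hgood : (gs.real (Ioo (u + 2 * η) (v - 2 * η)) - ε / 10) * T j ≤
      volume.real (I0 ∩ {t | P (t + h j / 2)}) := by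
    rw [le_div_iff₀ hTj] at g1
    refine g1.trans (le_of_eq ?_)
    have e : I0 ∩ {t | P (t + h j / 2)} = (fun t => t + h j / 2) ⁻¹'
        {t ∈ Ioc (T j + L j + h j / 2) (2 * T j - L j - 7 + h j / 2) | P t} := by
      ext t
      constructor
      · rintro ⟨h1, h2⟩
        exact ⟨⟨by linarith [h1.1], by linarith [h1.2]⟩, h2⟩
      · rintro ⟨h1, h2⟩
        exact ⟨⟨by linarith [h1.1], by linarith [h1.2]⟩, h2⟩
    rw [e, Measure.real, Measure.real, measure_preimage_add_right]
  have hbadP : volume.real (I0 \ {t | P (t + h j / 2)}) ≤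
      T j - (gs.real (Ioo (u + 2 * η) (v - 2 * η)) - ε / 10) * T j := by
    have hm : MeasurableSet {t | P (t + h j / 2)} := (measurable_id.add_const (h j / 2)) hPm
    have h1 := measureReal_inter_add_sdiff (μ := volume) (s := I0) hm hI0v
    have h2 : volume.real I0 ≤ T j := by
      rw [hI0, Real.volume_real_Ioc_of_le hAB]
      linarith
    linarith
  -- the inclusion
  have hsub : {t | t ∈ Icc (T j) (2 * T j) ∧ ¬ (u < Zv (a j) (T j) t ∧ Zv (a j) (T j) t < v)} ⊆
      (Icc (T j) (T j + L j) ∪ Icc (2 * T j - L j - 7) (2 * T j)) ∪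
      ((E ∩ I0) ∪ (I0 \ {t | P (t + h j / 2)})) := by
    intro t ht
    obtain ⟨ht1, ht2⟩ := ht
    rcases le_or_gt t (T j + L j) with h1 | h1
    · left; left; exact ⟨ht1.1, h1⟩
    rcases lt_or_ge (2 * T j - L j - 7) t with h2 | h2
    · left; right; exact ⟨h2.le, ht1.2⟩
    right
    by_cases h3 : t ∈ E
    · left; exact ⟨h3, h1, h2⟩
    right
    refine ⟨⟨h1, h2⟩, fun h4 => ht2 ?_⟩
    obtain ⟨h5, h6⟩ := h4
    rw [hE, mem_ofPred_eq, not_le] at h3
    set Y := Real.sqrt 2 * ((G (c j) (X j) (t + h j / 2)).re / Real.sqrt (V j)) with hY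
    set e0 := er lam (κ j) (T j) (a j) t with he0
    have hZ : Zv (a j) (T j) t = ρ j * Y - Real.pi * e0 / Real.sqrt (Real.log (a j)) := by
      have h7 : ρ j = Real.pi * Real.sqrt (V j) / (Real.sqrt 2 * Real.sqrt (Real.log (a j))) := by
        simp only [hρ]
        rw [Real.sqrt_eq_iff_mul_self_eq (by positivity) (by positivity)]
        have a1 : Real.sqrt (V j) * Real.sqrt (V j) = V j := Real.mul_self_sqrt g6.le
        have a2 : Real.sqrt 2 * Real.sqrt 2 = 2 := Real.mul_self_sqrt (by norm_num)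
        have a3 : Real.sqrt (Real.log (a j)) * Real.sqrt (Real.log (a j)) = Real.log (a j) :=
          Real.mul_self_sqrt hla.le
        have : Real.pi * Real.sqrt (V j) / (Real.sqrt 2 * Real.sqrt (Real.log (a j))) *
            (Real.pi * Real.sqrt (V j) / (Real.sqrt 2 * Real.sqrt (Real.log (a j)))) =
            Real.pi ^ 2 * (Real.sqrt (V j) * Real.sqrt (V j)) /
              ((Real.sqrt 2 * Real.sqrt 2) * (Real.sqrt (Real.log (a j)) * Real.sqrt (Real.log (a j)))) := by
          ring
        rw [this, a1, a2, a3]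
        ring
      have hsv : Real.sqrt (V j) ≠ 0 := (Real.sqrt_pos.2 g6).ne'
      have hs2 : Real.sqrt 2 ≠ 0 := (Real.sqrt_pos.2 (by norm_num)).ne'
      rw [h7, hY, he0]
      unfold Zv er
      simp only [hh, hc, hX]
      field_simp
      ring
    have he1 : |Real.pi * e0 / Real.sqrt (Real.log (a j))| < η := by
      rw [← sq_lt_sq₀ (abs_nonneg _) hη0.le, sq_abs, div_pow, Real.sq_sqrt hla.le, mul_pow,
        div_lt_iff₀ hla]
      rw [lt_div_iff₀ (by positivity)] at h3
      linarith
    have he2 := abs_lt.1 he1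
    have h8 : ρ j * (u + 2 * η) < ρ j * Y := mul_lt_mul_of_pos_left h5 g7
    have h9 : ρ j * Y < ρ j * (v - 2 * η) := mul_lt_mul_of_pos_left h6 g7
    rw [hZ]
    constructor <;> linarith [he2.1, he2.2]
  have hfin1 : volume (Icc (T j) (T j + L j) ∪ Icc (2 * T j - L j - 7) (2 * T j)) ≠ ⊤ :=
    measure_union_ne_top (by rw [Real.volume_Icc]; exact ENNReal.ofReal_ne_top)
      (by rw [Real.volume_Icc]; exact ENNReal.ofReal_ne_top)
  have hfin2 : volume (E ∩ I0) ≠ ⊤ := ne_top_of_le_ne_top hI0v (measure_mono inter_subset_right)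
  have hfin3 : volume (I0 \ {t | P (t + h j / 2)}) ≠ ⊤ := ne_top_of_le_ne_top hI0v (measure_mono sdiff_subset)
  have h1 := measureReal_mono hsub (measure_union_ne_top hfin1 (measure_union_ne_top hfin2 hfin3))
  have h2 := measureReal_union_le (μ := volume) (Icc (T j) (T j + L j) ∪ Icc (2 * T j - L j - 7) (2 * T j))
    ((E ∩ I0) ∪ (I0 \ {t | P (t + h j / 2)}))
  have h3 := measureReal_union_le (μ := volume) (Icc (T j) (T j + L j)) (Icc (2 * T j - L j - 7) (2 * T j))
  have h4 := measureReal_union_le (μ := volume) (E ∩ I0) (I0 \ {t | P (t + h j / 2)})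
  rw [Real.volume_real_Icc_of_le (by linarith), Real.volume_real_Icc_of_le (by linarith)] at h3
  have h5 : 2 * L j + 7 ≤ ε / 10 * T j := by rwa [div_le_iff₀ hTj] at g5
  have h6 := gs_shrink u v (2 * η) (by positivity)
  have h7 : gs.real (Ioo u v) * T j ≤ (gs.real (Ioo (u + 2 * η) (v - 2 * η)) + 2 * (2 * η)) * T j :=
    mul_le_mul_of_nonneg_right h6 hTj.le
  have h8 : 2 * (2 * η) * T j ≤ ε / 5 * T j := mul_le_mul_of_nonneg_right (by linarith) hTj.le
  have h9 : (1 - gs.real (Ioo u v) + ε) * T j = T j - gs.real (Ioo u v) * T j + ε * T j := by ring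
  have h10 : 0 < ε * T j := by positivity
  rw [h9]
  linarith

/-- uniform version -/
theorem stat_clt (B : ℝ) (hB : 1 ≤ B) (u v ε : ℝ) (huv : u < v) (hε : 0 < ε) : ∃ R : ℝ, 3 ≤ R ∧
    ∀ a T : ℝ, R ≤ a → 1 ≤ T → a * Real.log a ≤ B * Real.log T →
    volume.real {t | t ∈ Icc T (2 * T) ∧ ¬ (u < Zv a T t ∧ Zv a T t < v)} ≤
      (1 - gs.real (Ioo u v) + ε) * T := by
  obtain ⟨A0, hA0, hseq⟩ := seq_clt B hB
  by_contra hcon
  push Not at hcon
  have hch : ∀ j : ℕ, ∃ x : ℝ × ℝ, A0 + j ≤ x.1 ∧ 1 ≤ x.2 ∧ x.1 * Real.log x.1 ≤ B * Real.log x.2 ∧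
      (1 - gs.real (Ioo u v) + ε) * x.2 <
      volume.real {t | t ∈ Icc x.2 (2 * x.2) ∧ ¬ (u < Zv x.1 x.2 t ∧ Zv x.1 x.2 t < v)} := by
    intro j
    obtain ⟨a, T, h1, h2, h3, h4⟩ := hcon (A0 + j) (by have : (0 : ℝ) ≤ j := Nat.cast_nonneg j; linarith)
    exact ⟨(a, T), h1, h2, h3, by simpa only [not_and, not_lt] using h4⟩
  choose x hx using hch
  have h := hseq (fun j => (x j).1) (fun j => (x j).2)
    (fun j => by
      have : (0 : ℝ) ≤ j := Nat.cast_nonneg j
      have := (hx j).1
      linarith) (fun j => (hx j).2.1)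
    (tendsto_atTop_mono (fun j => by have := (hx j).1; linarith) tendsto_natCast_atTop_atTop)
    (fun j => (hx j).2.2.1) u v ε huv hε
  obtain ⟨j, hj⟩ := h.exists
  exact absurd (hx j).2.2.2 (not_lt.2 hj)

end Pool.Agent.Y743.CL
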